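import Pool.Agent.Lib.H73H.G1

set_option autoImplicit false

namespace Pool.Agent.Lib.H73H

open Classical Module Submodule

variable {V : Type} [AddCommGroup V] [Module ℚ V]

/-! G6: extension of independent sets. -/

/-- Take `F₀ ⊆ F` of maximal cardinality such that `G ∪ F₀` is independent and `G`, `F₀` are
disjoint; use `ind_insert`. -/
theorem ind_extend {G F : Finset V} (hG : Ind G) :
    ∃ F₀ ⊆ F, Disjoint G F₀ ∧ Ind (G ∪ F₀) ∧
      (F : Set V) ⊆ span ℚ ((G ∪ F₀ : Finset V) : Set V) := by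
  obtain ⟨F₀, hmem, hmax⟩ := Finset.exists_max_image
    (F.powerset.filter (fun F₀ => Disjoint G F₀ ∧ Ind (G ∪ F₀))) Finset.card
    ⟨∅, by
      rw [Finset.mem_filter, Finset.mem_powerset]
      refine ⟨Finset.empty_subset _, Finset.disjoint_empty_right _, ?_⟩
      rw [Finset.union_empty]; exact hG⟩
  rw [Finset.mem_filter, Finset.mem_powerset] at hmem
  obtain ⟨hsub, hd, hi⟩ := hmem
  refine ⟨F₀, hsub, hd, hi, ?_⟩
  intro x hx
  by_contra hcon
  have hxn : x ∉ G ∪ F₀ := fun h => hcon (subset_span h)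
  have hxG : x ∉ G := fun h => hxn (Finset.mem_union_left _ h)
  have hxF : x ∉ F₀ := fun h => hxn (Finset.mem_union_right _ h)
  have h1 := ind_insert hi hcon
  have h2 := hmax (insert x F₀) (by
    rw [Finset.mem_filter, Finset.mem_powerset]
    refine ⟨Finset.insert_subset hx hsub, ?_, ?_⟩
    · rw [Finset.disjoint_insert_right]
      exact ⟨hxG, hd⟩
    · rw [Finset.union_insert]; exact h1)
  rw [Finset.card_insert_of_notMem hxF] at h2
  omega

/-- a basis of the span inside the set: the case `G = ∅` -/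
theorem ind_basis (F : Finset V) :
    ∃ F₀ ⊆ F, Ind F₀ ∧ span ℚ (F₀ : Set V) = span ℚ (F : Set V) := by
  obtain ⟨F₀, hsub, _, hi, hsp⟩ := ind_extend (G := (∅ : Finset V)) (F := F) ind_empty
  rw [Finset.empty_union] at hi hsp
  refine ⟨F₀, hsub, hi, ?_⟩
  apply le_antisymm
  · exact span_mono (by exact_mod_cast hsub)
  · exact span_le.2 hsp

end Pool.Agent.Lib.H73H
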