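import Pool.Agent.Lib.H73H.G3
import Pool.Agent.Lib.H73H.G6

set_option autoImplicit false

namespace Pool.Agent.Lib.H73H

open Classical Module Submodule

variable {V : Type} [AddCommGroup V] [Module ℚ V]

/-! B1: bases inside `S`. -/

/-- Every vector is in the span of finitely many elements of `S`, so there is a finite set
`F ⊆ S` with `span F = ⊤` (finite dimension). `ind_extend` gives `F₀` with `G ∪ F₀` independent
and spanning; it has `n` elements (`Ind.finrank_span`); enumerate it. -/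
theorem ext_basis {Δ n : ℕ} {S : Set V} (h : Sys Δ n S) {G : Finset V} (hG : (G : Set V) ⊆ S)
    (hi : Ind G) : ∃ v : Fin n → V, (∀ i, v i ∈ S) ∧ LinearIndependent ℚ v ∧
      span ℚ (Set.range v) = ⊤ ∧ ∀ x ∈ G, ∃ i, v i = x := by
  haveI := h.fin
  have hfg : (⊤ : Submodule ℚ V).FG := Module.finite_def.mp h.fin
  obtain ⟨T, hT⟩ := hfg
  have hF : ∃ F : Finset V, (F : Set V) ⊆ S ∧ span ℚ (F : Set V) = ⊤ := by
    have h1 : ∀ x ∈ T, ∃ F : Finset V, (F : Set V) ⊆ S ∧ x ∈ span ℚ (F : Set V) := by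
      intro x _
      have hx : x ∈ span ℚ S := by
        rw [h.span]
        exact Submodule.mem_top
      obtain ⟨F, hF1, hF2⟩ := Submodule.mem_span_finite_of_mem_span hx
      exact ⟨F, hF1, hF2⟩
    choose! Fx hFx using h1
    refine ⟨T.biUnion Fx, ?_, ?_⟩
    · intro y hy
      obtain ⟨x, hxT, hyx⟩ := Finset.mem_biUnion.mp (Finset.mem_coe.mp hy)
      exact (hFx x hxT).1 hyx
    · rw [eq_top_iff, ← hT, span_le]
      intro x hx
      refine span_mono ?_ (hFx x hx).2
      intro y hy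
      exact Finset.mem_coe.mpr (Finset.mem_biUnion.mpr ⟨x, hx, hy⟩)
  obtain ⟨F, hFS, hFtop⟩ := hF
  obtain ⟨F₀, hF₀, _, hind, hspan⟩ := ind_extend (F := F) hi
  have htop : span ℚ ((G ∪ F₀ : Finset V) : Set V) = ⊤ := by
    rw [eq_top_iff, ← hFtop, span_le]
    exact hspan
  have hcard : (G ∪ F₀).card = n := by
    rw [← hind.finrank_span, htop, finrank_top, h.rank]
  have hli := ind_iff_linearIndependent.mp hind
  let e : Fin n ≃ (G ∪ F₀ : Finset V) := (finCongr hcard.symm).trans (G ∪ F₀).equivFin.symm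
  refine ⟨fun i => (e i : V), ?_, ?_, ?_, ?_⟩
  · intro i
    rcases Finset.mem_union.mp (e i).2 with h1 | h1
    · exact hG h1
    · exact hFS (hF₀ h1)
  · exact hli.comp e e.injective
  · rw [← htop]
    apply congrArg
    ext x
    constructor
    · rintro ⟨i, rfl⟩
      exact (e i).2
    · intro hx
      exact ⟨e.symm ⟨x, hx⟩, by simp⟩
  · intro x hx
    exact ⟨e.symm ⟨x, Finset.mem_union_left _ hx⟩, by simp⟩

end Pool.Agent.Lib.H73H
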