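import Pool.Agent.Lib.H73H.Defs

set_option autoImplicit false

namespace Pool.Agent.Lib.H73H

open Classical Module Submodule

variable {V : Type} [AddCommGroup V] [Module ℚ V]

/-! B2: alternating forms and bases. -/

/-- a nonzero form does not vanish on a basis (`AlternatingMap.eq_smul_basis_det` or
`Basis.ext_alternating`) -/
theorem form_ne_zero {n : ℕ} {ω : V [⋀^Fin n]→ₗ[ℚ] ℚ} (hω : ω ≠ 0) {v : Fin n → V}
    (hv : LinearIndependent ℚ v) (hs : span ℚ (Set.range v) = ⊤) : ω v ≠ 0 := by
  intro h0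
  apply hω
  obtain ⟨b, hb⟩ : ∃ b : Basis (Fin n) ℚ V, (b : Fin n → V) = v :=
    ⟨Basis.mk hv hs.ge, Basis.coe_mk hv hs.ge⟩
  rw [AlternatingMap.eq_smul_basis_det b ω, hb, h0, zero_smul]

/-- Cramer: expand `x = ∑ c j • v j` at position `i`; the terms `j ≠ i` have two equal
arguments. -/
theorem cramer {n : ℕ} {ω : V [⋀^Fin n]→ₗ[ℚ] ℚ} (hω : ω ≠ 0) {v : Fin n → V}
    (hv : LinearIndependent ℚ v) (hs : span ℚ (Set.range v) = ⊤) (x : V) :
    x = ∑ i, (ω (Function.update v i x) / ω v) • v i := by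
  have h0 := form_ne_zero hω hv hs
  obtain ⟨b, hb⟩ : ∃ b : Basis (Fin n) ℚ V, (b : Fin n → V) = v :=
    ⟨Basis.mk hv hs.ge, Basis.coe_mk hv hs.ge⟩
  have hx : ∑ i, b.repr x i • v i = x := by
    rw [← hb]
    exact b.sum_repr x
  have hc : ∀ i, ω (Function.update v i x) = b.repr x i * ω v := by
    intro i
    have e : ω (Function.update v i x) = ω (Function.update v i (∑ j, b.repr x j • v j)) := by
      rw [hx]
    rw [e, AlternatingMap.map_update_sum, Finset.sum_eq_single i]
    · rw [AlternatingMap.map_update_smul, Function.update_eq_self, smul_eq_mul]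
    · intro j _ hj
      rw [AlternatingMap.map_update_smul, AlternatingMap.map_update_self _ _ (Ne.symm hj), smul_zero]
    · intro h
      exact absurd (Finset.mem_univ i) h
  have e2 : ∑ i, (ω (Function.update v i x) / ω v) • v i = ∑ i, b.repr x i • v i := by
    apply Finset.sum_congr rfl
    intro i _
    rw [hc, mul_div_assoc, div_self h0, mul_one]
  rw [e2, hx]

/-- if moreover `x ∈ span (v '' I)` and `i ∉ I`, then the coordinate `i` is zero -/
theorem cramer_zero {n : ℕ} {ω : V [⋀^Fin n]→ₗ[ℚ] ℚ} {v : Fin n → V} {I : Set (Fin n)}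
    {x : V} (hx : x ∈ span ℚ (v '' I)) {i : Fin n} (hi : i ∉ I) :
    ω (Function.update v i x) = 0 := by
  have h1 : span ℚ (v '' I) ≤ LinearMap.ker (ω.toMultilinearMap.toLinearMap v i) := by
    rw [span_le]
    rintro _ ⟨j, hj, rfl⟩
    have hij : i ≠ j := by
      intro h
      exact hi (h ▸ hj)
    exact AlternatingMap.map_update_self _ _ hij
  exact h1 hx

end Pool.Agent.Lib.H73H
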