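import Pool.Agent.Lib.H73H.B1
import Pool.Agent.Lib.H73H.B2

set_option autoImplicit false

namespace Pool.Agent.Lib.H73H

open Classical Module Submodule

variable {V : Type} [AddCommGroup V] [Module ℚ V]

/-! B3: a system satisfies `BdN`. -/

/-- Let `G₀ ⊆ G` be a basis of `span G` (`ind_basis`), `F₀ ⊆ F` with `G₀ ∪ F₀` independent,
disjoint, `F ⊆ span (G₀ ∪ F₀)` (`ind_extend`); `F₀.card ≤ c` by the dimension hypothesis. `v` =
basis of `V` in `S` containing `G₀ ∪ F₀` (`ext_basis`), `I₀` = the positions of the elements of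
`F₀`, `I₀.card ≤ c`. For `x ∈ F` and `i ∈ I₀` let `z x i ∈ [-Δ, Δ]` be the integer
`ω (update v i x)`. The map `x ↦ (z x i)_{i ∈ I₀}` is injective on `F`: if `x`, `y` have the same
values, then `x - y` has coordinates zero at `I₀` (`cramer`) and outside the positions of
`G₀ ∪ F₀` (`cramer_zero`), so `x - y ∈ span G₀ = span G`, so `x = y` (simple modulo `span G`,
`l = 1`). So `F.card ≤ (2 * Δ + 1) ^ I₀.card ≤ (2 * Δ + 1) ^ c`. -/
theorem bdN_of_sys {Δ n : ℕ} {S : Set V} (h : Sys Δ n S) (c : ℕ) :
    BdN ((2 * Δ + 1) ^ c) c S := by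
  haveI := h.fin
  obtain ⟨ω, hω0, hω⟩ := h.form
  intro G F hG hF hsimp hdim
  obtain ⟨G₀, hG₀, hG₀i, hG₀s⟩ := ind_basis G
  obtain ⟨F₀, hF₀, hdisj, hind, hspan⟩ := ind_extend (F := F) hG₀i
  have hsub : ((G₀ ∪ F₀ : Finset V) : Set V) ⊆ S := by
    intro x hx
    rcases Finset.mem_union.mp (Finset.mem_coe.mp hx) with h1 | h1
    · exact hG (hG₀ h1)
    · exact hF (hF₀ h1)
  have hFc : F₀.card ≤ c := by
    have h1 : span ℚ ((G₀ ∪ F₀ : Finset V) : Set V) ≤
        span ℚ ((G : Set V) ∪ (F : Set V)) := by
      apply span_mono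
      intro x hx
      rcases Finset.mem_union.mp (Finset.mem_coe.mp hx) with h1 | h1
      · exact Or.inl (hG₀ h1)
      · exact Or.inr (hF₀ h1)
    have h2 := Submodule.finrank_mono h1
    rw [hind.finrank_span, Finset.card_union_of_disjoint hdisj] at h2
    have h3 : finrank ℚ (span ℚ (G : Set V)) = G₀.card := by
      rw [← hG₀s, hG₀i.finrank_span]
    omega
  obtain ⟨v, hvS, hvi, hvs, hvG⟩ := ext_basis h hsub hind
  have hvinj : Function.Injective v := hvi.injective
  let I₀ : Finset (Fin n) := Finset.univ.filter (fun i => v i ∈ F₀)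
  have hI₀ : I₀.card ≤ c := by
    refine le_trans ?_ hFc
    apply Finset.card_le_card_of_injOn v
    · intro i hi
      exact (Finset.mem_filter.mp (Finset.mem_coe.mp hi)).2
    · exact hvinj.injOn
  have hz : ∀ x : V, ∀ i : Fin n, ∃ z : ℤ, x ∈ F → ω (Function.update v i x) = (z : ℚ) ∧
      |z| ≤ (Δ : ℤ) := by
    intro x i
    by_cases hx : x ∈ F
    · obtain ⟨z, hz⟩ := hω (Function.update v i x) (by
        intro j
        by_cases hj : j = i
        · rw [hj, Function.update_self]
          exact hF hx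
        · rw [Function.update_of_ne hj]
          exact hvS j)
      exact ⟨z, fun _ => hz⟩
    · exact ⟨0, fun hx' => absurd hx' hx⟩
  choose z hz using hz
  let f : V → (Fin n → ℤ) := fun x i => if i ∈ I₀ then z x i else 0
  let T : Finset (Fin n → ℤ) := Fintype.piFinset
    (fun i => if i ∈ I₀ then Finset.Icc (-(Δ : ℤ)) Δ else {0})
  have hT : T.card = (2 * Δ + 1) ^ I₀.card := by
    show (Fintype.piFinset (fun i : Fin n => if i ∈ I₀ then Finset.Icc (-(Δ : ℤ)) Δ else {0})).card
      = _
    rw [Fintype.card_piFinset]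
    have h1 : ∀ i : Fin n, (if i ∈ I₀ then Finset.Icc (-(Δ : ℤ)) Δ else {0}).card =
        if i ∈ I₀ then (2 * Δ + 1) else 1 := by
      intro i
      by_cases hi : i ∈ I₀
      · rw [if_pos hi, if_pos hi, Int.card_Icc]
        omega
      · rw [if_neg hi, if_neg hi, Finset.card_singleton]
    rw [Finset.prod_congr rfl fun i _ => h1 i]
    rw [Finset.prod_ite, Finset.prod_const, Finset.prod_const_one, mul_one]
    apply congrArg
    apply congrArg
    ext i
    simp
  have hcardF : F.card ≤ T.card := by
    apply Finset.card_le_card_of_injOn f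
    · intro x hx
      show f x ∈ T
      rw [Fintype.mem_piFinset]
      intro i
      show (if i ∈ I₀ then z x i else 0) ∈ (if i ∈ I₀ then Finset.Icc (-(Δ : ℤ)) Δ else {0})
      by_cases hi : i ∈ I₀
      · rw [if_pos hi, if_pos hi, Finset.mem_Icc]
        have := (hz x i (Finset.mem_coe.mp hx)).2
        exact abs_le.mp this
      · rw [if_neg hi, if_neg hi]
        exact Finset.mem_singleton_self 0
    · intro x hx y hy hxy
      by_contra hne
      have hxF := Finset.mem_coe.mp hx
      have hyF := Finset.mem_coe.mp hy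
      apply hsimp.2 x hxF y hyF hne 1
      rw [one_smul, cramer hω0 hvi hvs (y - x)]
      apply Submodule.sum_mem
      intro i _
      have hxs : y - x ∈ span ℚ (v '' {i | v i ∈ G₀ ∪ F₀}) := by
        have h1 : ((G₀ ∪ F₀ : Finset V) : Set V) ⊆ v '' {i | v i ∈ G₀ ∪ F₀} := by
          intro w hw
          obtain ⟨j, hj⟩ := hvG w (Finset.mem_coe.mp hw)
          refine ⟨j, ?_, hj⟩
          show v j ∈ G₀ ∪ F₀
          rw [hj]
          exact Finset.mem_coe.mp hw
        exact Submodule.sub_mem _ (span_mono h1 (hspan hyF)) (span_mono h1 (hspan hxF))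
      by_cases hi : v i ∈ G₀ ∪ F₀
      · rcases Finset.mem_union.mp hi with hi | hi
        · apply Submodule.smul_mem
          rw [← hG₀s]
          exact subset_span hi
        · have hiI : i ∈ I₀ := Finset.mem_filter.mpr ⟨Finset.mem_univ i, hi⟩
          have h2 : z x i = z y i := by
            have h3 := congrFun hxy i
            have h4 : (if i ∈ I₀ then z x i else 0) = (if i ∈ I₀ then z y i else 0) := h3
            rwa [if_pos hiI, if_pos hiI] at h4
          have h5 : ω (Function.update v i (y - x)) = 0 := by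
            rw [AlternatingMap.map_update_sub, (hz x i hxF).1, (hz y i hyF).1, h2, sub_self]
          rw [h5, zero_div, zero_smul]
          exact Submodule.zero_mem _
      · have h5 : ω (Function.update v i (y - x)) = 0 := cramer_zero hxs hi
        rw [h5, zero_div, zero_smul]
        exact Submodule.zero_mem _
  rw [hT] at hcardF
  exact hcardF.trans (Nat.pow_le_pow_right (by omega) hI₀)

end Pool.Agent.Lib.H73H
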