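import Pool.Agent.Lib.H73H.Defs

set_option autoImplicit false

namespace Pool.Agent.Lib.H73H

open Classical Module Submodule

variable {V : Type} [AddCommGroup V] [Module ℚ V]

/-! C1: counting lemmas for integers. Each by induction on `J` for the sharper statement. -/

theorem c1_int {z : ℤ} {q : ℚ} (h : q = (z : ℚ)) (h0 : q ≠ 0) : 1 ≤ |q| := by
  have hz : z ≠ 0 := by
    intro hz
    apply h0
    rw [h, hz, Int.cast_zero]
  rw [h, ← Int.cast_abs]
  exact_mod_cast Int.one_le_abs hz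

theorem c1_step {z z' : ℤ} {q q' : ℚ} (h : q = (z : ℚ)) (h' : q' = (z' : ℚ)) (hlt : |q| < |q'|) :
    |q| + 1 ≤ |q'| := by
  rw [h, h', ← Int.cast_abs, ← Int.cast_abs] at hlt ⊢
  have h1 : |z| < |z'| := by exact_mod_cast hlt
  exact_mod_cast h1

/-- `|a * ∏ j ∈ J, l j| ≥ 1 + J.card` by induction (a nonzero integer `z` and a nonzero integer
`z' = z * l` with `|l| > 1` satisfy `|z'| ≥ |z| + 1`) -/
theorem c_grow {ι : Type*} {Δ : ℕ} {J : Finset ι} {a : ℚ} {l : ι → ℚ}
    (ha : a ≠ 0) (hint : ∀ J' ⊆ J, ∃ z : ℤ, a * ∏ j ∈ J', l j = (z : ℚ) ∧ |z| ≤ (Δ : ℤ))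
    (hl : ∀ j ∈ J, 1 < |l j|) : J.card ≤ Δ := by
  have key : ∀ J' : Finset ι, J' ⊆ J → a * ∏ j ∈ J', l j ≠ 0 ∧ 1 + (J'.card : ℚ) ≤ |a * ∏ j ∈ J', l j| := by
    intro J'
    induction J' using Finset.induction_on with
    | empty =>
      intro _
      rw [Finset.prod_empty, mul_one, Finset.card_empty, Nat.cast_zero, add_zero]
      obtain ⟨z, hz, -⟩ := hint ∅ (Finset.empty_subset _)
      rw [Finset.prod_empty, mul_one] at hz
      exact ⟨ha, c1_int hz ha⟩
    | insert j J' hj ih =>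
      intro hs
      obtain ⟨h0, h1⟩ := ih (fun x hx => hs (Finset.mem_insert_of_mem hx))
      have hlj := hl j (hs (Finset.mem_insert_self _ _))
      obtain ⟨z, hz, -⟩ := hint J' (fun x hx => hs (Finset.mem_insert_of_mem hx))
      obtain ⟨z', hz', -⟩ := hint (insert j J') hs
      have e : a * ∏ x ∈ insert j J', l x = (a * ∏ x ∈ J', l x) * l j := by
        rw [Finset.prod_insert hj]
        ring
      have hlj0 : l j ≠ 0 := by
        intro h
        rw [h, abs_zero] at hlj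
        linarith
      have hlt : |a * ∏ x ∈ J', l x| < |a * ∏ x ∈ insert j J', l x| := by
        rw [e, abs_mul _ (l j)]
        exact lt_mul_of_one_lt_right (abs_pos.mpr h0) hlj
      have h2 := c1_step hz hz' hlt
      refine ⟨?_, ?_⟩
      · rw [e]
        exact mul_ne_zero h0 hlj0
      · rw [Finset.card_insert_of_notMem hj]
        push_cast
        linarith
  obtain ⟨-, h1⟩ := key J (Finset.Subset.refl _)
  obtain ⟨z, hz, hz2⟩ := hint J (Finset.Subset.refl _)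
  rw [hz, ← Int.cast_abs] at h1
  have h2 : ((|z| : ℤ) : ℚ) ≤ (Δ : ℚ) := by exact_mod_cast hz2
  have h3 : (J.card : ℚ) ≤ (Δ : ℚ) := by linarith
  exact_mod_cast h3

/-- `|a * ∏ j ∈ J, l j| ≤ Δ - J.card` by induction -/
theorem c_shrink {ι : Type*} {Δ : ℕ} {J : Finset ι} {a : ℚ} {l : ι → ℚ}
    (ha : a ≠ 0) (hint : ∀ J' ⊆ J, ∃ z : ℤ, a * ∏ j ∈ J', l j = (z : ℚ) ∧ |z| ≤ (Δ : ℤ))
    (hl : ∀ j ∈ J, l j ≠ 0 ∧ |l j| < 1) : J.card ≤ Δ := by
  have key : ∀ J' : Finset ι, J' ⊆ J → a * ∏ j ∈ J', l j ≠ 0 ∧ |a * ∏ j ∈ J', l j| + (J'.card : ℚ) ≤ Δ := by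
    intro J'
    induction J' using Finset.induction_on with
    | empty =>
      intro _
      obtain ⟨z, hz, hz2⟩ := hint ∅ (Finset.empty_subset _)
      rw [Finset.card_empty, Nat.cast_zero, add_zero]
      rw [hz, ← Int.cast_abs]
      refine ⟨?_, by exact_mod_cast hz2⟩
      rw [Finset.prod_empty, mul_one] at hz
      rw [← hz]
      exact ha
    | insert j J' hj ih =>
      intro hs
      obtain ⟨h0, h1⟩ := ih (fun x hx => hs (Finset.mem_insert_of_mem hx))
      obtain ⟨hlj0, hlj⟩ := hl j (hs (Finset.mem_insert_self _ _))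
      obtain ⟨z, hz, -⟩ := hint J' (fun x hx => hs (Finset.mem_insert_of_mem hx))
      obtain ⟨z', hz', -⟩ := hint (insert j J') hs
      have e : a * ∏ x ∈ insert j J', l x = (a * ∏ x ∈ J', l x) * l j := by
        rw [Finset.prod_insert hj]
        ring
      have hlt : |a * ∏ x ∈ insert j J', l x| < |a * ∏ x ∈ J', l x| := by
        rw [e, abs_mul _ (l j)]
        exact mul_lt_of_lt_one_right (abs_pos.mpr h0) hlj
      have h2 := c1_step hz' hz hlt
      refine ⟨?_, ?_⟩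
      · rw [e]
        exact mul_ne_zero h0 hlj0
      · rw [Finset.card_insert_of_notMem hj]
        push_cast
        linarith
  obtain ⟨-, h1⟩ := key J (Finset.Subset.refl _)
  have h3 : (J.card : ℚ) ≤ (Δ : ℚ) := by linarith [abs_nonneg (a * ∏ j ∈ J, l j)]
  exact_mod_cast h3

/-- `d j` is an integer (difference for `J' = {j}` and `J' = ∅`), nonzero; take `J'` = the `j` with
`d j > 0` and `J'` = the `j` with `d j < 0`: the two values differ by `∑ j ∈ J, |d j| ≥ J.card`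
and by at most `2 * Δ`. -/
theorem c_add {ι : Type*} {Δ : ℕ} {J : Finset ι} {a : ℚ} {d : ι → ℚ}
    (hint : ∀ J' ⊆ J, ∃ z : ℤ, a + ∑ j ∈ J', d j = (z : ℚ) ∧ |z| ≤ (Δ : ℤ))
    (hd : ∀ j ∈ J, d j ≠ 0) : J.card ≤ 2 * Δ := by
  have h1 : ∀ j ∈ J, 1 ≤ |d j| := by
    intro j hj
    obtain ⟨z, hz, -⟩ := hint ∅ (Finset.empty_subset _)
    obtain ⟨z', hz', -⟩ := hint {j} (Finset.singleton_subset_iff.mpr hj)
    rw [Finset.sum_empty, add_zero] at hz
    rw [Finset.sum_singleton] at hz'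
    apply c1_int (z := z' - z) _ (hd j hj)
    push_cast
    linarith
  obtain ⟨z, hz, hz2⟩ := hint (J.filter (fun j => 0 < d j)) (Finset.filter_subset _ _)
  obtain ⟨z', hz', hz2'⟩ := hint (J.filter (fun j => ¬ 0 < d j)) (Finset.filter_subset _ _)
  have h2 : ∑ j ∈ J, |d j| = ∑ j ∈ J.filter (fun j => 0 < d j), d j - ∑ j ∈ J.filter (fun j => ¬ 0 < d j), d j := by
    rw [← Finset.sum_filter_add_sum_filter_not J (fun j => 0 < d j) (fun j => |d j|), sub_eq_add_neg,
      ← Finset.sum_neg_distrib]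
    have e1 : ∑ j ∈ J.filter (fun j => 0 < d j), |d j| = ∑ j ∈ J.filter (fun j => 0 < d j), d j := by
      apply Finset.sum_congr rfl
      intro j hj
      exact abs_of_pos (Finset.mem_filter.mp hj).2
    have e2 : ∑ j ∈ J.filter (fun j => ¬ 0 < d j), |d j| = ∑ j ∈ J.filter (fun j => ¬ 0 < d j), -d j := by
      apply Finset.sum_congr rfl
      intro j hj
      exact abs_of_nonpos (not_lt.mp (Finset.mem_filter.mp hj).2)
    rw [e1, e2]
  have h3 : (J.card : ℚ) ≤ ∑ j ∈ J, |d j| := by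
    have h4 := Finset.card_nsmul_le_sum J (fun j => |d j|) 1 h1
    rw [nsmul_eq_mul, mul_one] at h4
    exact h4
  have h5 := abs_le.mp hz2
  have h6 := abs_le.mp hz2'
  have h7 : ((z : ℤ) : ℚ) - z' ≤ 2 * (Δ : ℚ) := by
    have h8 : z - z' ≤ 2 * (Δ : ℤ) := by linarith
    exact_mod_cast h8
  have h9 : (J.card : ℚ) ≤ 2 * (Δ : ℚ) := by linarith
  exact_mod_cast h9

end Pool.Agent.Lib.H73H
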