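import Pool.Agent.Lib.H73H.Defs

set_option autoImplicit false

namespace Pool.Agent.Lib.H73H

open Classical Module Submodule

variable {V : Type} [AddCommGroup V] [Module ℚ V]

/-! C2: expansions of an alternating form when some entries `v j` are replaced by
`v' j = l j • v j + θ j • b`. -/

variable {ι : Type*} [Fintype ι] [DecidableEq ι]

/-- Induction on `J`: replacing `v j` by `l j • v j + θ j • b` in a tuple which already has `b` at
the position `i0 ≠ j` multiplies the value by `l j` (`AlternatingMap.map_update_add`,
`map_update_smul`, `map_eq_zero_of_eq`). -/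
theorem c2_mul (ω : V [⋀^ι]→ₗ[ℚ] ℚ) (v v' : ι → V) (b : V) (l θ : ι → ℚ) (J : Finset ι)
    (hJ : ∀ j ∈ J, v' j = l j • v j + θ j • b) (i0 : ι) (hi0 : i0 ∉ J) :
    ω (Function.update (fun i => if i ∈ J then v' i else v i) i0 b) =
      (∏ j ∈ J, l j) * ω (Function.update v i0 b) := by
  induction J using Finset.induction_on with
  | empty => simp
  | insert j J hj ih =>
    have hJ' : ∀ j ∈ J, v' j = l j • v j + θ j • b := fun i hi =>
      hJ i (Finset.mem_insert_of_mem hi)
    have hi0' : i0 ∉ J := fun h => hi0 (Finset.mem_insert_of_mem h)
    have hne : j ≠ i0 := by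
      rintro rfl
      exact hi0 (Finset.mem_insert_self _ _)
    have ih' := ih hJ' hi0'
    set w := Function.update (fun i => if i ∈ J then v' i else v i) i0 b with hw
    have e1 : Function.update (fun i => if i ∈ insert j J then v' i else v i) i0 b
        = Function.update w j (l j • v j + θ j • b) := by
      funext i
      by_cases hi : i = j
      · subst hi
        rw [Function.update_self, Function.update_of_ne hne, if_pos (Finset.mem_insert_self _ _)]
        exact hJ i (Finset.mem_insert_self _ _)
      · rw [Function.update_of_ne hi, hw]
        by_cases hi' : i = i0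
        · subst hi'
          rw [Function.update_self, Function.update_self]
        · rw [Function.update_of_ne hi', Function.update_of_ne hi']
          simp only [Finset.mem_insert, hi, false_or]
    have e0 : w j = v j := by
      rw [hw, Function.update_of_ne hne, if_neg hj]
    have e2 : Function.update w j (v j) = w := by
      rw [← e0]
      exact Function.update_eq_self j w
    have e3 : ω (Function.update w j b) = 0 := by
      refine ω.map_eq_zero_of_eq _ (i := j) (j := i0) ?_ hne
      rw [Function.update_self, Function.update_of_ne hne.symm, hw, Function.update_self]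
    rw [e1, ω.map_update_add, ω.map_update_smul, ω.map_update_smul, e2, e3, ih',
      Finset.prod_insert hj]
    simp only [smul_eq_mul]
    ring

/-- Induction on `J`: for `i ∉ J`, the tuple for `insert i J` is the tuple `w` for `J` updated at
`i` by `l i • v i + θ i • b`, and `w i = v i`, so the value is
`l i * ω w + θ i * ω (update w i b)`, and `ω (update w i b)` is given by `c2_mul`. -/
theorem c2_add (ω : V [⋀^ι]→ₗ[ℚ] ℚ) (v v' : ι → V) (b : V) (l θ : ι → ℚ) (J : Finset ι)
    (hl : ∀ j ∈ J, l j ≠ 0) (hJ : ∀ j ∈ J, v' j = l j • v j + θ j • b) :
    ω (fun i => if i ∈ J then v' i else v i) =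
      (∏ j ∈ J, l j) * (ω v + ∑ i ∈ J, θ i / l i * ω (Function.update v i b)) := by
  induction J using Finset.induction_on with
  | empty => simp
  | insert j J hj ih =>
    have hJ' : ∀ j ∈ J, v' j = l j • v j + θ j • b := fun i hi =>
      hJ i (Finset.mem_insert_of_mem hi)
    have ih' := ih (fun i hi => hl i (Finset.mem_insert_of_mem hi)) hJ'
    have hm := c2_mul ω v v' b l θ J hJ' j hj
    set w : ι → V := fun i => if i ∈ J then v' i else v i with hw
    have e1 : (fun i => if i ∈ insert j J then v' i else v i)
        = Function.update w j (l j • v j + θ j • b) := by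
      funext i
      by_cases hi : i = j
      · subst hi
        rw [Function.update_self, if_pos (Finset.mem_insert_self _ _)]
        exact hJ i (Finset.mem_insert_self _ _)
      · rw [Function.update_of_ne hi, hw]
        simp only [Finset.mem_insert, hi, false_or]
    have e0 : w j = v j := by
      rw [hw]
      exact if_neg hj
    have e2 : Function.update w j (v j) = w := by
      rw [← e0]
      exact Function.update_eq_self j w
    have hlj := hl j (Finset.mem_insert_self _ _)
    rw [e1, ω.map_update_add, ω.map_update_smul, ω.map_update_smul, e2, ih', hm,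
      Finset.prod_insert hj, Finset.sum_insert hj]
    simp only [smul_eq_mul]
    field_simp
    ring

/-- For `i = i0` clear. Else: in `ω (update v i b)` multiply the entry `v i0` by `ν i0` and insert
`ν i0 • v i0 = β • b - ∑ j ∈ P.erase i0, ν j • v j`; all terms vanish except `j = i`, which gives
`- ν i * ω (update (update v i b) i0 (v i))`, and this tuple is the tuple `update v i0 b` with the
entries `i`, `i0` exchanged (`AlternatingMap.map_swap`). -/
theorem c2_rel (ω : V [⋀^ι]→ₗ[ℚ] ℚ) (v : ι → V) (b : V) {P : Finset ι} {ν : ι → ℚ} {β : ℚ}
    (hrel : ∑ i ∈ P, ν i • v i = β • b) {i0 i : ι} (hi0 : i0 ∈ P) (hi : i ∈ P) :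
    ν i0 * ω (Function.update v i b) = ν i * ω (Function.update v i0 b) := by
  by_cases hii : i = i0
  · subst hii
    rfl
  -- use the linear map x ↦ ω (update (update v i b) i0 x)
  set w := Function.update v i b with hw
  set g : V →ₗ[ℚ] ℚ := ω.toMultilinearMap.toLinearMap w i0 with hg
  have hgx : ∀ x, g x = ω (Function.update w i0 x) := fun x => rfl
  have hb : g b = 0 := by
    rw [hgx]
    refine ω.map_eq_zero_of_eq _ (i := i) (j := i0) ?_ hii
    rw [Function.update_self, Function.update_of_ne hii, hw, Function.update_self]
  have h0 : g (∑ j ∈ P, ν j • v j) = 0 := by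
    rw [hrel, map_smul, hb, smul_zero]
  rw [map_sum] at h0
  have hz : ∀ j ∈ P, j ≠ i → j ≠ i0 → g (v j) = 0 := by
    intro j _ hji hji0
    rw [hgx]
    refine ω.map_eq_zero_of_eq _ (i := j) (j := i0) ?_ hji0
    rw [Function.update_self, Function.update_of_ne hji0, hw, Function.update_of_ne hji]
  have hself : g (v i0) = ω w := by
    rw [hgx]
    have : w i0 = v i0 := by
      rw [hw, Function.update_of_ne (Ne.symm hii)]
    rw [← this, Function.update_eq_self]
  have hsw : g (v i) = - ω (Function.update v i0 b) := by
    rw [hgx]
    have e : Function.update w i0 (v i) = (Function.update v i0 b) ∘ (Equiv.swap i i0) := by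
      funext k
      by_cases h1 : k = i0
      · subst h1
        rw [Function.update_self, Function.comp_apply, Equiv.swap_apply_right,
          Function.update_of_ne hii]
      · rw [Function.update_of_ne h1]
        by_cases h2 : k = i
        · subst h2
          rw [Function.comp_apply, Equiv.swap_apply_left, Function.update_self, hw,
            Function.update_self]
        · rw [Function.comp_apply, Equiv.swap_apply_of_ne_of_ne h2 h1, hw,
            Function.update_of_ne h2, Function.update_of_ne h1]
    rw [e, ω.map_swap _ hii]
  have hsum : ∑ j ∈ P, g (ν j • v j) = ν i0 * g (v i0) + ν i * g (v i) := by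
    have h2 : ∑ j ∈ P, g (ν j • v j) = ∑ j ∈ ({i0, i} : Finset ι), g (ν j • v j) := by
      symm
      apply Finset.sum_subset
      · intro j hj
        simp only [Finset.mem_insert, Finset.mem_singleton] at hj
        rcases hj with rfl | rfl <;> assumption
      · intro j hj hj'
        simp only [Finset.mem_insert, Finset.mem_singleton, not_or] at hj'
        rw [map_smul, hz j hj hj'.2 hj'.1, smul_zero]
    rw [h2, Finset.sum_pair (Ne.symm hii), map_smul, map_smul, smul_eq_mul, smul_eq_mul]
  rw [hsum, hself, hsw] at h0
  linarith

end Pool.Agent.Lib.H73H
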