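import Pool.Agent.Lib.H73H.C1
import Pool.Agent.Lib.H73H.C2

set_option autoImplicit false

namespace Pool.Agent.Lib.H73H

open Classical Module Submodule

variable {V : Type} [AddCommGroup V] [Module ℚ V]

/-! C3: Lemma C. -/

/-- `a i = ω (update v i b)`; `a i ≠ 0` for all `i ∈ P` (`c2_rel`). Let `J₁` = the
`j ∈ P.erase i0` with `|l j| > 1`, `J₂` = those with `|l j| < 1`, `J₃` = the `j ∈ P` with
`|l j| = 1`. `J₁.card ≤ Δ` and `J₂.card ≤ Δ` by `c_grow`, `c_shrink` with `a = a i0` and `c2_mul`.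
`J₃.card ≤ 2 * Δ` by `c_add` with `a = ω v`, `d j = θ j / l j * a j`: by `c2_add`,
`ω (v^J') = (∏ l j) * (ω v + ∑ d j)` with `∏ l j = 1` or `-1`. `P ⊆ {i0} ∪ J₁ ∪ J₂ ∪ J₃`. -/
theorem lemC {ι : Type*} [Fintype ι] [DecidableEq ι] {Δ : ℕ} {S : Set V}
    (ω : V [⋀^ι]→ₗ[ℚ] ℚ)
    (hω : ∀ v : ι → V, (∀ i, v i ∈ S) → ∃ z : ℤ, ω v = (z : ℚ) ∧ |z| ≤ (Δ : ℤ))
    {v v' : ι → V} {b : V} (hb : b ∈ S) (hv : ∀ i, v i ∈ S) {P : Finset ι}
    (hv' : ∀ i ∈ P, v' i ∈ S) {l θ : ι → ℚ} (hl : ∀ i ∈ P, l i ≠ 0) (hθ : ∀ i ∈ P, θ i ≠ 0)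
    (he : ∀ i ∈ P, v' i = l i • v i + θ i • b) {ν : ι → ℚ} {β : ℚ} (hν : ∀ i ∈ P, ν i ≠ 0)
    (hrel : ∑ i ∈ P, ν i • v i = β • b) {i0 : ι} (hi0 : i0 ∈ P)
    (hne : ω (Function.update v i0 b) ≠ 0) : P.card ≤ 1 + 4 * Δ := by
  have ha : ∀ i ∈ P, ω (Function.update v i b) ≠ 0 := by
    intro i hi h0
    have h1 := c2_rel ω v b hrel hi0 hi
    rw [h0, mul_zero] at h1
    exact mul_ne_zero (hν i hi) hne h1.symm
  have hint : ∀ J' ⊆ P.erase i0, ∃ z : ℤ,
      ω (Function.update v i0 b) * ∏ j ∈ J', l j = (z : ℚ) ∧ |z| ≤ (Δ : ℤ) := by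
    intro J' hJ'
    have hi0' : i0 ∉ J' := fun h => (Finset.mem_erase.mp (hJ' h)).1 rfl
    have hJP : ∀ j ∈ J', j ∈ P := fun j hj => (Finset.mem_erase.mp (hJ' hj)).2
    obtain ⟨z, hz, hz'⟩ :=
      hω (Function.update (fun i => if i ∈ J' then v' i else v i) i0 b) (by
        intro i
        by_cases hi : i = i0
        · subst hi
          rw [Function.update_self]
          exact hb
        · rw [Function.update_of_ne hi]
          show (if i ∈ J' then v' i else v i) ∈ S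
          split_ifs with h
          · exact hv' i (hJP i h)
          · exact hv i)
    refine ⟨z, ?_, hz'⟩
    rw [← hz, c2_mul ω v v' b l θ J' (fun j hj => he j (hJP j hj)) i0 hi0']
    ring
  set J₁ := (P.erase i0).filter (fun j => 1 < |l j|) with hJ₁
  set J₂ := (P.erase i0).filter (fun j => |l j| < 1) with hJ₂
  set J₃ := P.filter (fun j => |l j| = 1) with hJ₃
  have h1 : J₁.card ≤ Δ := by
    refine c_grow hne (fun J' hJ' => hint J' (hJ'.trans (Finset.filter_subset _ _))) ?_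
    intro j hj
    exact (Finset.mem_filter.mp hj).2
  have h2 : J₂.card ≤ Δ := by
    refine c_shrink hne (fun J' hJ' => hint J' (hJ'.trans (Finset.filter_subset _ _))) ?_
    intro j hj
    exact ⟨hl j (Finset.mem_erase.mp (Finset.mem_filter.mp hj).1).2, (Finset.mem_filter.mp hj).2⟩
  have h3 : J₃.card ≤ 2 * Δ := by
    refine c_add (a := ω v) (d := fun j => θ j / l j * ω (Function.update v j b)) ?_ ?_
    · intro J' hJ'
      have hJP : ∀ j ∈ J', j ∈ P := fun j hj => (Finset.mem_filter.mp (hJ' hj)).1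
      obtain ⟨z, hz, hz'⟩ := hω (fun i => if i ∈ J' then v' i else v i) (by
        intro i
        show (if i ∈ J' then v' i else v i) ∈ S
        split_ifs with h
        · exact hv' i (hJP i h)
        · exact hv i)
      rw [c2_add ω v v' b l θ J' (fun j hj => hl j (hJP j hj))
        (fun j hj => he j (hJP j hj))] at hz
      have habs : |∏ j ∈ J', l j| = 1 := by
        rw [Finset.abs_prod]
        exact Finset.prod_eq_one (fun j hj => (Finset.mem_filter.mp (hJ' hj)).2)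
      rcases (abs_eq (zero_le_one (α := ℚ))).mp habs with h | h
      · rw [h, one_mul] at hz
        exact ⟨z, hz, hz'⟩
      · refine ⟨-z, ?_, by rwa [abs_neg]⟩
        rw [h] at hz
        push_cast
        linarith
    · intro j hj
      have hjP := (Finset.mem_filter.mp hj).1
      exact mul_ne_zero (div_ne_zero (hθ j hjP) (hl j hjP)) (ha j hjP)
  have hcov : P ⊆ insert i0 (J₁ ∪ (J₂ ∪ J₃)) := by
    intro j hj
    by_cases hj0 : j = i0
    · exact Finset.mem_insert.mpr (Or.inl hj0)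
    · refine Finset.mem_insert_of_mem ?_
      have hje : j ∈ P.erase i0 := Finset.mem_erase.mpr ⟨hj0, hj⟩
      rcases lt_trichotomy (|l j|) 1 with h | h | h
      · exact Finset.mem_union_right _ (Finset.mem_union_left _ (Finset.mem_filter.mpr ⟨hje, h⟩))
      · exact Finset.mem_union_right _ (Finset.mem_union_right _ (Finset.mem_filter.mpr ⟨hj, h⟩))
      · exact Finset.mem_union_left _ (Finset.mem_filter.mpr ⟨hje, h⟩)
  have c1 := Finset.card_le_card hcov
  have c2 := Finset.card_insert_le i0 (J₁ ∪ (J₂ ∪ J₃))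
  have c3 := Finset.card_union_le J₁ (J₂ ∪ J₃)
  have c4 := Finset.card_union_le J₂ J₃
  omega

end Pool.Agent.Lib.H73H
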