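import Mathlib

set_option autoImplicit false

/-! H73H (MP_c07b9b_co): definitions for Theorem N. -/

namespace Pool.Agent.Lib.H73H

open Classical Module Submodule

variable {V : Type} [AddCommGroup V] [Module ℚ V]

/-- a finite set is linearly independent -/
def Ind (K : Finset V) : Prop :=
  ∀ μ : V → ℚ, ∑ x ∈ K, μ x • x = 0 → ∀ x ∈ K, μ x = 0

/-- a finite set is linearly independent modulo `U` -/
def IndMod (U : Submodule ℚ V) (K : Finset V) : Prop :=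
  ∀ μ : V → ℚ, ∑ x ∈ K, μ x • x ∈ U → ∀ x ∈ K, μ x = 0

/-- circuit: there is a relation with nonzero coefficients only, and every relation is a
multiple of it -/
def IsCirc (K : Finset V) : Prop :=
  K.Nonempty ∧ ∃ κ : V → ℚ, (∀ x ∈ K, κ x ≠ 0) ∧ ∑ x ∈ K, κ x • x = 0 ∧
    ∀ μ : V → ℚ, ∑ x ∈ K, μ x • x = 0 → ∃ θ : ℚ, ∀ x ∈ K, μ x = θ * κ x

/-- circuit modulo `U` -/
def CircMod (U : Submodule ℚ V) (K : Finset V) : Prop :=
  K.Nonempty ∧ ∃ κ : V → ℚ, (∀ x ∈ K, κ x ≠ 0) ∧ ∑ x ∈ K, κ x • x ∈ U ∧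
    ∀ μ : V → ℚ, ∑ x ∈ K, μ x • x ∈ U → ∃ θ : ℚ, ∀ x ∈ K, μ x = θ * κ x

/-- no element in `U`, different elements are not parallel modulo `U` -/
def SimpleMod (U : Submodule ℚ V) (E : Finset V) : Prop :=
  (∀ x ∈ E, x ∉ U) ∧ ∀ x ∈ E, ∀ y ∈ E, x ≠ y → ∀ l : ℚ, y - l • x ∉ U

/-- at most `N` elements of `S`, pairwise not parallel modulo a subspace spanned by elements of
`S`, span a subspace of dimension at most `c` modulo this subspace -/
def BdN (N c : ℕ) (S : Set V) : Prop :=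
  ∀ G F : Finset V, (G : Set V) ⊆ S → (F : Set V) ⊆ S → SimpleMod (span ℚ (G : Set V)) F →
    finrank ℚ (span ℚ ((G : Set V) ∪ (F : Set V))) ≤ finrank ℚ (span ℚ (G : Set V)) + c →
    F.card ≤ N

/-- a set `S` spanning a space of dimension `n`, with a nonzero determinant form which is
integer valued and bounded by `Δ` on `S` -/
structure Sys (Δ n : ℕ) (S : Set V) : Prop where
  fin : Module.Finite ℚ V
  rank : finrank ℚ V = n
  span : Submodule.span ℚ S = ⊤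
  form : ∃ ω : V [⋀^Fin n]→ₗ[ℚ] ℚ, ω ≠ 0 ∧
    ∀ v : Fin n → V, (∀ i, v i ∈ S) → ∃ z : ℤ, ω v = (z : ℚ) ∧ |z| ≤ (Δ : ℤ)

/-- parallel elements modulo at most `k` elements of `S` have ratio `1` or `-1` -/
def Unif (k : ℕ) (S : Set V) : Prop :=
  ∀ G : Finset V, (G : Set V) ⊆ S → G.card ≤ k → ∀ x ∈ S, ∀ y ∈ S,
    x ∉ Submodule.span ℚ (G : Set V) → ∀ l : ℚ, l ≠ 0 →
    y - l • x ∈ Submodule.span ℚ (G : Set V) → |l| = 1

/-- image of a finite set in the quotient -/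
noncomputable def img (U : Submodule ℚ V) (R : Finset V) : Finset (V ⧸ U) := R.image U.mkQ

lemma mem_img {U : Submodule ℚ V} {R : Finset V} {y : V ⧸ U} :
    y ∈ img U R ↔ ∃ x ∈ R, U.mkQ x = y := by
  unfold img
  exact Finset.mem_image

lemma coe_img {U : Submodule ℚ V} {R : Finset V} :
    ((img U R : Finset (V ⧸ U)) : Set (V ⧸ U)) = U.mkQ '' (R : Set V) := by
  unfold img
  exact Finset.coe_image

/-- hypotheses of Lemma L -/
structure LHyp (N c c₀ : ℕ) (E : Finset V) : Prop where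
  simple : SimpleMod ⊥ E
  bd : BdN N c₀ (E : Set V)
  circ : ∀ K ⊆ E, IsCirc K → K.card ≤ c

/-- `r` has a partner in `S` which is parallel to `r` modulo `b` but not parallel to `r` -/
def Doubled (b : V) (S : Set V) (r : V) : Prop :=
  ∃ r' ∈ S, ∃ l θ : ℚ, l ≠ 0 ∧ θ ≠ 0 ∧ r' = l • r + θ • b

/-- the constant of the cost lemma -/
def C1 (Δ : ℕ) : ℕ := 1 + (2 * Δ + 1) ^ 2 * ((2 * Δ + 1) ^ (1 + 4 * Δ)) ^ (1 + 4 * Δ)

/-- the constant of Theorem N -/
def CN : ℕ → ℕ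
  | 0 => 0
  | Δ + 1 => CN Δ + (1 + 4 * (Δ + 1) + 1) * C1 (Δ + 1)

/-- statement of Theorem N for a given bound -/
def ThmN (Δ : ℕ) : Prop :=
  ∀ (n : ℕ) (V : Type) [AddCommGroup V] [Module ℚ V] (S : Set V), Sys Δ n S →
    ∀ E : Finset V, (E : Set V) ⊆ S → SimpleMod ⊥ E → 2 * E.card ≤ n * (n + 1) + 2 * CN Δ * n

end Pool.Agent.Lib.H73H
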