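import Pool.Agent.Lib.H73H.S7

set_option autoImplicit false

namespace Pool.Agent.Lib.H73H

open Classical HellerS

/-! S8: sign changes. -/

variable {ι : Type*}

/-- multiplying rows by signs multiplies minors by signs -/
theorem ts_sign {M : Finset (ι → ℝ)} (hTS : TS (M : Set (ι → ℝ))) {e : ι → ℝ}
    (he : ∀ r, e r = 1 ∨ e r = -1) :
    TS ((M.image (fun c r => e r * c r) : Finset (ι → ℝ)) : Set (ι → ℝ)) := by
  intro n f c hc
  have h1 : ∀ j, ∃ d ∈ M, (fun r => e r * d r) = c j := by
    intro j
    have := hc j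
    rw [Finset.mem_coe, Finset.mem_image] at this
    exact this
  choose d hd hdc using h1
  have h2 : (Matrix.of fun i j => c j (f i)) =
      Matrix.of fun i j => e (f i) * (Matrix.of fun i j => d j (f i)) i j := by
    ext i j
    rw [Matrix.of_apply, Matrix.of_apply, Matrix.of_apply, ← hdc j]
  rw [h2, Matrix.det_mul_column, abs_mul, Finset.abs_prod]
  have h3 : ∏ i, |e (f i)| = 1 := by
    apply Finset.prod_eq_one
    intro i _
    rcases he (f i) with h | h <;> rw [h] <;> simp
  rw [h3, one_mul]
  exact hTS n f d (fun j => Finset.mem_coe.2 (hd j))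

theorem s8_ex {M : Finset (ι → ℝ)} (hTS : TS (M : Set (ι → ℝ))) {e : ι → ℝ}
    (he : ∀ r, e r = 1 ∨ e r = -1) :
    ∃ M' : Finset (ι → ℝ), TS (M' : Set (ι → ℝ)) ∧
      (∀ c ∈ M', ∃ d ∈ M, ∀ r, c r = e r * d r) ∧ M'.card = M.card := by
  refine ⟨M.image (fun c r => e r * c r), ts_sign hTS he, ?_, ?_⟩
  · intro c hc
    rw [Finset.mem_image] at hc
    obtain ⟨d, hd, hdc⟩ := hc
    exact ⟨d, hd, fun r => (congrFun hdc r).symm⟩
  · apply Finset.card_image_of_injective
    intro c c' hcc
    funext r
    have h2 : e r * c r = e r * c' r := congrFun hcc r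
    have h3 : e r ≠ 0 := by
      rcases he r with h | h <;> rw [h] <;> norm_num
    exact mul_left_cancel₀ h3 h2

/-- Part I: multiply the rows with `t r > 3 / 4` by `-1`; the new parameters are `1 - t r`, and
`Al (1 - t r) (- x)` follows from `Al (t r) x` for `t r ≠ 0, 1`. -/
theorem part_one [Fintype ι] {M : Finset (ι → ℝ)} {t : ι → ℝ} (hTS : TS (M : Set (ι → ℝ)))
    (hval : ∀ c ∈ M, ∀ r, Al (t r) (c r)) (ht : ∀ r, 0 ≤ t r ∧ t r < 1)
    (hout : ∀ r, t r < 1 / 4 ∨ 3 / 4 < t r) :
    M.card ≤ Fintype.card ι ^ 2 + Fintype.card ι + 1 := by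
  have he : ∀ r, (fun r => if t r < 1 / 4 then (1 : ℝ) else -1) r = 1 ∨
      (fun r => if t r < 1 / 4 then (1 : ℝ) else -1) r = -1 := by
    intro r
    by_cases h : t r < 1 / 4
    · left; simp only [if_pos h]
    · right; simp only [if_neg h]
  obtain ⟨M', h1, hM', hcard⟩ := s8_ex hTS he
  rw [← hcard]
  apply s7_small (t := fun r => if t r < 1 / 4 then t r else 1 - t r) h1
  · intro c hc r
    obtain ⟨d, hd, hdc⟩ := hM' c hc
    have h3 := hval d hd r
    rw [hdc r]
    by_cases h : t r < 1 / 4
    · simp only [if_pos h, one_mul]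
      exact h3
    · simp only [if_neg h]
      rcases hout r with h4 | h4
      · exact absurd h4 h
      · have h5 : t r ≠ 0 := by
          intro h0
          rw [h0] at h4
          norm_num at h4
        have h6 := (ht r).2
        left
        refine ⟨by intro h7; linarith, ?_⟩
        rcases h3 with ⟨_, h7 | h7⟩ | ⟨h8, _⟩
        · right
          rw [h7]; ring
        · left
          rw [h7]; ring
        · exact absurd h8 h5
  · intro r
    by_cases h : t r < 1 / 4
    · simp only [if_pos h]
      exact ⟨(ht r).1, h⟩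
    · simp only [if_neg h]
      rcases hout r with h4 | h4
      · exact absurd h4 h
      · have := (ht r).2
        constructor <;> linarith

end Pool.Agent.Lib.H73H
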