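import Pool.Agent.Lib.H73H.P4
import Pool.Agent.Lib.H73H.S8
import Pool.Agent.Lib.Helper7.Heller6

set_option autoImplicit false

namespace Pool.Agent.Lib.H73H

open Classical Module

/-! F1: the upper bound in terms of `TS` and `Al`. -/

/-- `part_one` (if no `t a` is in `[1/4, 3/4]`; `m ^ 2 + m + 1 ≤ m ^ 2 + 2 * m` as `1 ≤ m`) and
`part_two`. -/
theorem upper_main {ι : Type} [Fintype ι] [Nonempty ι] {t : ι → ℝ} {M : Finset (ι → ℝ)}
    (hTS : HellerS.TS (M : Set (ι → ℝ))) (hval : ∀ c ∈ M, ∀ r, HellerS.Al (t r) (c r))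
    (ht : ∀ r, 0 ≤ t r ∧ t r < 1) :
    M.card ≤ Fintype.card ι ^ 2 + (2 + 2 * CN 4) * Fintype.card ι := by
  have hm : 1 ≤ Fintype.card ι := Fintype.card_pos
  by_cases h : ∀ r, t r < 1 / 4 ∨ 3 / 4 < t r
  · have h1 := part_one hTS hval ht h
    calc M.card ≤ _ := h1
      _ ≤ Fintype.card ι ^ 2 + 2 * Fintype.card ι := by omega
      _ ≤ _ := by
        have : 0 ≤ 2 * CN 4 * Fintype.card ι := Nat.zero_le _
        nlinarith
  · push Not at h
    obtain ⟨a, h1, h2⟩ := h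
    have h3 := part_two hTS hval h1 h2
    calc M.card ≤ _ := h3
      _ ≤ _ := by nlinarith [Nat.zero_le (CN 4)]

end Pool.Agent.Lib.H73H
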