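import Pool.Agent.Lib.H73H.Defs

set_option autoImplicit false

namespace Pool.Agent.Lib.H73H

open Classical Module Submodule

variable {V : Type} [AddCommGroup V] [Module ℚ V]

/-! G1: easy facts on `Ind`, `IndMod`, `IsCirc`. -/

theorem g1_sum_ite {K K' : Finset V} (hs : K' ⊆ K) (μ : V → ℚ) :
    ∑ x ∈ K, (if x ∈ K' then μ x else 0) • x = ∑ x ∈ K', μ x • x := by
  have h1 : ∑ x ∈ K', μ x • x = ∑ x ∈ K', (if x ∈ K' then μ x else 0) • x := by
    apply Finset.sum_congr rfl
    intro x hx
    rw [if_pos hx]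
  rw [h1]
  symm
  apply Finset.sum_subset hs
  intro x _ hx
  rw [if_neg hx, zero_smul]

/-- clear (set the other coefficients to zero: use `fun x => if x ∈ K' then μ x else 0`) -/
theorem IndMod.mono {U : Submodule ℚ V} {K K' : Finset V} (h : IndMod U K) (hs : K' ⊆ K) :
    IndMod U K' := by
  intro μ hμ x hx
  have h1 := h (fun x => if x ∈ K' then μ x else 0) (by
    rw [g1_sum_ite hs]; exact hμ) x (hs hx)
  simpa [if_pos hx] using h1

theorem ind_iff_indMod {K : Finset V} : Ind K ↔ IndMod ⊥ K := by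
  unfold Ind IndMod
  simp only [Submodule.mem_bot]

theorem Ind.mono {K K' : Finset V} (h : Ind K) (hs : K' ⊆ K) : Ind K' :=
  ind_iff_indMod.2 ((ind_iff_indMod.1 h).mono hs)

theorem IndMod.ind {U : Submodule ℚ V} {K : Finset V} (h : IndMod U K) : Ind K := by
  intro μ hμ x hx
  exact h μ (by rw [hμ]; exact U.zero_mem) x hx

/-- the same modulo `U` -/
theorem CircMod.indMod_of_ssubset {U : Submodule ℚ V} {K K' : Finset V} (h : CircMod U K)
    (hs : K' ⊂ K) : IndMod U K' := by
  obtain ⟨_, κ, hκ, _, hall⟩ := h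
  intro μ hμ x hx
  obtain ⟨θ, hθ⟩ := hall (fun x => if x ∈ K' then μ x else 0) (by
    rw [g1_sum_ite hs.subset]; exact hμ)
  obtain ⟨y, hyK, hyK'⟩ := Finset.exists_of_ssubset hs
  have h1 := hθ y hyK
  rw [if_neg hyK'] at h1
  have h2 : θ = 0 := by
    rcases mul_eq_zero.1 h1.symm with h | h
    · exact h
    · exact absurd h (hκ y hyK)
  have h3 := hθ x (hs.subset hx)
  rw [if_pos hx, h2, zero_mul] at h3
  exact h3

theorem g1_circ_iff {K : Finset V} : IsCirc K ↔ CircMod ⊥ K := by
  unfold IsCirc CircMod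
  simp only [Submodule.mem_bot]

/-- Let `K'` be properly contained in `K`; a relation on `K'`, extended by zero, is `θ` times the
relation of `K`; it vanishes at some `x ∈ K \ K'`, so `θ = 0`. -/
theorem IsCirc.ind_of_ssubset {K K' : Finset V} (h : IsCirc K) (hs : K' ⊂ K) : Ind K' :=
  ind_iff_indMod.2 ((g1_circ_iff.1 h).indMod_of_ssubset hs)

theorem IsCirc.not_ind {K : Finset V} (h : IsCirc K) : ¬ Ind K := by
  intro hi
  obtain ⟨⟨x, hx⟩, κ, hκ, hrel, _⟩ := h
  exact hκ x hx (hi κ hrel x hx)

theorem IsCirc.eq_of_subset {K D : Finset V} (hK : IsCirc K) (hD : IsCirc D) (h : D ⊆ K) :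
    D = K := by
  by_contra hne
  exact hD.not_ind (hK.ind_of_ssubset (lt_of_le_of_ne h hne))

/-- an independent set has no element zero -/
theorem Ind.ne_zero {K : Finset V} (h : Ind K) {x : V} (hx : x ∈ K) : x ≠ 0 := by
  intro h0
  have h1 := h (fun y => if y = x then 1 else 0) (by
    apply Finset.sum_eq_zero
    intro y _
    by_cases hy : y = x
    · rw [hy, h0, smul_zero]
    · rw [if_neg hy, zero_smul]) x hx
  simp at h1

/-- if `x = 0` then `{x}` is a proper subset of `K` which is not independent -/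
theorem IsCirc.ne_zero {K : Finset V} (h : IsCirc K) (h2 : 2 ≤ K.card) {x : V} (hx : x ∈ K) :
    x ≠ 0 := by
  have h3 : ({x} : Finset V) ⊂ K := by
    rw [Finset.ssubset_iff_subset_ne]
    refine ⟨by simpa using hx, ?_⟩
    intro he
    rw [← he] at h2
    simp at h2
  exact (h.ind_of_ssubset h3).ne_zero (Finset.mem_singleton_self x)

theorem ind_empty : Ind (∅ : Finset V) := by
  intro μ _ x hx
  simp at hx

/-- in a relation on `insert x K` with nonzero coefficient at `x`, `x` would be in the span -/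
theorem ind_insert {K : Finset V} {x : V} (hK : Ind K) (hx : x ∉ span ℚ (K : Set V)) :
    Ind (insert x K) := by
  have hxK : x ∉ K := fun h => hx (subset_span h)
  intro μ hμ
  rw [Finset.sum_insert hxK] at hμ
  have h0 : μ x = 0 := by
    by_contra hne
    apply hx
    have h1 : x = -((μ x)⁻¹) • ∑ y ∈ K, μ y • y := by
      have h2 : ∑ y ∈ K, μ y • y = -(μ x • x) := (neg_eq_of_add_eq_zero_right hμ).symm
      rw [h2, smul_neg, neg_smul, neg_neg, smul_smul, inv_mul_cancel₀ hne, one_smul]
    rw [h1]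
    apply Submodule.smul_mem
    apply Submodule.sum_mem
    intro y hy
    exact Submodule.smul_mem _ _ (subset_span hy)
  intro y hy
  rcases Finset.mem_insert.1 hy with h | h
  · rw [h]; exact h0
  · rw [h0, zero_smul, zero_add] at hμ
    exact hK μ hμ y h

theorem IndMod.disjoint {U : Submodule ℚ V} {K T : Finset V} (hK : IndMod U K)
    (hTU : (T : Set V) ⊆ U) : Disjoint K T := by
  rw [Finset.disjoint_left]
  intro x hxK hxT
  have h1 : IndMod U {x} := hK.mono (by simpa using hxK)
  have h2 := h1 (fun _ => 1) (by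
    simp only [Finset.sum_singleton, one_smul]
    exact hTU hxT) x (Finset.mem_singleton_self x)
  exact one_ne_zero h2

/-- (automatically `K` and `T` are disjoint: an element of `K` in `U` is impossible) -/
theorem ind_union {U : Submodule ℚ V} {K T : Finset V} (hK : IndMod U K) (hT : Ind T)
    (hTU : (T : Set V) ⊆ U) : Ind (K ∪ T) := by
  have hd := hK.disjoint hTU
  intro μ hμ
  rw [Finset.sum_union hd] at hμ
  have hTm : ∑ x ∈ T, μ x • x ∈ U := by
    apply Submodule.sum_mem
    intro y hy
    exact Submodule.smul_mem _ _ (hTU hy)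
  have h1 : ∀ x ∈ K, μ x = 0 := by
    apply hK μ
    rw [eq_neg_of_add_eq_zero_left hμ]
    exact U.neg_mem hTm
  have h2 : ∑ x ∈ K, μ x • x = 0 := by
    apply Finset.sum_eq_zero
    intro x hx
    rw [h1 x hx, zero_smul]
  rw [h2, zero_add] at hμ
  have h3 := hT μ hμ
  intro x hx
  rcases Finset.mem_union.1 hx with h | h
  · exact h1 x h
  · exact h3 x h

end Pool.Agent.Lib.H73H
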