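import Pool.Agent.Lib.H73H.G1

set_option autoImplicit false

namespace Pool.Agent.Lib.H73H

open Classical Module Submodule

variable {V : Type} [AddCommGroup V] [Module ℚ V]

/-! G2: a dependent finite set contains a circuit. -/

/-- Take `K' ⊆ K` of minimal cardinality which is not `Ind`, and a relation `κ` on `K'` which is
not zero. Its support (the elements of `K'` with `κ x ≠ 0`) is not `Ind`, so it is `K'`. If `μ` is
another relation on `K'`, choose `x₀ ∈ K'` and `θ = μ x₀ / κ x₀`: `μ - θ κ` is a relation which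
vanishes at `x₀`, it is a relation on `K'.erase x₀`, which is `Ind` by minimality, so it is zero. -/
theorem exists_circ {K : Finset V} (h : ¬ Ind K) : ∃ K' ⊆ K, IsCirc K' := by
  obtain ⟨K', hK'mem, hmin⟩ := Finset.exists_min_image
    (K.powerset.filter (fun K' => ¬ Ind K')) Finset.card
    ⟨K, by simp [h]⟩
  rw [Finset.mem_filter, Finset.mem_powerset] at hK'mem
  obtain ⟨hsub, hni⟩ := hK'mem
  have hmin' : ∀ D ⊂ K', Ind D := by
    intro D hD
    by_contra hDi
    have h1 := hmin D (by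
      rw [Finset.mem_filter, Finset.mem_powerset]
      exact ⟨hD.subset.trans hsub, hDi⟩)
    exact absurd (Finset.card_lt_card hD) (not_lt.2 h1)
  have h2 : ∃ κ : V → ℚ, ∑ x ∈ K', κ x • x = 0 ∧ ∃ x ∈ K', κ x ≠ 0 := by
    by_contra hcon
    apply hni
    intro μ hμ x hx
    by_contra hne
    exact hcon ⟨μ, hμ, x, hx, hne⟩
  obtain ⟨κ, hrel, x₁, hx₁, hκ₁⟩ := h2
  have hsupp : ∀ x ∈ K', κ x ≠ 0 := by
    intro x hx hx0
    have hD : K'.erase x ⊂ K' := Finset.erase_ssubset hx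
    have hi := hmin' _ hD
    have hs : ∑ y ∈ K'.erase x, κ y • y = 0 := by
      have h3 := Finset.add_sum_erase K' (fun y => κ y • y) hx
      simp only [hx0, zero_smul, zero_add] at h3
      rw [h3]; exact hrel
    have hne : x₁ ≠ x := by
      intro he
      rw [he] at hκ₁
      exact hκ₁ hx0
    exact hκ₁ (hi κ hs x₁ (Finset.mem_erase.2 ⟨hne, hx₁⟩))
  refine ⟨K', hsub, ⟨x₁, hx₁⟩, κ, hsupp, hrel, ?_⟩
  intro μ hμ
  refine ⟨μ x₁ / κ x₁, ?_⟩
  have hi := hmin' _ (Finset.erase_ssubset hx₁)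
  have hν : ∑ y ∈ K', (μ y - (μ x₁ / κ x₁) * κ y) • y = 0 := by
    simp only [sub_smul, mul_smul, Finset.sum_sub_distrib]
    rw [← Finset.smul_sum, hrel, hμ, smul_zero, sub_zero]
  have h0 : μ x₁ - (μ x₁ / κ x₁) * κ x₁ = 0 := by
    rw [div_mul_cancel₀ _ hκ₁, sub_self]
  have hs : ∑ y ∈ K'.erase x₁, (μ y - (μ x₁ / κ x₁) * κ y) • y = 0 := by
    have h3 := Finset.add_sum_erase K' (fun y => (μ y - (μ x₁ / κ x₁) * κ y) • y) hx₁
    simp only [h0, zero_smul, zero_add] at h3
    rw [h3]; exact hν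
  intro x hx
  by_cases hxe : x = x₁
  · rw [hxe]
    linarith
  · have h4 := hi (fun y => μ y - (μ x₁ / κ x₁) * κ y) hs x (Finset.mem_erase.2 ⟨hxe, hx⟩)
    linarith

end Pool.Agent.Lib.H73H
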