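import Pool.Agent.Lib.H73H.G1

set_option autoImplicit false

namespace Pool.Agent.Lib.H73H

open Classical Module Submodule

variable {V : Type} [AddCommGroup V] [Module ℚ V]

/-! G3: dimensions. -/

theorem ind_iff_linearIndependent {K : Finset V} :
    Ind K ↔ LinearIndependent ℚ (fun x : K => (x : V)) := by
  rw [Fintype.linearIndependent_iff]
  constructor
  · intro h g hg i
    have h1 := h (fun x => if hx : x ∈ K then g ⟨x, hx⟩ else 0) (by
      rw [← Finset.sum_coe_sort]
      rw [← hg]
      apply Finset.sum_congr rfl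
      intro x _
      simp) i i.2
    simpa using h1
  · intro h μ hμ x hx
    have h1 := h (fun i => μ (i : V)) (by
      rw [← hμ]
      exact Finset.sum_coe_sort K (fun y => μ y • y)) ⟨x, hx⟩
    exact h1

theorem Ind.finrank_span {K : Finset V} (h : Ind K) :
    finrank ℚ (span ℚ (K : Set V)) = K.card := by
  have h1 := ind_iff_linearIndependent.1 h
  have h2 := finrank_span_eq_card h1
  have h3 : Set.range (fun x : K => (x : V)) = (K : Set V) := by
    ext y
    simp
  rw [h3, Fintype.card_coe] at h2
  exact h2

theorem Ind.card_le [Module.Finite ℚ V] {K : Finset V} (h : Ind K) :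
    K.card ≤ finrank ℚ V := by
  rw [← h.finrank_span]
  exact Submodule.finrank_le _

/-- `K` minus one element is independent and has the same span -/
theorem IsCirc.finrank_span {K : Finset V} (h : IsCirc K) :
    finrank ℚ (span ℚ (K : Set V)) + 1 = K.card := by
  have hh := h
  obtain ⟨⟨x, hx⟩, κ, hκ, hrel, _⟩ := h
  have hi : Ind (K.erase x) := hh.ind_of_ssubset (Finset.erase_ssubset hx)
  have hsp : span ℚ (K : Set V) = span ℚ ((K.erase x : Finset V) : Set V) := by
    apply le_antisymm
    · rw [span_le]
      intro y hy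
      by_cases hyx : y = x
      · have h3 := Finset.add_sum_erase K (fun z => κ z • z) hx
        rw [hrel] at h3
        have h4 : x = -((κ x)⁻¹) • ∑ z ∈ K.erase x, κ z • z := by
          have h2 : ∑ y ∈ K.erase x, κ y • y = -(κ x • x) := (neg_eq_of_add_eq_zero_right h3).symm
          rw [h2, smul_neg, neg_smul, neg_neg, smul_smul, inv_mul_cancel₀ (hκ x hx), one_smul]
        rw [hyx]
        show x ∈ span ℚ ((K.erase x : Finset V) : Set V)
        have h5 : -((κ x)⁻¹) • ∑ z ∈ K.erase x, κ z • z ∈ span ℚ ((K.erase x : Finset V) : Set V) := by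
          apply Submodule.smul_mem
          apply Submodule.sum_mem
          intro z hz
          exact Submodule.smul_mem _ _ (subset_span hz)
        rwa [← h4] at h5
      · exact subset_span (Finset.mem_coe.2 (Finset.mem_erase.2 ⟨hyx, hy⟩))
    · exact span_mono (by exact_mod_cast Finset.erase_subset x K)
  rw [hsp, hi.finrank_span, Finset.card_erase_of_mem hx]
  have : 0 < K.card := Finset.card_pos.2 ⟨x, hx⟩
  omega

theorem IndMod.card_le [Module.Finite ℚ V] {U : Submodule ℚ V} {K : Finset V}
    (h : IndMod U K) : K.card + finrank ℚ U ≤ finrank ℚ V := by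
  have h1 : LinearIndependent ℚ (fun x : K => U.mkQ (x : V)) := by
    rw [Fintype.linearIndependent_iff]
    intro g hg i
    have h1 := h (fun x => if hx : x ∈ K then g ⟨x, hx⟩ else 0) (by
      rw [← Finset.sum_coe_sort]
      rw [← Submodule.Quotient.mk_eq_zero]
      show U.mkQ _ = 0
      rw [← hg, map_sum]
      apply Finset.sum_congr rfl
      intro x _
      rw [map_smul]
      simp) i i.2
    simpa using h1
  have h2 := h1.fintype_card_le_finrank
  rw [Fintype.card_coe] at h2
  have h3 := Submodule.finrank_quotient_add_finrank U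
  omega

/-- the span of an independent set meets the span of another part only in the common part -/
theorem Ind.span_inter {K I₁ I₂ : Finset V} (h : Ind K) (h1 : I₁ ⊆ K) (h2 : I₂ ⊆ K) {x : V}
    (hx1 : x ∈ span ℚ (I₁ : Set V)) (hx2 : x ∈ span ℚ (I₂ : Set V)) :
    x ∈ span ℚ ((I₁ ∩ I₂ : Finset V) : Set V) := by
  obtain ⟨f, _, hf⟩ := Submodule.mem_span_finset.1 hx1
  obtain ⟨g, _, hg⟩ := Submodule.mem_span_finset.1 hx2
  have h3 := h (fun y => (if y ∈ I₁ then f y else 0) - (if y ∈ I₂ then g y else 0)) (by
    simp only [sub_smul, Finset.sum_sub_distrib]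
    rw [g1_sum_ite h1, g1_sum_ite h2, hf, hg, sub_self])
  rw [← hf]
  apply Submodule.sum_mem
  intro y hy
  by_cases hy2 : y ∈ I₂
  · exact Submodule.smul_mem _ _ (subset_span (Finset.mem_coe.2 (Finset.mem_inter.2 ⟨hy, hy2⟩)))
  · have h4 := h3 y (h1 hy)
    simp only [if_pos hy, if_neg hy2, sub_zero] at h4
    rw [h4, zero_smul]
    exact Submodule.zero_mem _

end Pool.Agent.Lib.H73H
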