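import Pool.Agent.Lib.H73H.G1

set_option autoImplicit false

namespace Pool.Agent.Lib.H73H

open Classical Module Submodule

variable {V : Type} [AddCommGroup V] [Module ℚ V]

/-! G4: constructor for circuits. -/

/-- For a relation `μ` let `θ = μ x₀ / κ x₀`; `μ - θ κ` is a relation on `K.erase x₀`. -/
theorem isCirc_of_erase {K : Finset V} {κ : V → ℚ} (hκ : ∀ x ∈ K, κ x ≠ 0)
    (hrel : ∑ x ∈ K, κ x • x = 0) {x₀ : V} (hx : x₀ ∈ K) (hi : Ind (K.erase x₀)) :
    IsCirc K := by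
  refine ⟨⟨x₀, hx⟩, κ, hκ, hrel, ?_⟩
  intro μ hμ
  refine ⟨μ x₀ / κ x₀, ?_⟩
  have hκ₁ := hκ x₀ hx
  have hν : ∑ y ∈ K, (μ y - (μ x₀ / κ x₀) * κ y) • y = 0 := by
    simp only [sub_smul, mul_smul, Finset.sum_sub_distrib]
    rw [← Finset.smul_sum, hrel, hμ, smul_zero, sub_zero]
  have h0 : μ x₀ - (μ x₀ / κ x₀) * κ x₀ = 0 := by
    rw [div_mul_cancel₀ _ hκ₁, sub_self]
  have hs : ∑ y ∈ K.erase x₀, (μ y - (μ x₀ / κ x₀) * κ y) • y = 0 := by
    have h3 := Finset.add_sum_erase K (fun y => (μ y - (μ x₀ / κ x₀) * κ y) • y) hx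
    simp only [h0, zero_smul, zero_add] at h3
    rw [h3]; exact hν
  intro x hxK
  by_cases hxe : x = x₀
  · rw [hxe]
    linarith
  · have h4 := hi (fun y => μ y - (μ x₀ / κ x₀) * κ y) hs x (Finset.mem_erase.2 ⟨hxe, hxK⟩)
    linarith

/-- an element of the span of an independent set with full support gives a circuit: for
`u = ∑ x ∈ T, τ x • x`, `u ∉ T`, the set `insert u T` is a circuit (relation: coefficient `-1` at
`u`, `τ` on `T`) -/
theorem isCirc_insert {T : Finset V} {τ : V → ℚ} (hT : Ind T) (hτ : ∀ x ∈ T, τ x ≠ 0) {u : V}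
    (hu : u = ∑ x ∈ T, τ x • x) (huT : u ∉ T) : IsCirc (insert u T) := by
  apply isCirc_of_erase (κ := fun x => if x = u then -1 else τ x) (x₀ := u)
  · intro x hx
    by_cases hxu : x = u
    · simp only [if_pos hxu]; norm_num
    · simp only [if_neg hxu]
      rcases Finset.mem_insert.1 hx with h | h
      · exact absurd h hxu
      · exact hτ x h
  · rw [Finset.sum_insert huT, if_pos rfl]
    have h1 : ∑ x ∈ T, (if x = u then (-1 : ℚ) else τ x) • x = ∑ x ∈ T, τ x • x := by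
      apply Finset.sum_congr rfl
      intro x hx
      have : x ≠ u := fun h => huT (h ▸ hx)
      rw [if_neg this]
    rw [h1, ← hu, neg_smul, one_smul, neg_add_cancel]
  · exact Finset.mem_insert_self _ _
  · rw [Finset.erase_insert huT]; exact hT

/-- Two elements: `x₂ = l • x₁ + ∑ x ∈ T, τ x • x`, `T` independent inside a subspace `U`,
`x₁ ∉ U`, `x₁ ≠ x₂`, `l ≠ 0` (so `x₂ ∉ U`): the set `insert x₂ (insert x₁ T)` is a circuit. -/
theorem isCirc_insert_two {U : Submodule ℚ V} {T : Finset V} {τ : V → ℚ} (hT : Ind T)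
    (hTU : (T : Set V) ⊆ U) (hτ : ∀ x ∈ T, τ x ≠ 0) {x₁ x₂ : V} {l : ℚ} (hl : l ≠ 0)
    (h1 : x₁ ∉ U) (hne : x₁ ≠ x₂) (hu : x₂ = l • x₁ + ∑ x ∈ T, τ x • x) :
    IsCirc (insert x₂ (insert x₁ T)) := by
  have hTm : ∑ x ∈ T, τ x • x ∈ U := by
    apply Submodule.sum_mem
    intro y hy
    exact Submodule.smul_mem _ _ (hTU hy)
  have h1T : x₁ ∉ T := fun h => h1 (hTU h)
  have h2U : x₂ ∉ U := by
    intro h2
    apply h1
    have h3 : l • x₁ ∈ U := by
      have h4 : l • x₁ = x₂ - ∑ x ∈ T, τ x • x := by rw [hu]; abel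
      rw [h4]
      exact U.sub_mem h2 hTm
    have h5 := U.smul_mem l⁻¹ h3
    rwa [smul_smul, inv_mul_cancel₀ hl, one_smul] at h5
  have h2T : x₂ ∉ T := fun h => h2U (hTU h)
  have hspan : span ℚ (T : Set V) ≤ U := span_le.2 hTU
  apply isCirc_insert (τ := fun x => if x = x₁ then l else τ x)
  · exact ind_insert hT (fun h => h1 (hspan h))
  · intro x hx
    by_cases hxu : x = x₁
    · simp only [if_pos hxu]; exact hl
    · simp only [if_neg hxu]
      rcases Finset.mem_insert.1 hx with h | h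
      · exact absurd h hxu
      · exact hτ x h
  · rw [Finset.sum_insert h1T, if_pos rfl]
    have h6 : ∑ x ∈ T, (if x = x₁ then l else τ x) • x = ∑ x ∈ T, τ x • x := by
      apply Finset.sum_congr rfl
      intro x hx
      have : x ≠ x₁ := fun h => h1T (h ▸ hx)
      rw [if_neg this]
    rw [h6]; exact hu
  · intro h
    rcases Finset.mem_insert.1 h with h | h
    · exact hne h.symm
    · exact h2T h

/-- Circuit modulo `U` plus a representation of the element of `U`: `K` is a circuit modulo `U`,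
with relation `∑ κ x • x = ∑ x ∈ T, τ x • x`, `T` independent inside `U`: `K ∪ T` is a circuit.
(Use `isCirc_of_erase` with `x₀ ∈ K`: `(K ∪ T).erase x₀ = K.erase x₀ ∪ T`, `ind_union`.) -/
theorem isCirc_union {U : Submodule ℚ V} {K T : Finset V} {κ τ : V → ℚ}
    (hK : CircMod U K) (hκ : ∀ x ∈ K, κ x ≠ 0) (hT : Ind T)
    (hTU : (T : Set V) ⊆ U) (hτ : ∀ x ∈ T, τ x ≠ 0)
    (hrel : ∑ x ∈ K, κ x • x = ∑ x ∈ T, τ x • x) (hKU : ∀ x ∈ K, x ∉ U) :
    IsCirc (K ∪ T) := by
  have hd : Disjoint K T := by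
    rw [Finset.disjoint_left]
    intro x hx hxT
    exact hKU x hx (hTU hxT)
  obtain ⟨x₀, hx₀⟩ := hK.1
  have hx₀T : x₀ ∉ T := Finset.disjoint_left.1 hd hx₀
  apply isCirc_of_erase (κ := fun x => if x ∈ K then κ x else -τ x) (x₀ := x₀)
  · intro x hx
    by_cases hxK : x ∈ K
    · simp only [if_pos hxK]; exact hκ x hxK
    · simp only [if_neg hxK]
      rcases Finset.mem_union.1 hx with h | h
      · exact absurd h hxK
      · exact neg_ne_zero.2 (hτ x h)
  · rw [Finset.sum_union hd]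
    have h1 : ∑ x ∈ K, (if x ∈ K then κ x else -τ x) • x = ∑ x ∈ K, κ x • x := by
      apply Finset.sum_congr rfl
      intro x hx
      rw [if_pos hx]
    have h2 : ∑ x ∈ T, (if x ∈ K then κ x else -τ x) • x = -∑ x ∈ T, τ x • x := by
      rw [← Finset.sum_neg_distrib]
      apply Finset.sum_congr rfl
      intro x hx
      rw [if_neg (Finset.disjoint_right.1 hd hx), neg_smul]
    rw [h1, h2, hrel, add_neg_cancel]
  · exact Finset.mem_union_left _ hx₀
  · have h3 : (K ∪ T).erase x₀ = K.erase x₀ ∪ T := by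
      ext y
      simp only [Finset.mem_erase, Finset.mem_union]
      constructor
      · rintro ⟨h, h' | h'⟩
        · exact Or.inl ⟨h, h'⟩
        · exact Or.inr h'
      · rintro (⟨h, h'⟩ | h')
        · exact ⟨h, Or.inl h'⟩
        · exact ⟨fun h => hx₀T (h ▸ h'), Or.inr h'⟩
    rw [h3]
    exact ind_union (hK.indMod_of_ssubset (Finset.erase_ssubset hx₀)) hT hTU

end Pool.Agent.Lib.H73H
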