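import Pool.Agent.Lib.H73H.G1

set_option autoImplicit false

namespace Pool.Agent.Lib.H73H

open Classical Module Submodule

variable {V : Type} [AddCommGroup V] [Module ℚ V]

/-! G5: minimal representation. -/

/-- Take `T ⊆ D` of minimal cardinality with `u ∈ span T`, and `u = ∑ x ∈ T, τ x • x`. All
`τ x ≠ 0`, else a smaller set. `T` is independent: if `μ` is a relation on `T` with `μ y ≠ 0`,
then `τ - (τ y / μ y) μ` represents `u` on `T.erase y`. -/
theorem min_rep {D : Finset V} {u : V} (hu : u ∈ span ℚ (D : Set V)) :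
    ∃ T ⊆ D, Ind T ∧ ∃ τ : V → ℚ, (∀ x ∈ T, τ x ≠ 0) ∧ u = ∑ x ∈ T, τ x • x := by
  obtain ⟨T, hTmem, hmin⟩ := Finset.exists_min_image
    (D.powerset.filter (fun T => ∃ τ : V → ℚ, u = ∑ x ∈ T, τ x • x)) Finset.card
    (by
      obtain ⟨τ, _, hτ⟩ := Submodule.mem_span_finset.1 hu
      exact ⟨D, by
        rw [Finset.mem_filter, Finset.mem_powerset]
        exact ⟨Finset.Subset.refl _, τ, hτ.symm⟩⟩)
  rw [Finset.mem_filter, Finset.mem_powerset] at hTmem
  obtain ⟨hsub, τ, hτ⟩ := hTmem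
  have hno : ∀ y ∈ T, ∀ σ : V → ℚ, σ y = 0 → u ≠ ∑ x ∈ T, σ x • x := by
    intro y hy σ hσ he
    have h1 : u = ∑ x ∈ T.erase y, σ x • x := by
      have h3 := Finset.add_sum_erase T (fun z => σ z • z) hy
      simp only [hσ, zero_smul, zero_add] at h3
      rw [h3]; exact he
    have h2 := hmin (T.erase y) (by
      rw [Finset.mem_filter, Finset.mem_powerset]
      exact ⟨(Finset.erase_subset _ _).trans hsub, σ, h1⟩)
    exact absurd (Finset.card_lt_card (Finset.erase_ssubset hy)) (not_lt.2 h2)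
  refine ⟨T, hsub, ?_, τ, ?_, hτ⟩
  · intro μ hμ y hy
    by_contra hne
    apply hno y hy (fun x => τ x - (τ y / μ y) * μ x)
    · show τ y - (τ y / μ y) * μ y = 0
      rw [div_mul_cancel₀ _ hne, sub_self]
    · simp only [sub_smul, mul_smul, Finset.sum_sub_distrib]
      rw [← Finset.smul_sum, hμ, smul_zero, sub_zero]
      exact hτ
  · intro x hx h0
    exact hno x hx τ h0 hτ

end Pool.Agent.Lib.H73H
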