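import Pool.Agent.Lib.H73H.G2
import Pool.Agent.Lib.H73H.G3
import Pool.Agent.Lib.H73H.G6

set_option autoImplicit false

namespace Pool.Agent.Lib.H73H

open Classical Module Submodule

variable {V : Type} [AddCommGroup V] [Module ℚ V]

/-! K1: sub-lemma (R). -/

/-- Let `I₁ = A ∪ B₁` with `B₁ ⊆ D₁`, independent, and `D₁ ⊆ span I₁`, `I₂ = A ∪ B₂` with
`B₂ ⊆ D₂`, independent, `D₂ ⊆ span I₂` (`ind_extend`). If `I₁ ∪ I₂` were independent, then
`v ∈ span I₁`, `v ∈ span I₂`, so `v ∈ span (I₁ ∩ I₂)` (`Ind.span_inter`) and `I₁ ∩ I₂ ⊆ A`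
because `D₁`, `D₂` are disjoint: contradiction. So there is a circuit `K ⊆ I₁ ∪ I₂`
(`exists_circ`). It is not inside `I₁`, so it has an element of `I₂ \ I₁ ⊆ D₂`, and not inside
`I₂`, so it has an element of `D₁`. -/
theorem k1 {A D₁ D₂ : Finset V} (hA : Ind A) (hD : Disjoint D₁ D₂) {v : V}
    (h1 : v ∈ span ℚ (D₁ : Set V)) (h2 : v ∈ span ℚ ((D₂ ∪ A : Finset V) : Set V))
    (h3 : v ∉ span ℚ (A : Set V)) :
    ∃ K ⊆ D₁ ∪ D₂ ∪ A, IsCirc K ∧ (K ∩ D₁).Nonempty ∧ (K ∩ D₂).Nonempty := by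
  obtain ⟨F₁, hF₁, hd₁, hi₁, hs₁⟩ := ind_extend (F := D₁) hA
  obtain ⟨F₂, hF₂, hd₂, hi₂, hs₂⟩ := ind_extend (F := D₂) hA
  have hv1 : v ∈ span ℚ ((A ∪ F₁ : Finset V) : Set V) := (span_le.2 hs₁) h1
  have hv2 : v ∈ span ℚ ((A ∪ F₂ : Finset V) : Set V) := by
    refine (span_le.2 ?_) h2
    rw [Finset.coe_union]
    refine Set.union_subset hs₂ (subset_span.trans' ?_)
    exact Finset.coe_subset.2 Finset.subset_union_left
  have hni : ¬ Ind ((A ∪ F₁) ∪ (A ∪ F₂)) := by
    intro h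
    have h4 := h.span_inter Finset.subset_union_left Finset.subset_union_right hv1 hv2
    refine h3 (span_mono ?_ h4)
    intro x hx
    rw [Finset.mem_coe, Finset.mem_inter, Finset.mem_union, Finset.mem_union] at hx
    rcases hx with ⟨hx | hx, hx' | hx'⟩
    · exact hx
    · exact hx
    · exact hx'
    · exact absurd (hF₂ hx') (Finset.disjoint_left.1 hD (hF₁ hx))
  obtain ⟨K, hK, hKc⟩ := exists_circ hni
  refine ⟨K, ?_, hKc, ?_, ?_⟩
  · intro x hx
    have := hK hx
    simp only [Finset.mem_union] at this ⊢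
    rcases this with (h | h) | (h | h)
    · exact Or.inr h
    · exact Or.inl (Or.inl (hF₁ h))
    · exact Or.inr h
    · exact Or.inl (Or.inr (hF₂ h))
  · by_contra hc
    rw [Finset.not_nonempty_iff_eq_empty] at hc
    refine hKc.not_ind (hi₂.mono ?_)
    intro x hx
    have := hK hx
    simp only [Finset.mem_union] at this ⊢
    rcases this with (h | h) | (h | h)
    · exact Or.inl h
    · have : x ∈ K ∩ D₁ := Finset.mem_inter.2 ⟨hx, hF₁ h⟩
      rw [hc] at this
      simp at this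
    · exact Or.inl h
    · exact Or.inr h
  · by_contra hc
    rw [Finset.not_nonempty_iff_eq_empty] at hc
    refine hKc.not_ind (hi₁.mono ?_)
    intro x hx
    have := hK hx
    simp only [Finset.mem_union] at this ⊢
    rcases this with (h | h) | (h | h)
    · exact Or.inl h
    · exact Or.inr h
    · exact Or.inl h
    · have : x ∈ K ∩ D₂ := Finset.mem_inter.2 ⟨hx, hF₂ h⟩
      rw [hc] at this
      simp at this

end Pool.Agent.Lib.H73H
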