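import Pool.Agent.Lib.H73H.G1

set_option autoImplicit false

namespace Pool.Agent.Lib.H73H

open Classical Module Submodule

variable {V : Type} [AddCommGroup V] [Module ℚ V]

/-! K2: every relation is a multiple of the given one. -/

private theorem k2_mem {A : Finset V} (B : Finset V) {x : V} {κ : V → ℚ} (hx : x ∈ A) (h0 : κ x = 0) :
    ∑ z ∈ A, κ z • z ∈ span ℚ ((B ∪ A.erase x : Finset V) : Set V) := by
  rw [← Finset.add_sum_erase A _ hx, h0, zero_smul, zero_add]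
  refine Submodule.sum_mem _ fun z hz => Submodule.smul_mem _ _ (subset_span ?_)
  exact Finset.mem_coe.2 (Finset.mem_union_right _ hz)

/-- one half: `p ∈ span D₁` and `p ∈ span (A.erase x)` imply `p = 0`. Otherwise
`p = ∑ y ∈ A, c y • y` with some `c y ≠ 0`, `y ∈ A`. The relation
`(v + (κ y / c y) • p) + w + ∑ z ∈ A, (κ z - (κ y / c y) * c z) • z = 0` has coefficient `0` at `y`,
so `w ∈ span (D₁ ∪ A.erase y)`, and by `hR2` `w ∈ span (A.erase y)`, against `hwA`. -/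
theorem k2_aux {A D₁ D₂ : Finset V} {v w : V} {κ : V → ℚ}
    (hv : v ∈ span ℚ (D₁ : Set V)) (hw : w ∈ span ℚ (D₂ : Set V))
    (hrel : v + w + ∑ x ∈ A, κ x • x = 0) (hwA : w ∉ span ℚ (A : Set V))
    (hR2 : ∀ A₁ ⊂ A, ∀ p ∈ span ℚ (D₂ : Set V), p ∈ span ℚ ((D₁ ∪ A₁ : Finset V) : Set V) →
      p ∈ span ℚ (A₁ : Set V))
    {p : V} (hp : p ∈ span ℚ (D₁ : Set V)) (hpA : p ∈ span ℚ (A : Set V)) : p = 0 := by
  obtain ⟨c, -, hc⟩ := Submodule.mem_span_finset.1 hpA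
  by_contra hp0
  have hex : ∃ y ∈ A, c y ≠ 0 := by
    by_contra hne
    push Not at hne
    refine hp0 ?_
    rw [← hc]
    exact Finset.sum_eq_zero fun y hy => by rw [hne y hy, zero_smul]
  obtain ⟨y, hy, hcy⟩ := hex
  set t := κ y / c y with ht
  have h0 : κ y - t * c y = 0 := by
    rw [ht]; field_simp; ring
  have e : w = -(v + t • p) - ∑ z ∈ A, (κ z - t * c z) • z := by
    have e1 : ∑ z ∈ A, (κ z - t * c z) • z = ∑ z ∈ A, κ z • z - t • p := by
      rw [← hc, Finset.smul_sum, ← Finset.sum_sub_distrib]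
      refine Finset.sum_congr rfl fun z _ => ?_
      rw [sub_smul, mul_smul]
    rw [e1]
    have e2 : w = -v - ∑ z ∈ A, κ z • z := by
      rw [eq_sub_iff_add_eq, eq_neg_iff_add_eq_zero]
      rw [← hrel]
      abel
    rw [e2]
    abel
  have hsub : span ℚ (D₁ : Set V) ≤ span ℚ ((D₁ ∪ A.erase y : Finset V) : Set V) :=
    span_mono (Finset.coe_subset.2 Finset.subset_union_left)
  have hwm : w ∈ span ℚ ((D₁ ∪ A.erase y : Finset V) : Set V) := by
    rw [e]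
    refine Submodule.sub_mem _ (Submodule.neg_mem _ (Submodule.add_mem _ (hsub hv)
      (Submodule.smul_mem _ _ (hsub hp)))) ?_
    exact k2_mem D₁ (κ := fun z => κ z - t * c z) hy h0
  refine hwA (span_mono ?_ (hR2 (A.erase y) (Finset.erase_ssubset hy) w hw hwm))
  exact Finset.coe_subset.2 (Finset.erase_subset _ _)

/-- Take `x ∈ A`, `θ = α x / κ x` and subtract `θ` times the first relation: a relation
`p + q + ∑ y ∈ A, (α y - θ κ y) • y = 0`, `p = v' - θ v`, `q = w' - θ w`, with coefficient `0` at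
`x`. So `p ∈ span (D₂ ∪ A.erase x)`, `hR1` gives `p ∈ span (A.erase x)`, and `hR2` gives
`q ∈ span (A.erase x)`. `k2_aux` (and its mirror image) give `p = 0`, `q = 0`; `A` is independent,
so `α = θ κ` on `A`. -/
theorem k2 {A D₁ D₂ : Finset V} (hA : Ind A) (hne : A.Nonempty) {v w : V} {κ : V → ℚ}
    (hv : v ∈ span ℚ (D₁ : Set V)) (hw : w ∈ span ℚ (D₂ : Set V))
    (hrel : v + w + ∑ x ∈ A, κ x • x = 0) (hκ : ∀ x ∈ A, κ x ≠ 0)
    (hvA : v ∉ span ℚ (A : Set V)) (hwA : w ∉ span ℚ (A : Set V))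
    (hR1 : ∀ A₁ ⊂ A, ∀ p ∈ span ℚ (D₁ : Set V), p ∈ span ℚ ((D₂ ∪ A₁ : Finset V) : Set V) →
      p ∈ span ℚ (A₁ : Set V))
    (hR2 : ∀ A₁ ⊂ A, ∀ p ∈ span ℚ (D₂ : Set V), p ∈ span ℚ ((D₁ ∪ A₁ : Finset V) : Set V) →
      p ∈ span ℚ (A₁ : Set V))
    {v' w' : V} {α : V → ℚ} (hv' : v' ∈ span ℚ (D₁ : Set V)) (hw' : w' ∈ span ℚ (D₂ : Set V))
    (hrel' : v' + w' + ∑ x ∈ A, α x • x = 0) :
    ∃ θ : ℚ, v' = θ • v ∧ w' = θ • w ∧ ∀ x ∈ A, α x = θ * κ x := by
  obtain ⟨x, hx⟩ := hne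
  set θ := α x / κ x with hθ
  have h0 : α x - θ * κ x = 0 := by
    have := hκ x hx
    rw [hθ]; field_simp; ring
  have hp : v' - θ • v ∈ span ℚ (D₁ : Set V) := Submodule.sub_mem _ hv' (Submodule.smul_mem _ _ hv)
  have hq : w' - θ • w ∈ span ℚ (D₂ : Set V) := Submodule.sub_mem _ hw' (Submodule.smul_mem _ _ hw)
  have hr : (v' - θ • v) + (w' - θ • w) + ∑ y ∈ A, (α y - θ * κ y) • y = 0 := by
    have e1 : ∑ z ∈ A, (α z - θ * κ z) • z = ∑ z ∈ A, α z • z - θ • ∑ z ∈ A, κ z • z := by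
      rw [Finset.smul_sum, ← Finset.sum_sub_distrib]
      refine Finset.sum_congr rfl fun z _ => ?_
      rw [sub_smul, mul_smul]
    rw [e1]
    have e2 : (v' - θ • v) + (w' - θ • w) + (∑ z ∈ A, α z • z - θ • ∑ z ∈ A, κ z • z) =
        (v' + w' + ∑ z ∈ A, α z • z) - θ • (v + w + ∑ z ∈ A, κ z • z) := by
      simp only [smul_add]
      abel
    rw [e2, hrel, hrel', smul_zero, sub_zero]
  have hs : ∀ B : Finset V, span ℚ (B : Set V) ≤ span ℚ ((B ∪ A.erase x : Finset V) : Set V) :=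
    fun B => span_mono (Finset.coe_subset.2 Finset.subset_union_left)
  have hsA : span ℚ ((A.erase x : Finset V) : Set V) ≤ span ℚ (A : Set V) :=
    span_mono (Finset.coe_subset.2 (Finset.erase_subset _ _))
  have hpm : v' - θ • v ∈ span ℚ ((D₂ ∪ A.erase x : Finset V) : Set V) := by
    have e : v' - θ • v = -(w' - θ • w) - ∑ y ∈ A, (α y - θ * κ y) • y := by
      rw [eq_sub_iff_add_eq, eq_neg_iff_add_eq_zero, ← hr]
      abel
    rw [e]
    exact Submodule.sub_mem _ (Submodule.neg_mem _ (hs _ hq))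
      (k2_mem D₂ (κ := fun y => α y - θ * κ y) hx h0)
  have hqm : w' - θ • w ∈ span ℚ ((D₁ ∪ A.erase x : Finset V) : Set V) := by
    have e : w' - θ • w = -(v' - θ • v) - ∑ y ∈ A, (α y - θ * κ y) • y := by
      rw [eq_sub_iff_add_eq, eq_neg_iff_add_eq_zero, ← hr]
      abel
    rw [e]
    exact Submodule.sub_mem _ (Submodule.neg_mem _ (hs _ hp))
      (k2_mem D₁ (κ := fun y => α y - θ * κ y) hx h0)
  have hpA := hsA (hR1 _ (Finset.erase_ssubset hx) _ hp hpm)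
  have hqA := hsA (hR2 _ (Finset.erase_ssubset hx) _ hq hqm)
  have hp0 := k2_aux hv hw hrel hwA hR2 hp hpA
  have hrels : w + v + ∑ x ∈ A, κ x • x = 0 := by
    rw [add_comm w v]; exact hrel
  have hq0 := k2_aux hw hv hrels hvA hR1 hq hqA
  refine ⟨θ, sub_eq_zero.1 hp0, sub_eq_zero.1 hq0, ?_⟩
  rw [hp0, hq0, zero_add, zero_add] at hr
  intro y hy
  exact sub_eq_zero.1 (hA _ hr y hy)

end Pool.Agent.Lib.H73H
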