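import Pool.Agent.Lib.H73H.G1

set_option autoImplicit false

namespace Pool.Agent.Lib.H73H

open Classical Module Submodule

variable {V : Type} [AddCommGroup V] [Module ℚ V]

/-! K3: a representation with large support. -/

/-- If `c ≤ 2 * K₁.card` take `S = K₁`, `σ = κ`. Otherwise let `δ` be the relation of `D` (all
`δ x ≠ 0`), `x₀ ∈ K₁`, `t = - κ x₀ / δ x₀ ≠ 0`, `σ x = (if x ∈ K₁ then κ x else 0) + t * δ x`,
`S = D.filter (σ x ≠ 0)`. Then `x₀ ∉ S`, and `D \ S ⊆ K₁` (outside `K₁`, `σ x = t δ x ≠ 0`), so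
`S.card ≥ c - K₁.card > c / 2`, and `∑ S σ x • x = ∑ D σ x • x = ∑ K₁ κ x • x`. -/
theorem k3 {D K₁ : Finset V} {c : ℕ} (hD : IsCirc D) (hc : D.card = c) (hK : K₁ ⊂ D)
    (hne : K₁.Nonempty) {κ : V → ℚ} (hκ : ∀ x ∈ K₁, κ x ≠ 0) :
    ∃ S ⊂ D, ∃ σ : V → ℚ, (∀ x ∈ S, σ x ≠ 0) ∧
      ∑ x ∈ S, σ x • x = ∑ x ∈ K₁, κ x • x ∧ c ≤ 2 * S.card := by
  by_cases hcase : c ≤ 2 * K₁.card
  · exact ⟨K₁, hK, κ, hκ, rfl, hcase⟩
  · obtain ⟨_, δ, hδ, hrel, _⟩ := hD
    obtain ⟨x₀, hx₀⟩ := hne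
    have hx₀D : x₀ ∈ D := hK.1 hx₀
    have ht : - κ x₀ / δ x₀ ≠ 0 := div_ne_zero (neg_ne_zero.mpr (hκ x₀ hx₀)) (hδ x₀ hx₀D)
    let t : ℚ := - κ x₀ / δ x₀
    let σ : V → ℚ := fun x => (if x ∈ K₁ then κ x else 0) + t * δ x
    let S : Finset V := D.filter (fun x => σ x ≠ 0)
    have hx₀S : x₀ ∉ S := by
      intro h
      have h2 := (Finset.mem_filter.mp h).2
      apply h2
      show (if x₀ ∈ K₁ then κ x₀ else 0) + t * δ x₀ = 0
      rw [if_pos hx₀]
      show κ x₀ + - κ x₀ / δ x₀ * δ x₀ = 0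
      rw [div_mul_cancel₀ _ (hδ x₀ hx₀D)]
      ring
    have hsub : D \ S ⊆ K₁ := by
      intro x hx
      rw [Finset.mem_sdiff] at hx
      by_contra hxK
      apply hx.2
      refine Finset.mem_filter.mpr ⟨hx.1, ?_⟩
      show (if x ∈ K₁ then κ x else 0) + t * δ x ≠ 0
      rw [if_neg hxK, zero_add]
      exact mul_ne_zero ht (hδ x hx.1)
    refine ⟨S, ?_, σ, fun x hx => (Finset.mem_filter.mp hx).2, ?_, ?_⟩
    · rw [Finset.ssubset_iff_of_subset (Finset.filter_subset _ _)]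
      exact ⟨x₀, hx₀D, hx₀S⟩
    · have h1 : ∑ x ∈ S, σ x • x = ∑ x ∈ D, σ x • x := by
        apply Finset.sum_subset (Finset.filter_subset _ _)
        intro x hxD hxS
        have h2 : σ x = 0 := by
          by_contra h3
          exact hxS (Finset.mem_filter.mpr ⟨hxD, h3⟩)
        rw [h2, zero_smul]
      rw [h1]
      have h4 : ∑ x ∈ D, σ x • x =
          ∑ x ∈ D, (if x ∈ K₁ then κ x else 0) • x + t • ∑ x ∈ D, δ x • x := by
        rw [Finset.smul_sum, ← Finset.sum_add_distrib]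
        refine Finset.sum_congr rfl fun x _ => ?_
        show ((if x ∈ K₁ then κ x else 0) + t * δ x) • x = _
        rw [add_smul, mul_smul]
      rw [h4, hrel, smul_zero, add_zero, g1_sum_ite hK.1]
    · have h5 : (D \ S).card ≤ K₁.card := Finset.card_le_card hsub
      have h6 : (D \ S).card + S.card = D.card := by
        have := Finset.card_sdiff_add_card_eq_card (Finset.filter_subset (fun x => σ x ≠ 0) D)
        exact this
      omega

end Pool.Agent.Lib.H73H
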