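import Pool.Agent.Lib.H73H.G1

set_option autoImplicit false

namespace Pool.Agent.Lib.H73H

open Classical Module Submodule

variable {V : Type} [AddCommGroup V] [Module ℚ V]

/-! K4: the large circuit. -/

/-- The relation is `σ` on `S`, `τ` on `T`, `κ` on `A` (the three sets are pairwise disjoint). For
a relation `μ` on `S ∪ T ∪ A` use `h2` with `v' = ∑ S μ x • x`, `w' = ∑ T μ x • x`, `α = μ`: then
`∑ S (μ x - θ σ x) • x = 0`, `S` is independent, so `μ = θ σ` on `S`, and `μ = θ τ` on `T`. -/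
theorem k4 {S T A D₁ D₂ : Finset V} {v w : V} {κ σ τ : V → ℚ}
    (hS : Ind S) (hT : Ind T) (hSD : S ⊆ D₁) (hTD : T ⊆ D₂)
    (hST : Disjoint S T) (hSA : Disjoint S A) (hTA : Disjoint T A) (hne : A.Nonempty)
    (hv : ∑ x ∈ S, σ x • x = v) (hw : ∑ x ∈ T, τ x • x = w)
    (hrel : v + w + ∑ x ∈ A, κ x • x = 0)
    (hσ : ∀ x ∈ S, σ x ≠ 0) (hτ : ∀ x ∈ T, τ x ≠ 0) (hκ : ∀ x ∈ A, κ x ≠ 0)
    (h2 : ∀ (v' w' : V) (α : V → ℚ), v' ∈ span ℚ (D₁ : Set V) → w' ∈ span ℚ (D₂ : Set V) →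
      v' + w' + ∑ x ∈ A, α x • x = 0 →
      ∃ θ : ℚ, v' = θ • v ∧ w' = θ • w ∧ ∀ x ∈ A, α x = θ * κ x) :
    IsCirc (S ∪ T ∪ A) := by
  have hdis : Disjoint (S ∪ T) A := Finset.disjoint_union_left.mpr ⟨hSA, hTA⟩
  have hsum : ∀ f : V → V, ∑ x ∈ S ∪ T ∪ A, f x = ∑ x ∈ S, f x + ∑ x ∈ T, f x + ∑ x ∈ A, f x := by
    intro f
    rw [Finset.sum_union hdis, Finset.sum_union hST]
  obtain ⟨ρ, hρ⟩ : ∃ ρ : V → ℚ, ρ = fun x => if x ∈ S then σ x else if x ∈ T then τ x else κ x := ⟨_, rfl⟩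
  have hρS : ∀ x ∈ S, ρ x = σ x := by
    intro x hx
    rw [hρ]
    exact if_pos hx
  have hρT : ∀ x ∈ T, ρ x = τ x := by
    intro x hx
    have h1 : x ∉ S := fun h => (Finset.disjoint_left.mp hST) h hx
    rw [hρ]
    simp only [if_neg h1, if_pos hx]
  have hρA : ∀ x ∈ A, ρ x = κ x := by
    intro x hx
    have h1 : x ∉ S := fun h => (Finset.disjoint_left.mp hSA) h hx
    have h2 : x ∉ T := fun h => (Finset.disjoint_left.mp hTA) h hx
    rw [hρ]
    simp only [if_neg h1, if_neg h2]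
  obtain ⟨x₀, hx₀⟩ := hne
  refine ⟨⟨x₀, Finset.mem_union_right _ hx₀⟩, ρ, ?_, ?_, ?_⟩
  · intro x hx
    rcases Finset.mem_union.mp hx with h | h
    · rcases Finset.mem_union.mp h with h | h
      · rw [hρS x h]
        exact hσ x h
      · rw [hρT x h]
        exact hτ x h
    · rw [hρA x h]
      exact hκ x h
  · rw [hsum, Finset.sum_congr rfl (fun x hx => by rw [hρS x hx] : ∀ x ∈ S, ρ x • x = σ x • x),
      Finset.sum_congr rfl (fun x hx => by rw [hρT x hx] : ∀ x ∈ T, ρ x • x = τ x • x),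
      Finset.sum_congr rfl (fun x hx => by rw [hρA x hx] : ∀ x ∈ A, ρ x • x = κ x • x), hv, hw, hrel]
  · intro μ hμ
    rw [hsum] at hμ
    have hSm : ∑ x ∈ S, μ x • x ∈ span ℚ (D₁ : Set V) :=
      Submodule.sum_mem _ (fun x hx => Submodule.smul_mem _ _ (subset_span (hSD hx)))
    have hTm : ∑ x ∈ T, μ x • x ∈ span ℚ (D₂ : Set V) :=
      Submodule.sum_mem _ (fun x hx => Submodule.smul_mem _ _ (subset_span (hTD hx)))
    obtain ⟨θ, h3, h4, h5⟩ := h2 _ _ μ hSm hTm hμ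
    refine ⟨θ, ?_⟩
    intro x hx
    rcases Finset.mem_union.mp hx with h | h
    · rcases Finset.mem_union.mp h with h | h
      · rw [hρS x h]
        have h6 : ∑ x ∈ S, (μ x - θ * σ x) • x = 0 := by
          rw [← hv] at h3
          rw [Finset.smul_sum] at h3
          rw [← sub_eq_zero, ← Finset.sum_sub_distrib] at h3
          rw [← h3]
          apply Finset.sum_congr rfl
          intro y _
          rw [sub_smul, mul_smul]
        exact sub_eq_zero.mp (hS _ h6 x h)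
      · rw [hρT x h]
        have h6 : ∑ x ∈ T, (μ x - θ * τ x) • x = 0 := by
          rw [← hw] at h4
          rw [Finset.smul_sum] at h4
          rw [← sub_eq_zero, ← Finset.sum_sub_distrib] at h4
          rw [← h4]
          apply Finset.sum_congr rfl
          intro y _
          rw [sub_smul, mul_smul]
        exact sub_eq_zero.mp (hT _ h6 x h)
    · rw [hρA x h]
      exact h5 x h

end Pool.Agent.Lib.H73H
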