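import Pool.Agent.Lib.H73H.K1
import Pool.Agent.Lib.H73H.K2
import Pool.Agent.Lib.H73H.K3
import Pool.Agent.Lib.H73H.K4

set_option autoImplicit false

namespace Pool.Agent.Lib.H73H

open Classical Module Submodule

variable {V : Type} [AddCommGroup V] [Module ℚ V]

/-! K5: Lemma K. -/

/-- the case of a circuit inside `D₁ ∪ D₂`: with the relation `κ` of `K`,
`∑ (K ∩ D₁) κ x • x = - ∑ (K ∩ D₂) κ x • x` is in both spans, so it is zero, but `K ∩ D₁` is a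
proper subset of `K` (because `K ∩ D₂` is not empty and `D₁`, `D₂` are disjoint), so it is
independent: contradiction. -/
theorem k5_base {D₁ D₂ K : Finset V} (hD : Disjoint D₁ D₂)
    (hd : Disjoint (span ℚ (D₁ : Set V)) (span ℚ (D₂ : Set V))) (hK : IsCirc K)
    (hs : K ⊆ D₁ ∪ D₂) (h1 : (K ∩ D₁).Nonempty) (h2 : (K ∩ D₂).Nonempty) : False := by
  obtain ⟨-, κ, hκ, hrel, -⟩ := id hK
  have hKu : K = (K ∩ D₁) ∪ (K ∩ D₂) := by
    rw [← Finset.inter_union_distrib_left, Finset.inter_eq_left.2 hs]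
  have hdis : Disjoint (K ∩ D₁) (K ∩ D₂) :=
    hD.mono Finset.inter_subset_right Finset.inter_subset_right
  have hsum : ∑ x ∈ K ∩ D₁, κ x • x + ∑ x ∈ K ∩ D₂, κ x • x = 0 := by
    rw [← Finset.sum_union hdis, ← hKu]
    exact hrel
  have m1 : ∑ x ∈ K ∩ D₁, κ x • x ∈ span ℚ (D₁ : Set V) :=
    sum_mem fun x hx => smul_mem _ _ (subset_span (Finset.mem_inter.1 hx).2)
  have m2 : ∑ x ∈ K ∩ D₁, κ x • x ∈ span ℚ (D₂ : Set V) := by
    rw [eq_neg_of_add_eq_zero_left hsum]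
    exact neg_mem (sum_mem fun x hx => smul_mem _ _ (subset_span (Finset.mem_inter.1 hx).2))
  have h0 : ∑ x ∈ K ∩ D₁, κ x • x = 0 := by
    have := hd.le_bot ⟨m1, m2⟩
    rwa [mem_bot] at this
  have hss : K ∩ D₁ ⊂ K := by
    rw [Finset.ssubset_iff_subset_ne]
    refine ⟨Finset.inter_subset_left, fun h => ?_⟩
    obtain ⟨x, hx⟩ := h2
    rw [Finset.mem_inter] at hx
    have hx1 : x ∈ K ∩ D₁ := by rw [h]; exact hx.1
    exact Finset.disjoint_left.1 hD (Finset.mem_inter.1 hx1).2 hx.2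
  obtain ⟨x, hx⟩ := h1
  exact hκ x (Finset.mem_inter.1 hx).1 (hK.ind_of_ssubset hss κ h0 x hx)

/-- the step: `K` is a circuit meeting both, `A = K \ (D₁ ∪ D₂)` is not empty, and no circuit of
`E` meeting both has fewer elements outside `D₁ ∪ D₂`. `κ` = relation of `K`, `v`, `w` = the sums
over `K ∩ D₁`, `K ∩ D₂`. `A` is independent, `v, w ∉ span A` (else `(K ∩ D₁) ∪ A`, a proper subset
of `K`, would be dependent). `hR1`, `hR2` of `k2`: otherwise `k1` (with `A₁ ⊂ A`, `Ind A₁`) gives a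
circuit in `D₁ ∪ D₂ ∪ A₁` meeting both with fewer elements outside. `K ∩ D₁ ⊂ D₁` (else
`D₁ ⊆ K`, `D₁ = K` by `IsCirc.eq_of_subset`, but `K` meets `D₂`), `k3` gives `S`, `T`; `k2` and `k4`
give the circuit `S ∪ T ∪ A` with at least `c + 1` elements. -/
theorem k5_step {E : Finset V} {c : ℕ} (hE : ∀ K ⊆ E, IsCirc K → K.card ≤ c)
    {D₁ D₂ : Finset V} (s1 : D₁ ⊆ E) (s2 : D₂ ⊆ E) (c1 : IsCirc D₁) (c2 : IsCirc D₂)
    (n1 : D₁.card = c) (n2 : D₂.card = c) (hD : Disjoint D₁ D₂)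
    {K : Finset V} (hKE : K ⊆ E) (hK : IsCirc K) (h1 : (K ∩ D₁).Nonempty)
    (h2 : (K ∩ D₂).Nonempty) (hA : (K \ (D₁ ∪ D₂)).Nonempty)
    (hmin : ∀ K' ⊆ E, IsCirc K' → (K' ∩ D₁).Nonempty → (K' ∩ D₂).Nonempty →
      (K \ (D₁ ∪ D₂)).card ≤ (K' \ (D₁ ∪ D₂)).card) : False := by
  obtain ⟨-, κ, hκ, hrel, -⟩ := id hK
  set A := K \ (D₁ ∪ D₂) with hAdef
  have hAK : A ⊆ K := Finset.sdiff_subset
  have dA1 : Disjoint D₁ A := by
    rw [Finset.disjoint_left]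
    intro x hx hxA
    rw [hAdef, Finset.mem_sdiff] at hxA
    exact hxA.2 (Finset.mem_union_left _ hx)
  have dA2 : Disjoint D₂ A := by
    rw [Finset.disjoint_left]
    intro x hx hxA
    rw [hAdef, Finset.mem_sdiff] at hxA
    exact hxA.2 (Finset.mem_union_right _ hx)
  have d12 : Disjoint (K ∩ D₁) (K ∩ D₂) :=
    hD.mono Finset.inter_subset_right Finset.inter_subset_right
  have dA1' : Disjoint (K ∩ D₁) A := dA1.mono_left Finset.inter_subset_right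
  have dA2' : Disjoint (K ∩ D₂) A := dA2.mono_left Finset.inter_subset_right
  have hKu : K = ((K ∩ D₁) ∪ (K ∩ D₂)) ∪ A := by
    ext x
    simp only [hAdef, Finset.mem_union, Finset.mem_inter, Finset.mem_sdiff]
    tauto
  have hsum : ∑ x ∈ K ∩ D₁, κ x • x + ∑ x ∈ K ∩ D₂, κ x • x + ∑ x ∈ A, κ x • x = 0 := by
    rw [← Finset.sum_union d12, ← Finset.sum_union (Finset.disjoint_union_left.2 ⟨dA1', dA2'⟩),
      ← hKu]
    exact hrel
  set v := ∑ x ∈ K ∩ D₁, κ x • x with hv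
  set w := ∑ x ∈ K ∩ D₂, κ x • x with hw
  have mv : v ∈ span ℚ (D₁ : Set V) :=
    sum_mem fun x hx => smul_mem _ _ (subset_span (Finset.mem_inter.1 hx).2)
  have mw : w ∈ span ℚ (D₂ : Set V) :=
    sum_mem fun x hx => smul_mem _ _ (subset_span (Finset.mem_inter.1 hx).2)
  have hss1 : (K ∩ D₁) ∪ A ⊂ K := by
    rw [Finset.ssubset_iff_subset_ne]
    refine ⟨Finset.union_subset Finset.inter_subset_left hAK, fun h => ?_⟩
    obtain ⟨x, hx⟩ := h2
    have hxK : x ∈ K ∩ D₁ ∪ A := by rw [h]; exact (Finset.mem_inter.1 hx).1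
    rcases Finset.mem_union.1 hxK with hx' | hx'
    · exact Finset.disjoint_left.1 d12 hx' hx
    · exact Finset.disjoint_left.1 dA2' hx hx'
  have hss2 : (K ∩ D₂) ∪ A ⊂ K := by
    rw [Finset.ssubset_iff_subset_ne]
    refine ⟨Finset.union_subset Finset.inter_subset_left hAK, fun h => ?_⟩
    obtain ⟨x, hx⟩ := h1
    have hxK : x ∈ K ∩ D₂ ∪ A := by rw [h]; exact (Finset.mem_inter.1 hx).1
    rcases Finset.mem_union.1 hxK with hx' | hx'
    · exact Finset.disjoint_left.1 d12 hx hx'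
    · exact Finset.disjoint_left.1 dA1' hx hx'
  have hIA : Ind A := (hK.ind_of_ssubset hss1).mono Finset.subset_union_right
  have hnot : ∀ {D : Finset V}, Disjoint (K ∩ D) A → (K ∩ D) ∪ A ⊂ K → (K ∩ D).Nonempty →
      ∑ x ∈ K ∩ D, κ x • x ∉ span ℚ (A : Set V) := by
    intro D hdis hss hne hmem
    rw [mem_span_finset] at hmem
    obtain ⟨f, -, hf⟩ := hmem
    have hi := hK.ind_of_ssubset hss
    obtain ⟨x, hx⟩ := hne
    have h3 := hi (fun z => if z ∈ A then - f z else κ z) (by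
      rw [Finset.sum_union hdis]
      have e1 : ∑ z ∈ K ∩ D, (if z ∈ A then - f z else κ z) • z = ∑ z ∈ K ∩ D, κ z • z :=
        Finset.sum_congr rfl fun z hz => by
          rw [if_neg (Finset.disjoint_left.1 hdis hz)]
      have e2 : ∑ z ∈ A, (if z ∈ A then - f z else κ z) • z = - ∑ z ∈ A, f z • z := by
        rw [← Finset.sum_neg_distrib]
        exact Finset.sum_congr rfl fun z hz => by rw [if_pos hz, neg_smul]
      rw [e1, e2, hf, add_neg_cancel]) x (Finset.mem_union_left _ hx)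
    rw [if_neg (Finset.disjoint_left.1 hdis hx)] at h3
    exact hκ x (Finset.mem_inter.1 hx).1 h3
  have hvA : v ∉ span ℚ (A : Set V) := hnot dA1' hss1 h1
  have hwA : w ∉ span ℚ (A : Set V) := hnot dA2' hss2 h2
  have hcardlt : ∀ A₁ ⊂ A, ∀ K' ⊆ D₁ ∪ D₂ ∪ A₁, IsCirc K' → (K' ∩ D₁).Nonempty →
      (K' ∩ D₂).Nonempty → False := by
    intro A₁ hA₁ K' hK' hc' m1 m2
    have hK'E : K' ⊆ E := hK'.trans (Finset.union_subset (Finset.union_subset s1 s2)
      (hA₁.1.trans (hAK.trans hKE)))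
    have h3 := hmin K' hK'E hc' m1 m2
    have h4 : K' \ (D₁ ∪ D₂) ⊆ A₁ := by
      intro x hx
      rw [Finset.mem_sdiff] at hx
      rcases Finset.mem_union.1 (hK' hx.1) with h | h
      · exact absurd h hx.2
      · exact h
    have h5 := Finset.card_le_card h4
    have h6 := Finset.card_lt_card hA₁
    omega
  have hR1 : ∀ A₁ ⊂ A, ∀ p ∈ span ℚ (D₁ : Set V), p ∈ span ℚ ((D₂ ∪ A₁ : Finset V) : Set V) →
      p ∈ span ℚ (A₁ : Set V) := by
    intro A₁ hA₁ p hp hp'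
    by_contra hcon
    obtain ⟨K', hK', hc', m1, m2⟩ := k1 (hIA.mono hA₁.1) hD hp hp' hcon
    exact hcardlt A₁ hA₁ K' hK' hc' m1 m2
  have hR2 : ∀ A₁ ⊂ A, ∀ p ∈ span ℚ (D₂ : Set V), p ∈ span ℚ ((D₁ ∪ A₁ : Finset V) : Set V) →
      p ∈ span ℚ (A₁ : Set V) := by
    intro A₁ hA₁ p hp hp'
    by_contra hcon
    obtain ⟨K', hK', hc', m1, m2⟩ := k1 (hIA.mono hA₁.1) hD.symm hp hp' hcon
    refine hcardlt A₁ hA₁ K' ?_ hc' m2 m1
    rw [Finset.union_comm D₁ D₂]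
    exact hK'
  have hprop1 : K ∩ D₁ ⊂ D₁ := by
    rw [Finset.ssubset_iff_subset_ne]
    refine ⟨Finset.inter_subset_right, fun h => ?_⟩
    have h3 : D₁ = K := hK.eq_of_subset c1 (Finset.inter_eq_right.1 h)
    obtain ⟨x, hx⟩ := h2
    rw [← h3] at hx
    exact Finset.disjoint_left.1 hD (Finset.mem_inter.1 hx).1 (Finset.mem_inter.1 hx).2
  have hprop2 : K ∩ D₂ ⊂ D₂ := by
    rw [Finset.ssubset_iff_subset_ne]
    refine ⟨Finset.inter_subset_right, fun h => ?_⟩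
    have h3 : D₂ = K := hK.eq_of_subset c2 (Finset.inter_eq_right.1 h)
    obtain ⟨x, hx⟩ := h1
    rw [← h3] at hx
    exact Finset.disjoint_left.1 hD (Finset.mem_inter.1 hx).2 (Finset.mem_inter.1 hx).1
  obtain ⟨S, hS, σ, hσ, hσs, hSc⟩ := k3 c1 n1 hprop1 h1
    (fun x hx => hκ x (Finset.mem_inter.1 hx).1)
  obtain ⟨T, hT, τ, hτ, hτs, hTc⟩ := k3 c2 n2 hprop2 h2
    (fun x hx => hκ x (Finset.mem_inter.1 hx).1)
  have hST : Disjoint S T := hD.mono hS.1 hT.1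
  have hSA : Disjoint S A := dA1.mono_left hS.1
  have hTA : Disjoint T A := dA2.mono_left hT.1
  have hcirc : IsCirc (S ∪ T ∪ A) := by
    refine k4 (D₁ := D₁) (D₂ := D₂) (v := v) (w := w) (κ := κ) (c1.ind_of_ssubset hS)
      (c2.ind_of_ssubset hT) hS.1 hT.1 hST hSA hTA hA hσs hτs hsum hσ hτ
      (fun x hx => hκ x (hAK hx)) ?_
    intro v' w' α hv' hw' hrel'
    exact k2 hIA hA mv mw hsum (fun x hx => hκ x (hAK hx)) hvA hwA hR1 hR2 hv' hw' hrel'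
  have h3 := hE (S ∪ T ∪ A) (Finset.union_subset (Finset.union_subset (hS.1.trans s1)
    (hT.1.trans s2)) (hAK.trans hKE)) hcirc
  rw [Finset.card_union_of_disjoint (Finset.disjoint_union_left.2 ⟨hSA, hTA⟩),
    Finset.card_union_of_disjoint hST] at h3
  have h4 := hA.card_pos
  omega

/-- Lemma K: `D₁`, `D₂` are disjoint (a common element is nonzero by `IsCirc.ne_zero` and in both
spans). Take a counterexample `K` with `(K \ (D₁ ∪ D₂)).card` minimal. -/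
theorem lemK {E : Finset V} {c : ℕ} (hc2 : 2 ≤ c) (hE : ∀ K ⊆ E, IsCirc K → K.card ≤ c)
    {D₁ D₂ : Finset V} (s1 : D₁ ⊆ E) (s2 : D₂ ⊆ E) (c1 : IsCirc D₁) (c2 : IsCirc D₂)
    (n1 : D₁.card = c) (n2 : D₂.card = c)
    (hd : Disjoint (span ℚ (D₁ : Set V)) (span ℚ (D₂ : Set V))) :
    ∀ K ⊆ E, IsCirc K → ¬ ((K ∩ D₁).Nonempty ∧ (K ∩ D₂).Nonempty) := by
  have hD : Disjoint D₁ D₂ := by
    rw [Finset.disjoint_left]
    intro x h1 h2
    have h0 : x ≠ 0 := c1.ne_zero (by omega) h1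
    have := hd.le_bot ⟨subset_span h1, subset_span h2⟩
    rw [mem_bot] at this
    exact h0 this
  intro K hKE hK hboth
  let P : ℕ → Prop := fun n => ∃ K ⊆ E, IsCirc K ∧ (K ∩ D₁).Nonempty ∧ (K ∩ D₂).Nonempty ∧
    (K \ (D₁ ∪ D₂)).card = n
  have hP : ∃ n, P n := ⟨_, K, hKE, hK, hboth.1, hboth.2, rfl⟩
  obtain ⟨K₀, hK₀E, hK₀, m1, m2, hn⟩ := Nat.find_spec hP
  have hmin : ∀ K' ⊆ E, IsCirc K' → (K' ∩ D₁).Nonempty → (K' ∩ D₂).Nonempty →
      (K₀ \ (D₁ ∪ D₂)).card ≤ (K' \ (D₁ ∪ D₂)).card := by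
    intro K' h1 h2 h3 h4
    rw [hn]
    exact Nat.find_min' hP ⟨K', h1, h2, h3, h4, rfl⟩
  by_cases hA : (K₀ \ (D₁ ∪ D₂)).Nonempty
  · exact k5_step hE s1 s2 c1 c2 n1 n2 hD hK₀E hK₀ m1 m2 hA hmin
  · rw [Finset.not_nonempty_iff_eq_empty, Finset.sdiff_eq_empty_iff_subset] at hA
    exact k5_base hD hd hK₀ hA m1 m2

end Pool.Agent.Lib.H73H
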