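import Pool.Agent.Lib.H73H.G1

set_option autoImplicit false

namespace Pool.Agent.Lib.H73H

open Classical Module Submodule

variable {V : Type} [AddCommGroup V] [Module ℚ V]

/-! L0: the property `BdN` passes to quotients. -/

theorem BdN.mono {N c : ℕ} {S S' : Set V} (h : BdN N c S) (hs : S' ⊆ S) : BdN N c S' := by
  intro G F hG hF hsm hr
  exact h G F (hG.trans hs) (hF.trans hs) hsm hr

private theorem l0_finrank [Module.Finite ℚ V] (U W : Submodule ℚ V) (h : U ≤ W) :
    finrank ℚ W = finrank ℚ (W.map U.mkQ) + finrank ℚ U := by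
  have h1 := LinearMap.finrank_range_add_finrank_ker (U.mkQ.domRestrict W)
  have e1 : LinearMap.range (U.mkQ.domRestrict W) = W.map U.mkQ := by
    rw [LinearMap.range_domRestrict]
  have e2 : LinearMap.ker (U.mkQ.domRestrict W) = U.submoduleOf W := by
    rw [LinearMap.ker_domRestrict, Submodule.ker_mkQ]
    rfl
  rw [e1, e2] at h1
  rw [← h1]
  congr 1
  exact (Submodule.submoduleOfEquivOfLe h).finrank_eq

/-- Let `U = span G₁`, `π = U.mkQ`. Given `G', F'` inside `π '' S`, choose preimages in `S` for all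
elements, this gives finite sets `G`, `F` inside `S` with `π '' G = G'`, `π '' F = F'`,
`F.card = F'.card`. Let `G₀ = G₁ ∪ G`. Then `comap π (span G') = span G₀` (as `U ≤ span G₀`
and `map π (span G₀) = span (π '' G₀) = span G'`), so `F` is simple modulo `span G₀`, and
`finrank (span G₀) = finrank (span G') + finrank U` (and the same for `G₀ ∪ F`, `G' ∪ F'`). Apply
`h` to `G₀`, `F`. -/
theorem bdN_quot [Module.Finite ℚ V] {N c : ℕ} {S : Set V} (h : BdN N c S) {G₁ : Finset V}
    (hG : (G₁ : Set V) ⊆ S) : BdN N c ((span ℚ (G₁ : Set V)).mkQ '' S) := by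
  set U := span ℚ (G₁ : Set V) with hU
  intro G' F' hG' hF' hsm hr
  obtain ⟨G, hGS, hGi⟩ := Finset.subset_set_image_iff.1 hG'
  have hch : ∀ y : V ⧸ U, ∃ x : V, y ∈ F' → (x ∈ S ∧ U.mkQ x = y) := by
    intro y
    by_cases hy : y ∈ F'
    · obtain ⟨x, hx, hxy⟩ := hF' hy
      exact ⟨x, fun _ => ⟨hx, hxy⟩⟩
    · exact ⟨0, fun h => absurd h hy⟩
  choose g hg using hch
  set F : Finset V := F'.image g with hF
  have hinj : Set.InjOn g (F' : Set (V ⧸ U)) := by
    intro a ha b hb hab
    rw [← (hg a ha).2, ← (hg b hb).2, hab]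
  have hcard : F.card = F'.card := Finset.card_image_of_injOn hinj
  have hFS : (F : Set V) ⊆ S := by
    intro x hx
    rw [Finset.mem_coe, hF, Finset.mem_image] at hx
    obtain ⟨y, hy, rfl⟩ := hx
    exact (hg y hy).1
  have hFm : ∀ x ∈ F, U.mkQ x ∈ F' := by
    intro x hx
    rw [hF, Finset.mem_image] at hx
    obtain ⟨y, hy, rfl⟩ := hx
    rw [(hg y hy).2]
    exact hy
  have hFi : U.mkQ '' (F : Set V) = (F' : Set (V ⧸ U)) := by
    ext y
    constructor
    · rintro ⟨x, hx, rfl⟩
      exact hFm x hx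
    · intro hy
      exact ⟨g y, by rw [hF]; exact Finset.mem_coe.2 (Finset.mem_image_of_mem g hy), (hg y hy).2⟩
  have hGi' : U.mkQ '' (G : Set V) = (G' : Set (V ⧸ U)) := by
    rw [← hGi, Finset.coe_image]
  have hmapU : (span ℚ (G₁ : Set V)).map U.mkQ = ⊥ := by
    rw [← hU, Submodule.mkQ_map_self]
  have hUle : U ≤ span ℚ ((G₁ ∪ G : Finset V) : Set V) := by
    rw [hU]
    exact span_mono (Finset.coe_subset.2 Finset.subset_union_left)
  have hmap0 : (span ℚ ((G₁ ∪ G : Finset V) : Set V)).map U.mkQ = span ℚ (G' : Set (V ⧸ U)) := by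
    rw [Finset.coe_union, span_union, Submodule.map_sup, hmapU, bot_sup_eq, Submodule.map_span,
      hGi']
  have hmap1 : (span ℚ (((G₁ ∪ G : Finset V) : Set V) ∪ (F : Set V))).map U.mkQ =
      span ℚ ((G' : Set (V ⧸ U)) ∪ (F' : Set (V ⧸ U))) := by
    rw [span_union, Submodule.map_sup, hmap0, Submodule.map_span, hFi, span_union]
  have hUle1 : U ≤ span ℚ (((G₁ ∪ G : Finset V) : Set V) ∪ (F : Set V)) :=
    hUle.trans (span_mono Set.subset_union_left)
  rw [← hcard]
  refine h (G₁ ∪ G) F ?_ hFS ?_ ?_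
  · rw [Finset.coe_union]
    exact Set.union_subset hG hGS
  · constructor
    · intro x hx hxs
      refine hsm.1 (U.mkQ x) (hFm x hx) ?_
      rw [← hmap0]
      exact Submodule.mem_map_of_mem hxs
    · intro x hx y hy hxy l hl
      rw [hF, Finset.mem_image] at hx hy
      obtain ⟨x', hx', rfl⟩ := hx
      obtain ⟨y', hy', rfl⟩ := hy
      have hne : x' ≠ y' := fun he => hxy (by rw [he])
      refine hsm.2 x' hx' y' hy' hne l ?_
      rw [← hmap0]
      have := Submodule.mem_map_of_mem (f := U.mkQ) hl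
      rw [map_sub, map_smul, (hg x' hx').2, (hg y' hy').2] at this
      exact this
  · rw [l0_finrank U _ hUle, l0_finrank U _ hUle1, hmap0, hmap1]
    omega

end Pool.Agent.Lib.H73H
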