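import Pool.Agent.Lib.H73H.G1
import Pool.Agent.Lib.H73H.G2

set_option autoImplicit false

namespace Pool.Agent.Lib.H73H

open Classical Module Submodule

variable {V : Type} [AddCommGroup V] [Module ℚ V]

/-! L1: images in the quotient. `mkQ x = mkQ y` iff `x - y ∈ U`; `SimpleMod U R` implies that
`mkQ` is injective on `R` (take `l = 1`). -/

theorem l1_injOn {U : Submodule ℚ V} {R : Finset V} (h : SimpleMod U R) :
    Set.InjOn U.mkQ (R : Set V) := by
  intro x hx y hy hxy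
  by_contra hne
  apply h.2 y hy x hx (Ne.symm hne) 1
  rw [one_smul]
  exact (Submodule.Quotient.eq U).mp hxy

theorem l1_sum {U : Submodule ℚ V} {K : Finset V} (h : Set.InjOn U.mkQ (K : Set V)) (μ : V ⧸ U → ℚ) :
    ∑ y ∈ img U K, μ y • y = U.mkQ (∑ x ∈ K, μ (U.mkQ x) • x) := by
  unfold img
  rw [Finset.sum_image h, map_sum]
  apply Finset.sum_congr rfl
  intro x _
  rw [map_smul]

theorem l1_lift {U : Submodule ℚ V} {K : Finset V} (h : Set.InjOn U.mkQ (K : Set V)) (μ : V → ℚ) :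
    ∃ μ' : V ⧸ U → ℚ, ∀ x ∈ K, μ' (U.mkQ x) = μ x := by
  refine ⟨fun y => μ (Function.invFunOn U.mkQ (K : Set V) y), fun x hx => ?_⟩
  show μ (Function.invFunOn U.mkQ (K : Set V) (U.mkQ x)) = μ x
  rw [h.leftInvOn_invFunOn hx]

theorem l1_lift_sum {U : Submodule ℚ V} {K : Finset V} (h : Set.InjOn U.mkQ (K : Set V)) {μ : V → ℚ}
    {μ' : V ⧸ U → ℚ} (hμ' : ∀ x ∈ K, μ' (U.mkQ x) = μ x) :
    ∑ y ∈ img U K, μ' y • y = U.mkQ (∑ x ∈ K, μ x • x) := by
  rw [l1_sum h]
  apply congrArg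
  apply Finset.sum_congr rfl
  intro x hx
  rw [hμ' x hx]

theorem img_card {U : Submodule ℚ V} {R : Finset V} (h : SimpleMod U R) :
    (img U R).card = R.card := by
  unfold img
  exact Finset.card_image_of_injOn (l1_injOn h)

theorem img_simple {U : Submodule ℚ V} {R : Finset V} (h : SimpleMod U R) :
    SimpleMod ⊥ (img U R) := by
  constructor
  · intro y hy hy0
    obtain ⟨x, hx, rfl⟩ := mem_img.mp hy
    rw [Submodule.mem_bot] at hy0
    exact h.1 x hx ((Submodule.Quotient.mk_eq_zero U).mp hy0)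
  · intro y hy z hz hne l hl
    obtain ⟨x, hx, rfl⟩ := mem_img.mp hy
    obtain ⟨x', hx', rfl⟩ := mem_img.mp hz
    rw [Submodule.mem_bot, ← map_smul, ← map_sub] at hl
    have hne' : x ≠ x' := by
      intro h1
      exact hne (by rw [h1])
    exact h.2 x hx x' hx' hne' l ((Submodule.Quotient.mk_eq_zero U).mp hl)

/-- `K = R.filter (mkQ x ∈ K')`; a coefficient function `κ'` on the quotient gives
`κ x = κ' (mkQ x)`; a coefficient function `μ` on `K` gives `μ'` on the quotient,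
`μ' y = μ (the unique x ∈ K over y)`, and `∑ y ∈ K', μ' y • y = mkQ (∑ x ∈ K, μ x • x)`. -/
theorem img_circ {U : Submodule ℚ V} {R : Finset V} (h : SimpleMod U R)
    {K' : Finset (V ⧸ U)} (hK : K' ⊆ img U R) (hc : IsCirc K') :
    ∃ K ⊆ R, K.card = K'.card ∧ CircMod U K := by
  obtain ⟨K, hKd⟩ : ∃ K, K = R.filter (fun x => U.mkQ x ∈ K') := ⟨_, rfl⟩
  have hKR : K ⊆ R := by
    rw [hKd]
    exact Finset.filter_subset _ _
  have hinj : Set.InjOn U.mkQ (K : Set V) := (l1_injOn h).mono (fun x hx => hKR hx)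
  have himg : img U K = K' := by
    ext y
    rw [mem_img]
    constructor
    · rintro ⟨x, hx, rfl⟩
      rw [hKd] at hx
      exact (Finset.mem_filter.mp hx).2
    · intro hy
      obtain ⟨x, hx, hxy⟩ := mem_img.mp (hK hy)
      refine ⟨x, ?_, hxy⟩
      rw [hKd]
      refine Finset.mem_filter.mpr ⟨hx, ?_⟩
      rw [hxy]
      exact hy
  obtain ⟨⟨y₀, hy₀⟩, κ, hκ, hrel, hall⟩ := hc
  refine ⟨K, hKR, ?_, ?_, fun x => κ (U.mkQ x), ?_, ?_, ?_⟩
  · rw [← himg]
    unfold img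
    exact (Finset.card_image_of_injOn hinj).symm
  · rw [← himg] at hy₀
    obtain ⟨x, hx, -⟩ := mem_img.mp hy₀
    exact ⟨x, hx⟩
  · intro x hx
    apply hκ
    rw [← himg]
    exact mem_img.mpr ⟨x, hx, rfl⟩
  · rw [← himg, l1_sum hinj] at hrel
    exact (Submodule.Quotient.mk_eq_zero U).mp hrel
  · intro μ hμ
    obtain ⟨μ', hμ'⟩ := l1_lift hinj μ
    have h1 := l1_lift_sum hinj hμ'
    have h2 : U.mkQ (∑ x ∈ K, μ x • x) = 0 := (Submodule.Quotient.mk_eq_zero U).mpr hμ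
    rw [h2, himg] at h1
    obtain ⟨θ, hθ⟩ := hall μ' h1
    refine ⟨θ, fun x hx => ?_⟩
    rw [← hμ' x hx]
    apply hθ
    rw [← himg]
    exact mem_img.mpr ⟨x, hx, rfl⟩

/-- converse direction for independence -/
theorem img_ind {U : Submodule ℚ V} {R : Finset V} (h : SimpleMod U R) (hi : Ind (img U R)) :
    IndMod U R := by
  intro μ hμ x hx
  obtain ⟨μ', hμ'⟩ := l1_lift (l1_injOn h) μ
  have h1 := l1_lift_sum (l1_injOn h) hμ'
  have h2 : U.mkQ (∑ x ∈ R, μ x • x) = 0 := (Submodule.Quotient.mk_eq_zero U).mpr hμ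
  rw [h2] at h1
  rw [← hμ' x hx]
  exact hi μ' h1 _ (mem_img.mpr ⟨x, hx, rfl⟩)

/-- a subset which is not independent modulo `U` contains a circuit modulo `U` (via `img_ind`,
`img_simple` for the subset, `exists_circ` and `img_circ`; or directly as in `G2`) -/
theorem exists_circMod {U : Submodule ℚ V} {R : Finset V} (h : SimpleMod U R)
    (hn : ¬ IndMod U R) : ∃ K ⊆ R, CircMod U K := by
  have h1 : ¬ Ind (img U R) := fun hi => hn (img_ind h hi)
  obtain ⟨K', hK', hc⟩ := exists_circ h1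
  obtain ⟨K, hK, -, hKc⟩ := img_circ h hK' hc
  exact ⟨K, hK, hKc⟩

end Pool.Agent.Lib.H73H
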