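import Pool.Agent.Lib.H73H.G1

set_option autoImplicit false

namespace Pool.Agent.Lib.H73H

open Classical Module Submodule

variable {V : Type} [AddCommGroup V] [Module ℚ V]

/-! L2: representatives. -/

theorem SimpleMod.mono {U : Submodule ℚ V} {R R' : Finset V} (h : SimpleMod U R)
    (hs : R' ⊆ R) : SimpleMod U R' :=
  ⟨fun x hx => h.1 x (hs hx), fun x hx y hy => h.2 x (hs hx) y (hs hy)⟩

/-- Take `R ⊆ F` of maximal cardinality with `SimpleMod U R`. If `x ∈ F` has no `r ∈ R` with
`x - l • r ∈ U`, `l ≠ 0`, then `insert x R` is simple modulo `U`. (`l = 0` is impossible as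
`x ∉ U`; for `y - l • x ∈ U` with `y ∈ R` we have `l ≠ 0` as `y ∉ U`, and
`x - l⁻¹ • y ∈ U`.) -/
theorem reps {U : Submodule ℚ V} {F : Finset V} (hF : ∀ x ∈ F, x ∉ U) :
    ∃ R ⊆ F, SimpleMod U R ∧ ∀ x ∈ F, ∃ r ∈ R, ∃ l : ℚ, l ≠ 0 ∧ x - l • r ∈ U := by
  have hne : (F.powerset.filter (fun R => SimpleMod U R)).Nonempty := by
    refine ⟨∅, Finset.mem_filter.mpr ⟨Finset.empty_mem_powerset F, ?_, ?_⟩⟩
    · intro x hx
      exact absurd hx (Finset.notMem_empty x)
    · intro x hx
      exact absurd hx (Finset.notMem_empty x)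
  obtain ⟨R, hR, hmax⟩ := Finset.exists_max_image _ Finset.card hne
  rw [Finset.mem_filter, Finset.mem_powerset] at hR
  refine ⟨R, hR.1, hR.2, ?_⟩
  intro x hx
  by_contra hcon
  push Not at hcon
  have hxR : x ∉ R := by
    intro h
    have := hcon x h 1 one_ne_zero
    apply this
    rw [one_smul, sub_self]
    exact U.zero_mem
  have hs : SimpleMod U (insert x R) := by
    constructor
    · intro y hy
      rcases Finset.mem_insert.mp hy with rfl | hy
      · exact hF _ hx
      · exact hR.2.1 y hy
    · intro y hy z hz hyz l hl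
      rcases Finset.mem_insert.mp hy with rfl | hy
      · rcases Finset.mem_insert.mp hz with rfl | hz
        · exact hyz rfl
        · -- z - l y in U, z in R
          have hl0 : l ≠ 0 := by
            rintro rfl
            rw [zero_smul, sub_zero] at hl
            exact hR.2.1 z hz hl
          apply hcon z hz l⁻¹ (inv_ne_zero hl0)
          have h1 := U.smul_mem (-l⁻¹) hl
          have h2 : (-l⁻¹) • (z - l • y) = y - l⁻¹ • z := by
            rw [smul_sub, smul_smul, neg_mul, inv_mul_cancel₀ hl0, neg_smul, neg_smul, one_smul]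
            abel
          rwa [h2] at h1
      · rcases Finset.mem_insert.mp hz with hzx | hz
        · rw [hzx] at hl
          have hl0 : l ≠ 0 := by
            intro hl0
            rw [hl0, zero_smul, sub_zero] at hl
            exact hF _ hx hl
          exact hcon y hy l hl0 hl
        · exact hR.2.2 y hy z hz hyz l hl
  have h3 := hmax (insert x R) (Finset.mem_filter.mpr ⟨Finset.mem_powerset.mpr
    (Finset.insert_subset hx hR.1), hs⟩)
  rw [Finset.card_insert_of_notMem hxR] at h3
  omega

end Pool.Agent.Lib.H73H
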