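import Pool.Agent.Lib.H73H.G3

set_option autoImplicit false

namespace Pool.Agent.Lib.H73H

open Classical Module Submodule

variable {V : Type} [AddCommGroup V] [Module ℚ V]

/-! L3: maximal families of circuits with independent spans. -/

/-- the sum of the spans of a family -/
def UU (𝒟 : Finset (Finset V)) : Submodule ℚ V :=
  span ℚ ((𝒟.biUnion id : Finset V) : Set V)

theorem sup_eq_UU (𝒟 : Finset (Finset V)) :
    𝒟.sup (fun D => span ℚ (D : Set V)) = UU 𝒟 := by
  unfold UU
  apply le_antisymm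
  · refine Finset.sup_le fun D hD => span_mono ?_
    intro x hx
    simp only [Finset.coe_biUnion, id, Set.mem_iUnion]
    exact ⟨D, by exact_mod_cast hD, hx⟩
  · refine span_le.2 ?_
    intro x hx
    simp only [Finset.coe_biUnion, id, Set.mem_iUnion] at hx
    obtain ⟨D, hD, hx⟩ := hx
    have h1 : span ℚ (D : Set V) ≤ 𝒟.sup (fun D => span ℚ (D : Set V)) :=
      Finset.le_sup (f := fun D : Finset V => span ℚ (D : Set V)) (by exact_mod_cast hD)
    exact h1 (subset_span hx)

/-- a maximal family of circuits of size `c` in `E` with independent spans -/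
structure Fam (c : ℕ) (E : Finset V) (𝒟 : Finset (Finset V)) : Prop where
  circ : ∀ D ∈ 𝒟, D ⊆ E ∧ IsCirc D ∧ D.card = c
  indep : 𝒟.SupIndep (fun D => span ℚ (D : Set V))
  max : ∀ D ⊆ E, IsCirc D → D.card = c → ¬ Disjoint (span ℚ (D : Set V)) (UU 𝒟)

theorem l3_ne_bot {D : Finset V} (h : IsCirc D) (h2 : 2 ≤ D.card) :
    span ℚ (D : Set V) ≠ ⊥ := by
  obtain ⟨x, hx⟩ := h.1
  intro hb
  have : x ∈ span ℚ (D : Set V) := subset_span hx
  rw [hb, mem_bot] at this
  exact h.ne_zero h2 hx this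

/-- Take a family of maximal cardinality inside `E.powerset` with the first two properties. If
`D` violates `max` then `D ∉ 𝒟` (its span is not `⊥` by `IsCirc.ne_zero`, and it is inside
`UU 𝒟` if `D ∈ 𝒟`), and `insert D 𝒟` is independent by `Finset.SupIndep.insert`. -/
theorem exists_fam (E : Finset V) {c : ℕ} (hc : 2 ≤ c) :
    ∃ 𝒟 : Finset (Finset V), Fam c E 𝒟 := by
  set T : Finset (Finset (Finset V)) := E.powerset.powerset.filter
    (fun 𝒟 => (∀ D ∈ 𝒟, D ⊆ E ∧ IsCirc D ∧ D.card = c) ∧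
      𝒟.SupIndep (fun D => span ℚ (D : Set V))) with hT
  have hne : T.Nonempty := by
    refine ⟨∅, ?_⟩
    rw [hT, Finset.mem_filter]
    refine ⟨by simp, by simp, ?_⟩
    exact Finset.supIndep_empty _
  obtain ⟨𝒟, h𝒟, hmax⟩ := Finset.exists_max_image T Finset.card hne
  rw [hT, Finset.mem_filter] at h𝒟
  obtain ⟨h0, h1, h2⟩ := h𝒟
  refine ⟨𝒟, h1, h2, ?_⟩
  intro D hDE hD hDc hdis
  have hnot : D ∉ 𝒟 := by
    intro hmem
    have hle : span ℚ (D : Set V) ≤ UU 𝒟 := by
      rw [← sup_eq_UU]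
      exact Finset.le_sup (f := fun D : Finset V => span ℚ (D : Set V)) hmem
    exact l3_ne_bot hD (by omega) (hdis.eq_bot_of_le hle)
  have hins : insert D 𝒟 ∈ T := by
    rw [hT, Finset.mem_filter]
    refine ⟨?_, ?_, ?_⟩
    · rw [Finset.mem_powerset, Finset.insert_subset_iff]
      exact ⟨Finset.mem_powerset.2 hDE, Finset.mem_powerset.1 h0⟩
    · intro D' hD'
      rcases Finset.mem_insert.1 hD' with rfl | h
      · exact ⟨hDE, hD, hDc⟩
      · exact h1 D' h
    · refine Finset.SupIndep.insert h2 ?_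
      rw [sup_eq_UU]
      exact hdis
  have := hmax _ hins
  rw [Finset.card_insert_of_notMem hnot] at this
  omega

/-- induction on the family: the spans are not `⊥` and independent -/
theorem Fam.card_le [Module.Finite ℚ V] {c : ℕ} (hc : 2 ≤ c) {E : Finset V}
    {𝒟 : Finset (Finset V)} (h : Fam c E 𝒟) : 𝒟.card ≤ finrank ℚ (UU 𝒟) := by
  have main : ∀ ℱ : Finset (Finset V), ℱ ⊆ 𝒟 → ℱ.card ≤ finrank ℚ (UU ℱ) := by
    intro ℱ
    induction ℱ using Finset.induction_on with
    | empty => intro _; simp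
    | insert D ℱ hD ih =>
      intro hs
      rw [Finset.insert_subset_iff] at hs
      have h1 := ih hs.2
      have hdis : Disjoint (span ℚ (D : Set V)) (UU ℱ) := by
        rw [← sup_eq_UU]
        exact h.indep hs.2 hs.1 hD
      have heq : UU (insert D ℱ) = span ℚ (D : Set V) ⊔ UU ℱ := by
        rw [← sup_eq_UU, ← sup_eq_UU, Finset.sup_insert]
      have hf := Submodule.finrank_sup_add_finrank_inf_eq (span ℚ (D : Set V)) (UU ℱ)
      rw [disjoint_iff.1 hdis, finrank_bot, ← heq] at hf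
      have hpos : 0 < finrank ℚ (span ℚ (D : Set V)) := by
        have hcD := h.circ D hs.1
        have hnb := l3_ne_bot hcD.2.1 (by omega)
        rw [Nat.pos_iff_ne_zero]
        intro h0
        exact hnb (Submodule.finrank_eq_zero.1 h0)
      rw [Finset.card_insert_of_notMem hD]
      omega
  exact main 𝒟 (Finset.Subset.refl _)

theorem Fam.disjoint_pair {c : ℕ} {E : Finset V} {𝒟 : Finset (Finset V)} (h : Fam c E 𝒟)
    {D D' : Finset V} (hD : D ∈ 𝒟) (hD' : D' ∈ 𝒟) (hne : D ≠ D') :
    Disjoint (span ℚ (D : Set V)) (span ℚ (D' : Set V)) :=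
  h.indep.pairwiseDisjoint (by exact_mod_cast hD) (by exact_mod_cast hD') hne

/-- three members: if `D'`, `D''` are different from `D`, then `span D` meets
`span D' ⊔ span D''` in zero -/
theorem Fam.disjoint_triple {c : ℕ} {E : Finset V} {𝒟 : Finset (Finset V)} (h : Fam c E 𝒟)
    {D D' D'' : Finset V} (hD : D ∈ 𝒟) (hD' : D' ∈ 𝒟) (hD'' : D'' ∈ 𝒟) (hne : D' ≠ D)
    (hne' : D'' ≠ D) :
    Disjoint (span ℚ (D : Set V)) (span ℚ (D' : Set V) ⊔ span ℚ (D'' : Set V)) := by
  have hs : ({D', D''} : Finset (Finset V)) ⊆ 𝒟 := by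
    rw [Finset.insert_subset_iff, Finset.singleton_subset_iff]
    exact ⟨hD', hD''⟩
  have hn : D ∉ ({D', D''} : Finset (Finset V)) := by
    simp only [Finset.mem_insert, Finset.mem_singleton, not_or]
    exact ⟨hne.symm, hne'.symm⟩
  have := h.indep hs hD hn
  simpa only [Finset.sup_insert, Finset.sup_singleton] using this

end Pool.Agent.Lib.H73H
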