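import Pool.Agent.Lib.H73H.L3
import Pool.Agent.Lib.H73H.K5
import Pool.Agent.Lib.H73H.G4
import Pool.Agent.Lib.H73H.G5

set_option autoImplicit false

namespace Pool.Agent.Lib.H73H

open Classical Module Submodule

variable {V : Type} [AddCommGroup V] [Module ℚ V]

/-! L4: claims (1) and (2) for pairs. -/

/-- Otherwise `T` has an element in some `D ∈ 𝒟` and an element not in `D`, it lies in
`D' ∈ 𝒟`, `D' ≠ D`; `K` meets `D` and `D'`, against `lemK` (`Fam.disjoint_pair`). -/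
theorem l4_one {N c c₀ : ℕ} (hc : 2 ≤ c) {E : Finset V} (h : LHyp N c c₀ E)
    {𝒟 : Finset (Finset V)} (hF : Fam c E 𝒟) {T K : Finset V} (hT : T ⊆ 𝒟.biUnion id)
    (hne : T.Nonempty) (hK : K ⊆ E) (hcirc : IsCirc K) (hTK : T ⊆ K) : ∃ D ∈ 𝒟, T ⊆ D := by
  obtain ⟨x, hx⟩ := hne
  have hxD := hT hx
  simp only [Finset.mem_biUnion, id] at hxD
  obtain ⟨D, hD, hxD⟩ := hxD
  refine ⟨D, hD, ?_⟩
  intro y hy
  by_contra hyD
  have hyD' := hT hy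
  simp only [Finset.mem_biUnion, id] at hyD'
  obtain ⟨D', hD', hyD'⟩ := hyD'
  have hne' : D ≠ D' := by
    rintro rfl
    exact hyD hyD'
  have c1 := hF.circ D hD
  have c2 := hF.circ D' hD'
  exact lemK hc h.circ c1.1 c2.1 c1.2.1 c2.2.1 c1.2.2 c2.2.2 (hF.disjoint_pair hD hD' hne') K hK
    hcirc ⟨⟨x, Finset.mem_inter.2 ⟨hTK hx, hxD⟩⟩, ⟨y, Finset.mem_inter.2 ⟨hTK hy, hyD'⟩⟩⟩

theorem l4_sub {c : ℕ} {E : Finset V} {𝒟 : Finset (Finset V)} (hF : Fam c E 𝒟) {T : Finset V}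
    (hT : T ⊆ 𝒟.biUnion id) : T ⊆ E := by
  intro y hy
  have hyD' := hT hy
  simp only [Finset.mem_biUnion, id] at hyD'
  obtain ⟨D', hD', hyD'⟩ := hyD'
  exact (hF.circ D' hD').1 hyD'

theorem l4_sum {T D : Finset V} (h : T ⊆ D) (τ : V → ℚ) :
    ∑ x ∈ T, τ x • x ∈ span ℚ (D : Set V) :=
  sum_mem fun x hx => smul_mem _ _ (subset_span (h hx))

/-- Claim (1): `min_rep` gives `T` (not empty as `x ≠ 0`). If `x ∈ T`, then `x` is in some `D`.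
Otherwise `insert x T` is a circuit (`isCirc_insert`), so `T ⊆ D` (`l4_one`), `x ∈ span D`. -/
theorem l4_two {N c c₀ : ℕ} (hc : 2 ≤ c) {E : Finset V} (h : LHyp N c c₀ E)
    {𝒟 : Finset (Finset V)} (hF : Fam c E 𝒟) {x : V} (hx : x ∈ E) (hxU : x ∈ UU 𝒟) :
    ∃ D ∈ 𝒟, x ∈ span ℚ (D : Set V) := by
  obtain ⟨T, hTD, hTi, τ, hτ, hsum⟩ := min_rep hxU
  have hxne : x ≠ 0 := by
    intro h0
    exact h.simple.1 x hx ((mem_bot ℚ).2 h0)
  by_cases hxT : x ∈ T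
  · have hyD' := hTD hxT
    simp only [Finset.mem_biUnion, id] at hyD'
    obtain ⟨D', hD', hyD'⟩ := hyD'
    exact ⟨D', hD', subset_span hyD'⟩
  · have hTne : T.Nonempty := by
      rw [Finset.nonempty_iff_ne_empty]
      rintro rfl
      exact hxne (by simpa using hsum)
    have hcirc := isCirc_insert hTi hτ hsum hxT
    obtain ⟨D, hD, hTD'⟩ := l4_one hc h hF hTD hTne
      (Finset.insert_subset_iff.2 ⟨hx, l4_sub hF hTD⟩) hcirc (Finset.subset_insert _ _)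
    refine ⟨D, hD, ?_⟩
    rw [hsum]
    exact l4_sum hTD' τ

/-- Claim (2) for pairs: `min_rep` for `u = x₂ - l • x₁`, `T` is not empty as `u ≠ 0` (simple);
`isCirc_insert_two` with `U = UU 𝒟`, `l4_one`. -/
theorem l4_three {N c c₀ : ℕ} (hc : 2 ≤ c) {E : Finset V} (h : LHyp N c c₀ E)
    {𝒟 : Finset (Finset V)} (hF : Fam c E 𝒟) {x₁ x₂ : V} (h1 : x₁ ∈ E) (h2 : x₂ ∈ E)
    (hU : x₁ ∉ UU 𝒟) (hne : x₁ ≠ x₂) {l : ℚ} (hl : l ≠ 0) (hu : x₂ - l • x₁ ∈ UU 𝒟) :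
    ∃ D ∈ 𝒟, x₂ - l • x₁ ∈ span ℚ (D : Set V) := by
  obtain ⟨T, hTD, hTi, τ, hτ, hsum⟩ := min_rep hu
  have hTne : T.Nonempty := by
    rw [Finset.nonempty_iff_ne_empty]
    rintro rfl
    exact h.simple.2 x₁ h1 x₂ h2 hne l ((mem_bot ℚ).2 (by simpa using hsum))
  have hcirc := isCirc_insert_two (U := UU 𝒟) (T := T) (τ := τ) hTi
    (fun y hy => subset_span (hTD hy)) hτ hl hU hne (x₂ := x₂)
    (by rw [← hsum]; abel)
  obtain ⟨D, hD, hTD'⟩ := l4_one hc h hF hTD hTne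
    (Finset.insert_subset_iff.2 ⟨h2, Finset.insert_subset_iff.2 ⟨h1, l4_sub hF hTD⟩⟩) hcirc
    ((Finset.subset_insert _ _).trans (Finset.subset_insert _ _))
  refine ⟨D, hD, ?_⟩
  rw [hsum]
  exact l4_sum hTD' τ

end Pool.Agent.Lib.H73H
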