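import Pool.Agent.Lib.H73H.L4
import Pool.Agent.Lib.H73H.L2

set_option autoImplicit false

namespace Pool.Agent.Lib.H73H

open Classical Module Submodule

variable {V : Type} [AddCommGroup V] [Module ℚ V]

/-! L5: classes modulo `UU 𝒟` have at most `N` elements. -/

theorem l5_span_le {𝒟 : Finset (Finset V)} {D : Finset V} (hD : D ∈ 𝒟) :
    span ℚ (D : Set V) ≤ UU 𝒟 := by
  unfold UU
  apply span_mono
  intro x hx
  rw [Finset.mem_coe, Finset.mem_biUnion]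
  exact ⟨D, hD, hx⟩

theorem l5_aux {N c c₀ : ℕ} (hc : 2 ≤ c) {E : Finset V} (h : LHyp N c c₀ E)
    {𝒟 : Finset (Finset V)} (hF : Fam c E 𝒟) {x₁ x₂ x₃ : V} (h1 : x₁ ∈ E) (h2 : x₂ ∈ E)
    (h3 : x₃ ∈ E) (hU : x₁ ∉ UU 𝒟) (h12 : x₁ ≠ x₂) (h13 : x₁ ≠ x₃) (h23 : x₂ ≠ x₃)
    {l₂ l₃ : ℚ} (hl₂ : l₂ ≠ 0) (hl₃ : l₃ ≠ 0) {D D' : Finset V} (hD : D ∈ 𝒟) (hD' : D' ∈ 𝒟)
    (hu₂ : x₂ - l₂ • x₁ ∈ span ℚ (D : Set V)) (hu₃ : x₃ - l₃ • x₁ ∈ span ℚ (D' : Set V))
    (hne : D' ≠ D) : False := by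
  have e : x₃ - (l₃ / l₂) • x₂ = (x₃ - l₃ • x₁) - (l₃ / l₂) • (x₂ - l₂ • x₁) := by
    rw [smul_sub, smul_smul, div_mul_cancel₀ _ hl₂]
    abel
  have hu₂U := l5_span_le hD hu₂
  have hu₃U := l5_span_le hD' hu₃
  have hx₂U : x₂ ∉ UU 𝒟 := by
    intro hx
    apply hU
    have h4 := (UU 𝒟).sub_mem hx hu₂U
    rw [sub_sub_cancel] at h4
    have h5 := (UU 𝒟).smul_mem l₂⁻¹ h4
    rwa [smul_smul, inv_mul_cancel₀ hl₂, one_smul] at h5
  have h6 : x₃ - (l₃ / l₂) • x₂ ∈ UU 𝒟 := by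
    rw [e]
    exact (UU 𝒟).sub_mem hu₃U ((UU 𝒟).smul_mem _ hu₂U)
  obtain ⟨D'', hD'', h7⟩ := l4_three hc h hF h2 h3 hx₂U h23 (div_ne_zero hl₃ hl₂) h6
  have hu₂0 : x₂ - l₂ • x₁ ≠ 0 := by
    intro h0
    apply h.simple.2 x₁ h1 x₂ h2 h12 l₂
    rw [h0]
    exact Submodule.zero_mem _
  have hu₃0 : x₃ - l₃ • x₁ ≠ 0 := by
    intro h0
    apply h.simple.2 x₁ h1 x₃ h3 h13 l₃
    rw [h0]
    exact Submodule.zero_mem _
  by_cases hDD : D'' = D
  · rw [hDD] at h7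
    have h8 : x₃ - l₃ • x₁ ∈ span ℚ (D : Set V) := by
      have h9 : x₃ - l₃ • x₁ = (x₃ - (l₃ / l₂) • x₂) + (l₃ / l₂) • (x₂ - l₂ • x₁) := by
        rw [e]
        abel
      rw [h9]
      exact Submodule.add_mem _ h7 (Submodule.smul_mem _ _ hu₂)
    have h10 := Submodule.disjoint_def.mp (hF.disjoint_pair hD hD' (Ne.symm hne)) _ h8 hu₃
    exact hu₃0 h10
  · have h8 : (l₃ / l₂) • (x₂ - l₂ • x₁) ∈
        span ℚ (D' : Set V) ⊔ span ℚ (D'' : Set V) := by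
      have h9 : (l₃ / l₂) • (x₂ - l₂ • x₁) = (x₃ - l₃ • x₁) - (x₃ - (l₃ / l₂) • x₂) := by
        rw [e]
        abel
      rw [h9]
      exact Submodule.sub_mem _ (Submodule.mem_sup_left hu₃) (Submodule.mem_sup_right h7)
    have h10 := Submodule.disjoint_def.mp (hF.disjoint_triple hD hD' hD'' hne hDD) _
      (Submodule.smul_mem _ _ hu₂) h8
    rcases smul_eq_zero.mp h10 with h11 | h11
    · exact div_ne_zero hl₃ hl₂ h11
    · exact hu₂0 h11

/-- Three elements of one class use the same `D`: `u₂ = x₂ - l₂ • x₁ ∈ span D`,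
`u₃ = x₃ - l₃ • x₁ ∈ span D'`, and `x₃ - (l₃ / l₂) • x₂ = u₃ - (l₃ / l₂) • u₂ ∈ span D''` by
`l4_three` (if `x₂ = x₃` everything is trivial, see the hypothesis). If `D' ≠ D`: in case
`D'' = D` the vector `u₃` is in `span D` and in `span D'`, so it is zero; in case `D'' ≠ D` the
vector `(l₃ / l₂) • u₂` is in `span D' ⊔ span D''` and in `span D`
(`Fam.disjoint_triple`), so `u₂ = 0`. Both are impossible (simple). -/
theorem l5_one {N c c₀ : ℕ} (hc : 2 ≤ c) {E : Finset V} (h : LHyp N c c₀ E)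
    {𝒟 : Finset (Finset V)} (hF : Fam c E 𝒟) {x₁ x₂ x₃ : V} (h1 : x₁ ∈ E) (h2 : x₂ ∈ E)
    (h3 : x₃ ∈ E) (hU : x₁ ∉ UU 𝒟) (h12 : x₁ ≠ x₂) (h13 : x₁ ≠ x₃) (h23 : x₂ ≠ x₃)
    {l₂ l₃ : ℚ} (hl₂ : l₂ ≠ 0) (hl₃ : l₃ ≠ 0) {D D' : Finset V} (hD : D ∈ 𝒟) (hD' : D' ∈ 𝒟)
    (hu₂ : x₂ - l₂ • x₁ ∈ span ℚ (D : Set V)) (hu₃ : x₃ - l₃ • x₁ ∈ span ℚ (D' : Set V)) :
    D' = D := by
  by_contra hne
  exact l5_aux hc h hF h1 h2 h3 hU h12 h13 h23 hl₂ hl₃ hD hD' hu₂ hu₃ hne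

/-- Claim (2): if the class is `{x₁}` use `1 ≤ N`. Otherwise take `x₂` in it, `x₂ ≠ x₁`, `D` for
`x₂` (`l4_three`); every `x₃` in the class satisfies `x₃ - l₃ • x₁ ∈ span D` (`l5_one`), so the
class is inside `span (insert x₁ D)`, a space of dimension at most `c` (`IsCirc.finrank_span`).
Use `h.bd` with `G = ∅` (`span ∅ = ⊥`) and `F` = the class. -/
theorem l5_two [Module.Finite ℚ V] {N c c₀ : ℕ} (hN : 1 ≤ N) (hc : 2 ≤ c) (hcc : c ≤ c₀)
    {E : Finset V} (h : LHyp N c c₀ E) {𝒟 : Finset (Finset V)} (hF : Fam c E 𝒟) {x₁ : V}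
    (h1 : x₁ ∈ E) (hU : x₁ ∉ UU 𝒟) :
    (E.filter (fun x => ∃ l : ℚ, l ≠ 0 ∧ x - l • x₁ ∈ UU 𝒟)).card ≤ N := by
  by_cases hsub : ∀ x ∈ E.filter (fun x => ∃ l : ℚ, l ≠ 0 ∧ x - l • x₁ ∈ UU 𝒟), x = x₁
  · refine le_trans ?_ hN
    rw [Finset.card_le_one]
    intro a ha b hb
    rw [hsub a ha, hsub b hb]
  · push Not at hsub
    obtain ⟨x₂, hx₂, hne⟩ := hsub
    obtain ⟨h2, l₂, hl₂, hu₂⟩ := Finset.mem_filter.mp hx₂
    obtain ⟨D, hD, hD2⟩ := l4_three hc h hF h1 h2 hU (Ne.symm hne) hl₂ hu₂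
    have hDc := hF.circ D hD
    have hspan : ∀ x ∈ E.filter (fun x => ∃ l : ℚ, l ≠ 0 ∧ x - l • x₁ ∈ UU 𝒟),
        x ∈ span ℚ (insert x₁ (D : Set V)) := by
      intro x₃ hx₃
      obtain ⟨h3, l₃, hl₃, hu₃⟩ := Finset.mem_filter.mp hx₃
      have hx1 : x₁ ∈ span ℚ (insert x₁ (D : Set V)) := subset_span (Set.mem_insert _ _)
      have hDle : span ℚ (D : Set V) ≤ span ℚ (insert x₁ (D : Set V)) :=
        span_mono (Set.subset_insert _ _)
      by_cases h31 : x₁ = x₃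
      · rw [← h31]
        exact hx1
      · have key : x₃ - l₃ • x₁ ∈ span ℚ (D : Set V) ∨ x₂ = x₃ := by
          by_cases h23 : x₂ = x₃
          · exact Or.inr h23
          · left
            obtain ⟨D', hD', hD'2⟩ := l4_three hc h hF h1 h3 hU h31 hl₃ hu₃
            have := l5_one hc h hF h1 h2 h3 hU (Ne.symm hne) h31 h23 hl₂ hl₃ hD hD' hD2 hD'2
            rwa [this] at hD'2
        rcases key with h4 | h4
        · have h5 := Submodule.add_mem _ (hDle h4) (Submodule.smul_mem _ l₃ hx1)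
          rwa [sub_add_cancel] at h5
        · rw [← h4]
          have h5 := Submodule.add_mem _ (hDle hD2) (Submodule.smul_mem _ l₂ hx1)
          rwa [sub_add_cancel] at h5
    have hEsub : ((E.filter (fun x => ∃ l : ℚ, l ≠ 0 ∧ x - l • x₁ ∈ UU 𝒟) : Finset V) : Set V) ⊆
        (E : Set V) := by
      intro x hx
      exact (Finset.mem_filter.mp (Finset.mem_coe.mp hx)).1
    refine h.bd ∅ _ (by rw [Finset.coe_empty]; exact Set.empty_subset _) hEsub ?_ ?_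
    · rw [Finset.coe_empty, span_empty]
      exact ⟨fun x hx => h.simple.1 x (hEsub hx),
        fun x hx y hy => h.simple.2 x (hEsub hx) y (hEsub hy)⟩
    · have h6 : finrank ℚ (span ℚ (insert x₁ (D : Set V))) ≤ c := by
        have h7 : span ℚ (insert x₁ (D : Set V)) = span ℚ {x₁} ⊔ span ℚ (D : Set V) := by
          rw [← Submodule.span_union, Set.singleton_union]
        rw [h7]
        refine (Submodule.finrank_add_le_finrank_add_finrank _ _).trans ?_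
        have h8 := hDc.2.1.finrank_span
        have h9 : finrank ℚ (span ℚ ({x₁} : Set V)) ≤ 1 := by
          have := finrank_span_finset_le_card (R := ℚ) ({x₁} : Finset V)
          rw [Finset.coe_singleton, Finset.card_singleton] at this
          exact this
        have h10 := hDc.2.2
        omega
      have h11 : span ℚ (((∅ : Finset V) : Set V) ∪
          ((E.filter (fun x => ∃ l : ℚ, l ≠ 0 ∧ x - l • x₁ ∈ UU 𝒟) : Finset V) : Set V)) ≤
          span ℚ (insert x₁ (D : Set V)) := by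
        rw [Finset.coe_empty, Set.empty_union, span_le]
        intro x hx
        exact hspan x (Finset.mem_coe.mp hx)
      have h12 := Submodule.finrank_mono h11
      omega

/-- Claim (1), counting: every element of `E` in `UU 𝒟` is in some `span D` (`l4_two`), and for
every `D ∈ 𝒟` the set `F = E.filter (· ∈ span D)` has at most `N` elements: `h.bd` with `G = ∅`
(dimension `c - 1`). -/
theorem l5_three [Module.Finite ℚ V] {N c c₀ : ℕ} (hc : 2 ≤ c) (hcc : c ≤ c₀)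
    {E : Finset V} (h : LHyp N c c₀ E) {𝒟 : Finset (Finset V)} (hF : Fam c E 𝒟) :
    (E.filter (fun x => x ∈ UU 𝒟)).card ≤ N * 𝒟.card := by
  have h1 : E.filter (fun x => x ∈ UU 𝒟) ⊆
      𝒟.biUnion (fun D => E.filter (fun x => x ∈ span ℚ (D : Set V))) := by
    intro x hx
    obtain ⟨hxE, hxU⟩ := Finset.mem_filter.mp hx
    obtain ⟨D, hD, hxD⟩ := l4_two hc h hF hxE hxU
    exact Finset.mem_biUnion.mpr ⟨D, hD, Finset.mem_filter.mpr ⟨hxE, hxD⟩⟩
  refine (Finset.card_le_card h1).trans ?_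
  rw [mul_comm]
  apply Finset.card_biUnion_le_card_mul
  intro D hD
  have hEsub : ((E.filter (fun x => x ∈ span ℚ (D : Set V)) : Finset V) : Set V) ⊆
      (E : Set V) := by
    intro x hx
    exact (Finset.mem_filter.mp (Finset.mem_coe.mp hx)).1
  refine h.bd ∅ _ (by rw [Finset.coe_empty]; exact Set.empty_subset _) hEsub ?_ ?_
  · rw [Finset.coe_empty, span_empty]
    exact ⟨fun x hx => h.simple.1 x (hEsub hx),
      fun x hx y hy => h.simple.2 x (hEsub hx) y (hEsub hy)⟩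
  · have h11 : span ℚ (((∅ : Finset V) : Set V) ∪
        ((E.filter (fun x => x ∈ span ℚ (D : Set V)) : Finset V) : Set V)) ≤
        span ℚ (D : Set V) := by
      rw [Finset.coe_empty, Set.empty_union, span_le]
      intro x hx
      exact (Finset.mem_filter.mp (Finset.mem_coe.mp hx)).2
    have h12 := Submodule.finrank_mono h11
    have h8 := (hF.circ D hD).2.1.finrank_span
    have h10 := (hF.circ D hD).2.2
    omega

end Pool.Agent.Lib.H73H
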