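import Pool.Agent.Lib.H73H.L3
import Pool.Agent.Lib.H73H.G4
import Pool.Agent.Lib.H73H.G5

set_option autoImplicit false

namespace Pool.Agent.Lib.H73H

open Classical Module Submodule

variable {V : Type} [AddCommGroup V] [Module ℚ V]

/-! L6: claim (3). -/

/-- Let `κ` be the relation of `K` modulo `UU 𝒟`, `u = ∑ x ∈ K, κ x • x ∈ UU 𝒟`, `T`, `τ` from
`min_rep` (`T ⊆ 𝒟.biUnion id ⊆ E`). `K ∪ T` is a circuit of `E` (`isCirc_union`), `K` and `T` are
disjoint, so `K.card + T.card ≤ c`. If `c ≤ K.card` then `T = ∅`, `u = 0`, `K` is a circuit of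
size `c`, and `span K` meets `UU 𝒟` in zero (an element `∑ μ x • x` in `UU 𝒟` has `μ = θ κ`, so it
is `θ • u = 0`), against `hF.max`. -/
theorem l6 {N c c₀ : ℕ} {E : Finset V} (h : LHyp N c c₀ E)
    {𝒟 : Finset (Finset V)} (hF : Fam c E 𝒟) {R K : Finset V} (hR : R ⊆ E)
    (hS : SimpleMod (UU 𝒟) R) (hK : K ⊆ R) (hcirc : CircMod (UU 𝒟) K) : K.card + 1 ≤ c := by
  have hcirc' := hcirc
  obtain ⟨hne, κ, hκ, hu, hrel⟩ := hcirc
  obtain ⟨T, hTD, hT, τ, hτ, hTu⟩ := min_rep hu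
  have hTU : (T : Set V) ⊆ UU 𝒟 := by
    intro x hx
    exact subset_span (hTD hx)
  have hKU : ∀ x ∈ K, x ∉ UU 𝒟 := fun x hx => hS.1 x (hK hx)
  have hKT := isCirc_union hcirc' hκ hT hTU hτ hTu hKU
  have hTE : T ⊆ E := by
    intro x hx
    obtain ⟨D, hD, hxD⟩ := Finset.mem_biUnion.mp (hTD hx)
    exact (hF.circ D hD).1 hxD
  have hKE : K ⊆ E := hK.trans hR
  have hdis : Disjoint K T := by
    rw [Finset.disjoint_left]
    intro x hx hx'
    exact hKU x hx (hTU hx')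
  have hcard := h.circ _ (Finset.union_subset hKE hTE) hKT
  rw [Finset.card_union_of_disjoint hdis] at hcard
  by_contra hlt
  have hT0 : T.card = 0 := by omega
  have hKc : K.card = c := by omega
  rw [Finset.card_eq_zero] at hT0
  rw [hT0, Finset.sum_empty] at hTu
  have hKcirc : IsCirc K := by
    refine ⟨hne, κ, hκ, hTu, fun μ hμ => hrel μ ?_⟩
    rw [hμ]
    exact Submodule.zero_mem _
  apply hF.max K hKE hKcirc hKc
  rw [Submodule.disjoint_def]
  intro x hx hxU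
  obtain ⟨f, -, hf⟩ := Submodule.mem_span_finset.mp hx
  rw [← hf] at hxU
  obtain ⟨θ, hθ⟩ := hrel f hxU
  rw [← hf]
  have e : ∑ a ∈ K, f a • a = θ • ∑ a ∈ K, κ a • a := by
    rw [Finset.smul_sum]
    apply Finset.sum_congr rfl
    intro a ha
    rw [hθ a ha, mul_smul]
  rw [e, hTu, smul_zero]

end Pool.Agent.Lib.H73H
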