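import Pool.Agent.Lib.H73H.G2
import Pool.Agent.Lib.H73H.G3

set_option autoImplicit false

namespace Pool.Agent.Lib.H73H

open Classical Module Submodule

variable {V : Type} [AddCommGroup V] [Module ℚ V]

/-! L7: the base case. -/

/-- If `E` is not independent it contains a circuit `K` (`exists_circ`) with at most two elements;
one element: `κ x • x = 0`, `x = 0`; two elements: `x`, `y` are parallel. Both contradict
`h.simple`. -/
theorem l7 [Module.Finite ℚ V] {N c c₀ : ℕ} (hc : c ≤ 2) {E : Finset V}
    (h : LHyp N c c₀ E) : E.card ≤ finrank ℚ V := by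
  by_cases hi : Ind E
  · exact hi.card_le
  · exfalso
    obtain ⟨K, hKE, hK⟩ := exists_circ hi
    have hcard := (h.circ K hKE hK).trans hc
    obtain ⟨hne, κ, hκ, hrel, _⟩ := hK
    have hpos : 0 < K.card := Finset.card_pos.mpr hne
    have h12 : K.card = 1 ∨ K.card = 2 := by omega
    rcases h12 with h1 | h2
    · obtain ⟨x, rfl⟩ := Finset.card_eq_one.mp h1
      rw [Finset.sum_singleton] at hrel
      have hx0 : x = 0 := by
        rcases smul_eq_zero.mp hrel with h3 | h3
        · exact absurd h3 (hκ x (Finset.mem_singleton_self x))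
        · exact h3
      apply h.simple.1 x (hKE (Finset.mem_singleton_self x))
      rw [hx0]
      exact Submodule.zero_mem _
    · obtain ⟨x, y, hxy, rfl⟩ := Finset.card_eq_two.mp h2
      rw [Finset.sum_pair hxy] at hrel
      have hx : x ∈ ({x, y} : Finset V) := Finset.mem_insert_self _ _
      have hy : y ∈ ({x, y} : Finset V) := Finset.mem_insert_of_mem (Finset.mem_singleton_self y)
      apply h.simple.2 x (hKE hx) y (hKE hy) hxy (-(κ y)⁻¹ * κ x)
      rw [Submodule.mem_bot]
      have h3 : y = (κ y)⁻¹ • (κ y • y) := by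
        rw [smul_smul, inv_mul_cancel₀ (hκ y hy), one_smul]
      have h4 : κ y • y = -(κ x • x) := (neg_eq_of_add_eq_zero_right hrel).symm
      have h5 : y = -(κ y)⁻¹ • (κ x • x) := by
        rw [neg_smul, ← smul_neg, ← h4]
        exact h3
      rw [mul_smul, ← h5, sub_self]

end Pool.Agent.Lib.H73H
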