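import Pool.Agent.Lib.H73H.L0
import Pool.Agent.Lib.H73H.L1
import Pool.Agent.Lib.H73H.L2
import Pool.Agent.Lib.H73H.L5
import Pool.Agent.Lib.H73H.L6
import Pool.Agent.Lib.H73H.L7

set_option autoImplicit false

namespace Pool.Agent.Lib.H73H

open Classical Module Submodule

variable {V : Type} [AddCommGroup V] [Module ℚ V]

/-! L8: Lemma L. -/

/-- fibre counting: `F` is covered by the classes of the representatives -/
theorem card_le_classes {U : Submodule ℚ V} {F R : Finset V} {N : ℕ}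
    (hcov : ∀ x ∈ F, ∃ r ∈ R, ∃ l : ℚ, l ≠ 0 ∧ x - l • r ∈ U)
    (hcl : ∀ r ∈ R, (F.filter (fun x => ∃ l : ℚ, l ≠ 0 ∧ x - l • r ∈ U)).card ≤ N) :
    F.card ≤ N * R.card := by
  have hsub : F ⊆ R.biUnion (fun r => F.filter (fun x => ∃ l : ℚ, l ≠ 0 ∧ x - l • r ∈ U)) := by
    intro x hx
    obtain ⟨r, hr, l, hl, hxl⟩ := hcov x hx
    exact Finset.mem_biUnion.mpr ⟨r, hr, Finset.mem_filter.mpr ⟨hx, l, hl, hxl⟩⟩
  calc F.card ≤ _ := Finset.card_le_card hsub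
    _ ≤ ∑ r ∈ R, (F.filter (fun x => ∃ l : ℚ, l ≠ 0 ∧ x - l • r ∈ U)).card :=
      Finset.card_biUnion_le
    _ ≤ ∑ _r ∈ R, N := Finset.sum_le_sum hcl
    _ = N * R.card := by rw [Finset.sum_const, smul_eq_mul, mul_comm]

/-- The step: `𝒟` from `exists_fam`, `R` = representatives modulo `UU 𝒟` of
`F = E.filter (x ∉ UU 𝒟)`; `E' = img (UU 𝒟) R` satisfies `LHyp N c c₀` (`img_simple`; `bdN_quot`
with `G₁ = 𝒟.biUnion id ⊆ E` and `BdN.mono`; `img_circ` and `l6`). So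
`E.card ≤ N * 𝒟.card + N * R.card`, `𝒟.card ≤ finrank (UU 𝒟)`,
`R.card = E'.card ≤ N ^ c * finrank (V ⧸ UU 𝒟)`. -/
theorem l8_step {N c₀ c : ℕ} (hN : 1 ≤ N) (hc : 2 ≤ c) (hcc : c + 1 ≤ c₀)
    (ih : ∀ (W : Type) [AddCommGroup W] [Module ℚ W] [Module.Finite ℚ W] (E : Finset W),
      LHyp N c c₀ E → E.card ≤ N ^ c * finrank ℚ W)
    [Module.Finite ℚ V] (E : Finset V) (h : LHyp N (c + 1) c₀ E) :
    E.card ≤ N ^ (c + 1) * finrank ℚ V := by
  obtain ⟨𝒟, hF⟩ := exists_fam E (c := c + 1) (by omega)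
  obtain ⟨R, hRF, hRS, hRcov⟩ := reps (U := UU 𝒟) (F := E.filter (fun x => x ∉ UU 𝒟)) (by
    intro x hx
    exact (Finset.mem_filter.mp hx).2)
  have hRE : R ⊆ E := hRF.trans (Finset.filter_subset _ _)
  have hDE : ((𝒟.biUnion id : Finset V) : Set V) ⊆ (E : Set V) := by
    intro x hx
    obtain ⟨D, hD, hxD⟩ := Finset.mem_biUnion.mp (Finset.mem_coe.mp hx)
    exact Finset.mem_coe.mpr ((hF.circ D hD).1 hxD)
  have hE' : LHyp N c c₀ (img (UU 𝒟) R) := by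
    refine ⟨img_simple hRS, ?_, ?_⟩
    · have hb := bdN_quot h.bd (G₁ := 𝒟.biUnion id) hDE
      refine hb.mono ?_
      rw [coe_img]
      exact Set.image_mono (Finset.coe_subset.mpr hRE)
    · intro K hK hKc
      obtain ⟨K₀, hK₀, hcard, hcirc⟩ := img_circ hRS hK hKc
      have h6 := l6 h hF hRE hRS hK₀ hcirc
      omega
  have hih := ih (V ⧸ UU 𝒟) (img (UU 𝒟) R) hE'
  rw [img_card hRS] at hih
  have h1 : (E.filter (fun x => x ∉ UU 𝒟)).card ≤ N * R.card := by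
    refine card_le_classes hRcov (fun r hr => ?_)
    have h5 := l5_two hN (by omega) hcc h hF (x₁ := r) (hRE hr) (hRS.1 r hr)
    refine le_trans (Finset.card_le_card ?_) h5
    intro x hx
    have hx' := Finset.mem_filter.mp hx
    exact Finset.mem_filter.mpr ⟨(Finset.mem_filter.mp hx'.1).1, hx'.2⟩
  have h2 := l5_three (by omega) hcc h hF
  have h3 := hF.card_le (by omega)
  have h4 := Submodule.finrank_quotient_add_finrank (UU 𝒟)
  have h5 : (E.filter (fun x => x ∈ UU 𝒟)).card + (E.filter (fun x => x ∉ UU 𝒟)).card = E.card :=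
    Finset.card_filter_add_card_filter_not _
  have hNc : 1 ≤ N ^ c := Nat.one_le_pow _ _ hN
  have h6 : N * 𝒟.card ≤ N ^ (c + 1) * finrank ℚ (UU 𝒟) := by
    calc N * 𝒟.card ≤ N * finrank ℚ (UU 𝒟) := Nat.mul_le_mul_left _ h3
      _ ≤ N * (N ^ c * finrank ℚ (UU 𝒟)) :=
        Nat.mul_le_mul_left _ (Nat.le_mul_of_pos_left _ hNc)
      _ = N ^ (c + 1) * finrank ℚ (UU 𝒟) := by ring
  have h7 : N * R.card ≤ N ^ (c + 1) * finrank ℚ (V ⧸ UU 𝒟) := by
    calc N * R.card ≤ N * (N ^ c * finrank ℚ (V ⧸ UU 𝒟)) := Nat.mul_le_mul_left _ hih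
      _ = N ^ (c + 1) * finrank ℚ (V ⧸ UU 𝒟) := by ring
  calc E.card ≤ N ^ (c + 1) * finrank ℚ (UU 𝒟) + N ^ (c + 1) * finrank ℚ (V ⧸ UU 𝒟) := by omega
    _ = N ^ (c + 1) * (finrank ℚ (V ⧸ UU 𝒟) + finrank ℚ (UU 𝒟)) := by ring
    _ = N ^ (c + 1) * finrank ℚ V := by rw [h4]

/-- Lemma L, induction on `c` (base `c ≤ 2`: `l7`) -/
theorem lemL {N c₀ : ℕ} (hN : 1 ≤ N) : ∀ c ≤ c₀, ∀ (W : Type) [AddCommGroup W] [Module ℚ W]
    [Module.Finite ℚ W] (E : Finset W), LHyp N c c₀ E → E.card ≤ N ^ c * finrank ℚ W := by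
  intro c
  induction c with
  | zero =>
    intro _ W _ _ _ E h
    have := l7 (by omega) h
    simpa using this
  | succ c ih =>
    intro hc W _ _ _ E h
    by_cases h2 : c + 1 ≤ 2
    · have h7 := l7 h2 h
      exact le_trans h7 (Nat.le_mul_of_pos_left _ (Nat.one_le_pow _ _ hN))
    · exact l8_step hN (by omega) hc (ih (by omega)) E h

end Pool.Agent.Lib.H73H
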