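import Pool.Agent.Lib.H73H.R3

set_option autoImplicit false

namespace Pool.Agent.Lib.H73H

open Classical Module Submodule

variable {V : Type} [AddCommGroup V] [Module ℚ V]

theorem n1_mem {G : Finset V} {g : V} (hg : g ∈ G) (z : V) :
    (span ℚ {g}).mkQ z ∈ span ℚ ((img (span ℚ {g}) (G.erase g) : Finset (V ⧸ span ℚ {g})) :
      Set (V ⧸ span ℚ {g})) ↔ z ∈ span ℚ (G : Set V) := by
  rw [coe_img, ← map_span, ← mem_comap, comap_map_eq, ker_mkQ, ← span_union]
  have : ((G.erase g : Finset V) : Set V) ∪ {g} = (G : Set V) := by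
    rw [Finset.coe_erase, Set.sdiff_union_self, Set.union_eq_left]
    exact Set.singleton_subset_iff.2 hg
  rw [this]

theorem img_subset {U : Submodule ℚ V} {R : Finset V} {S : Set V} (h : (R : Set V) ⊆ S) :
    ((img U R : Finset (V ⧸ U)) : Set (V ⧸ U)) ⊆ U.mkQ '' S := by
  rw [coe_img]
  exact Set.image_mono h

/-- Contraction keeps non-uniformity: the witness `G ∋ g`, `x`, `y`, `l` gives
`G' = img (span {g}) (G.erase g)`, `π x`, `π y`, `l` (the preimage of `span G'` is `span G`). -/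
theorem not_unif_contr {k : ℕ} {S : Set V} {G : Finset V} (hG : (G : Set V) ⊆ S)
    (hk : G.card ≤ k + 1) {x y : V} (hx : x ∈ S) (hy : y ∈ S) (hxG : x ∉ span ℚ (G : Set V))
    {l : ℚ} (hl : l ≠ 0) (hyG : y - l • x ∈ span ℚ (G : Set V)) (hl1 : |l| ≠ 1) {g : V}
    (hg : g ∈ G) : ¬ Unif k ((span ℚ {g}).mkQ '' S) := by
  intro hU
  refine hl1 (hU (img (span ℚ {g}) (G.erase g)) ?_ ?_ ((span ℚ {g}).mkQ x) ⟨x, hx, rfl⟩
    ((span ℚ {g}).mkQ y) ⟨y, hy, rfl⟩ ?_ l hl ?_)
  · apply img_subset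
    intro z hz
    exact hG (Finset.mem_of_mem_erase hz)
  · have h1 : (img (span ℚ {g}) (G.erase g)).card ≤ (G.erase g).card := by
      unfold img
      exact Finset.card_image_le
    have h2 := Finset.card_erase_add_one hg
    omega
  · rw [n1_mem hg]
    exact hxG
  · rw [← map_smul, ← map_sub, n1_mem hg]
    exact hyG

theorem nu_aux {Δ n : ℕ} (hN : ThmN Δ) {S : Set V} (h : Sys (Δ + 1) (n + 1) S) {x : V}
    (hx : x ∈ S) (hx0 : x ≠ 0) {l : ℚ} (hl : 1 < |l|) (hy : l • x ∈ S)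
    {E : Finset V} (hE : (E : Set V) ⊆ S) (hs : SimpleMod ⊥ E) :
    2 * E.card ≤ (n + 1) * (n + 2) + 2 * CN Δ * (n + 1) + 2 * C1 (Δ + 1) * (n + 1) := by
  obtain ⟨R, hRE, hRs, hc⟩ := cost h hx hx0 hE hs
  have h1 := hN n _ _ (sys_contr_ratio h hx hx0 hl hy) (img (span ℚ {x}) R)
    (img_subset (fun z hz => hE (hRE hz))) (img_simple hRs)
  rw [img_card hRs] at h1
  nlinarith [Nat.zero_le (CN Δ)]

/-- The case where all elements of `G` are zero: `y = l • x`, `x ≠ 0`, and we may assume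
`|l| > 1` (else exchange `x` and `y`). `cost` with `b = x`, `sys_contr_ratio`, and Theorem N for
`Δ` in the quotient applied to `img (span {x}) R` (`img_simple`, `img_card`). -/
theorem nu_base {Δ n : ℕ} (hN : ThmN Δ) {S : Set V} (h : Sys (Δ + 1) (n + 1) S) {x : V}
    (hx : x ∈ S) (hx0 : x ≠ 0) {l : ℚ} (hl0 : l ≠ 0) (hl : |l| ≠ 1) (hy : l • x ∈ S)
    {E : Finset V} (hE : (E : Set V) ⊆ S) (hs : SimpleMod ⊥ E) :
    2 * E.card ≤ (n + 1) * (n + 2) + 2 * CN Δ * (n + 1) + 2 * C1 (Δ + 1) * (n + 1) := by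
  rcases lt_or_gt_of_ne hl with h1 | h1
  · refine nu_aux hN h (x := l • x) hy (smul_ne_zero hl0 hx0) (l := l⁻¹) ?_ ?_ hE hs
    · rw [abs_inv]
      exact (one_lt_inv₀ (abs_pos.2 hl0)).2 h1
    · rw [smul_smul, inv_mul_cancel₀ hl0, one_smul]
      exact hx
  · exact nu_aux hN h hx hx0 h1 hy hE hs

/-- NU lemma: induction on `k` for all spaces. If all elements of `G` are zero (in particular for
`k = 0`): `nu_base`. Otherwise take `g ∈ G`, `g ≠ 0`: `cost` with `b = g`, the quotient is a system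
(`sys_contr`) and not uniform for `k - 1` (`not_unif_contr`), and the induction hypothesis applies
to `img (span {g}) R`. (`n = 0` is impossible: `x ≠ 0`.) -/
theorem nu {Δ : ℕ} (hN : ThmN Δ) (k : ℕ) : ∀ (n : ℕ) (V : Type) [AddCommGroup V] [Module ℚ V]
    (S : Set V), Sys (Δ + 1) n S → ¬ Unif k S → ∀ E : Finset V, (E : Set V) ⊆ S →
    SimpleMod ⊥ E →
    2 * E.card ≤ n * (n + 1) + 2 * CN Δ * n + 2 * (k + 1) * C1 (Δ + 1) * n := by
  induction k with
  | zero =>
    intro n V _ _ S h hU E hE hs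
    unfold Unif at hU
    push Not at hU
    obtain ⟨G, hG, hk, x, hx, y, hy, hxG, l, hl, hyG, hl1⟩ := hU
    have hG0 : G = ∅ := Finset.card_eq_zero.1 (Nat.le_zero.1 hk)
    subst hG0
    rw [Finset.coe_empty, span_empty, mem_bot] at hxG hyG
    obtain ⟨m, rfl⟩ : ∃ m, n = m + 1 := by
      rcases n with _ | m
      · have := h.fin
        have := finrank_zero_iff.1 h.rank
        exact absurd (Subsingleton.elim x 0) hxG
      · exact ⟨m, rfl⟩
    rw [sub_eq_zero] at hyG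
    have := nu_base hN h hx hxG hl hl1 (hyG ▸ hy) hE hs
    calc 2 * E.card ≤ _ := this
      _ = _ := by ring
  | succ k ih =>
    intro n V _ _ S h hU E hE hs
    unfold Unif at hU
    push Not at hU
    obtain ⟨G, hG, hk, x, hx, y, hy, hxG, l, hl, hyG, hl1⟩ := hU
    have hx0 : x ≠ 0 := by
      rintro rfl
      exact hxG (zero_mem _)
    obtain ⟨m, rfl⟩ : ∃ m, n = m + 1 := by
      rcases n with _ | m
      · have := h.fin
        have := finrank_zero_iff.1 h.rank
        exact absurd (Subsingleton.elim x 0) hx0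
      · exact ⟨m, rfl⟩
    by_cases hg : ∃ g ∈ G, g ≠ 0
    · obtain ⟨g, hgG, hg0⟩ := hg
      obtain ⟨R, hRE, hRs, hc⟩ := cost h (hG hgG) hg0 hE hs
      have h1 := ih m _ _ (sys_contr h (hG hgG) hg0)
        (not_unif_contr hG hk hx hy hxG hl hyG hl1 hgG) (img (span ℚ {g}) R)
        (img_subset (fun z hz => hE (hRE hz))) (img_simple hRs)
      rw [img_card hRs] at h1
      calc 2 * E.card ≤ 2 * R.card + 2 * (C1 (Δ + 1) * (m + 1)) := by omega
        _ ≤ m * (m + 1) + 2 * CN Δ * m + 2 * (k + 1) * C1 (Δ + 1) * m +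
            2 * (C1 (Δ + 1) * (m + 1)) := by omega
        _ ≤ (m + 1) * (m + 1 + 1) + 2 * CN Δ * (m + 1) +
            2 * (k + 1 + 1) * C1 (Δ + 1) * (m + 1) := by
          have h2 : 0 ≤ 2 * (k + 1) * C1 (Δ + 1) := Nat.zero_le _
          have h3 : 0 ≤ 2 * CN Δ := Nat.zero_le _
          nlinarith
    · push Not at hg
      have hspan : span ℚ (G : Set V) = ⊥ := by
        rw [span_eq_bot]
        exact hg
      rw [hspan, mem_bot, sub_eq_zero] at hyG
      have h1 := nu_base hN h hx hx0 hl hl1 (hyG ▸ hy) hE hs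
      calc 2 * E.card ≤ _ := h1
        _ ≤ _ := by
          have h2 : 0 ≤ (k + 1) * C1 (Δ + 1) * (m + 1) := Nat.zero_le _
          nlinarith

end Pool.Agent.Lib.H73H
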