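import Pool.Agent.Lib.H73H.C3
import Pool.Agent.Lib.H73H.B1
import Pool.Agent.Lib.H73H.B2
import Pool.Agent.Lib.H73H.G3

set_option autoImplicit false

namespace Pool.Agent.Lib.H73H

open Classical Module Submodule

variable {V : Type} [AddCommGroup V] [Module ℚ V]

/-! R2: circuits modulo `b` of doubled elements are short. -/

/-- Let `κ` be the relation of `K` modulo `span {b}`, `∑ x ∈ K, κ x • x = β • b`, `y₀ ∈ K`.
`K.erase y₀` is independent modulo `span {b}`, so `insert b (K.erase y₀)` is independent;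
`ext_basis` gives a basis `w : Fin n → V` in `S` containing it; let `i0` be the position of `b`
and `v = update w i0 y₀`; `ω (update v i0 b) = ω w ≠ 0` (`form_ne_zero`). `P` = `{i0}` and the
positions of the elements of `K.erase y₀`, so `P.card = K.card` and `v` maps `P` bijectively to
`K`; `∑ i ∈ P, κ (v i) • v i = β • b`. Choose the partners `v' i`, `l i`, `θ i` by `hd`. Apply
`lemC` with `ν i = κ (v i)`. -/
theorem r2 {Δ n : ℕ} {S : Set V} (h : Sys Δ n S) {b : V} (hb : b ∈ S) (hb0 : b ≠ 0)
    {K : Finset V} (hK : (K : Set V) ⊆ S) (hc : CircMod (span ℚ {b}) K)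
    (hd : ∀ r ∈ K, Doubled b S r) : K.card ≤ 1 + 4 * Δ := by
  haveI := h.fin
  obtain ⟨ω, hω0, hω⟩ := h.form
  obtain ⟨⟨y₀, hy₀⟩, κ, hκ, hrel, _⟩ := id hc
  have hIM : IndMod (span ℚ {b}) (K.erase y₀) :=
    hc.indMod_of_ssubset (Finset.erase_ssubset hy₀)
  have hbU : (({b} : Finset V) : Set V) ⊆ (span ℚ {b} : Submodule ℚ V) := by
    intro x hx
    rw [Finset.coe_singleton] at hx
    exact subset_span hx
  have hIb : Ind ({b} : Finset V) := by
    have h1 : b ∉ span ℚ ((∅ : Finset V) : Set V) := by
      rw [Finset.coe_empty, span_empty, Submodule.mem_bot]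
      exact hb0
    have h2 := ind_insert ind_empty h1
    rwa [insert_empty_eq] at h2
  have hdisj := hIM.disjoint hbU
  have hbK : b ∉ K.erase y₀ := fun hbK =>
    (Finset.disjoint_left.mp hdisj) hbK (Finset.mem_singleton_self b)
  have hInd := ind_union hIM hIb hbU
  have hsub : ((K.erase y₀ ∪ {b} : Finset V) : Set V) ⊆ S := by
    intro x hx
    rcases Finset.mem_union.mp (Finset.mem_coe.mp hx) with h1 | h1
    · exact hK (Finset.mem_of_mem_erase h1)
    · rw [Finset.mem_singleton] at h1
      rw [h1]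
      exact hb
  obtain ⟨w, hwS, hwi, hws, hwG⟩ := ext_basis h hsub hInd
  have hwinj : Function.Injective w := hwi.injective
  obtain ⟨i0, hi0⟩ := hwG b (Finset.mem_union_right _ (Finset.mem_singleton_self b))
  let v : Fin n → V := Function.update w i0 y₀
  have hv0 : v i0 = y₀ := Function.update_self _ _ _
  have hvne : ∀ i, i ≠ i0 → v i = w i := fun i hi => Function.update_of_ne hi _ _
  let P : Finset (Fin n) := insert i0 (Finset.univ.filter (fun i => w i ∈ K.erase y₀))
  have hP0 : i0 ∈ P := Finset.mem_insert_self _ _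
  have hi0' : i0 ∉ Finset.univ.filter (fun i => w i ∈ K.erase y₀) := by
    intro hi
    have := (Finset.mem_filter.mp hi).2
    rw [hi0] at this
    exact hbK this
  have hPK : ∀ i ∈ P, v i ∈ K := by
    intro i hi
    rcases Finset.mem_insert.mp hi with h1 | h1
    · rw [h1, hv0]
      exact hy₀
    · have hne : i ≠ i0 := by
        intro h2
        rw [h2] at h1
        exact hi0' h1
      rw [hvne i hne]
      exact Finset.mem_of_mem_erase (Finset.mem_filter.mp h1).2
  have hinj : ∀ i ∈ P, ∀ j ∈ P, v i = v j → i = j := by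
    have haux : ∀ i ∈ P, ∀ j ∈ P, i ≠ i0 → v i = v j → i = j := by
      intro i hi j hj hne hij
      have hiP : i ∈ Finset.univ.filter (fun i => w i ∈ K.erase y₀) := by
        rcases Finset.mem_insert.mp hi with h1 | h1
        · exact absurd h1 hne
        · exact h1
      by_cases hj0 : j = i0
      · exfalso
        rw [hj0, hv0, hvne i hne] at hij
        have h1 := (Finset.mem_filter.mp hiP).2
        rw [hij] at h1
        exact Finset.notMem_erase y₀ K h1
      · rw [hvne i hne, hvne j hj0] at hij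
        exact hwinj hij
    intro i hi j hj hij
    by_cases hne : i = i0
    · by_cases hj0 : j = i0
      · rw [hne, hj0]
      · exact (haux j hj i hi hj0 hij.symm).symm
    · exact haux i hi j hj hne hij
  have hsurj : ∀ x ∈ K, ∃ i ∈ P, v i = x := by
    intro x hx
    by_cases hxy : x = y₀
    · exact ⟨i0, hP0, by rw [hv0, hxy]⟩
    · have hx' : x ∈ K.erase y₀ := Finset.mem_erase.mpr ⟨hxy, hx⟩
      obtain ⟨i, hi⟩ := hwG x (Finset.mem_union_left _ hx')
      have hne : i ≠ i0 := by
        intro h1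
        rw [h1, hi0] at hi
        rw [← hi] at hx'
        exact hbK hx'
      refine ⟨i, Finset.mem_insert_of_mem (Finset.mem_filter.mpr ⟨Finset.mem_univ i, ?_⟩), ?_⟩
      · rw [hi]
        exact hx'
      · rw [hvne i hne, hi]
  obtain ⟨β, hβ⟩ := Submodule.mem_span_singleton.mp hrel
  have hsum : ∑ i ∈ P, κ (v i) • v i = β • b := by
    rw [hβ]
    exact Finset.sum_bij (fun i _ => v i) hPK (fun i hi j hj hij => hinj i hi j hj hij)
      (fun x hx => by
        obtain ⟨i, hi, hix⟩ := hsurj x hx
        exact ⟨i, hi, hix⟩) (fun i _ => rfl)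
  have hD : ∀ i : Fin n, ∃ r' : V, ∃ l θ : ℚ, i ∈ P → r' ∈ S ∧ l ≠ 0 ∧ θ ≠ 0 ∧
      r' = l • v i + θ • b := by
    intro i
    by_cases hi : i ∈ P
    · obtain ⟨r', hr', l, θ, hl, hθ, he⟩ := hd (v i) (hPK i hi)
      exact ⟨r', l, θ, fun _ => ⟨hr', hl, hθ, he⟩⟩
    · exact ⟨0, 0, 0, fun h1 => absurd h1 hi⟩
  choose v' l θ hD using hD
  have hne : ω (Function.update v i0 b) ≠ 0 := by
    have h1 : Function.update v i0 b = w := by
      show Function.update (Function.update w i0 y₀) i0 b = w
      rw [Function.update_idem, ← hi0, Function.update_eq_self]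
    rw [h1]
    exact form_ne_zero hω0 hwi hws
  have hvS : ∀ i, v i ∈ S := by
    intro i
    by_cases hi : i = i0
    · rw [hi, hv0]
      exact hK hy₀
    · rw [hvne i hi]
      exact hwS i
  have hfin := lemC ω hω hb hvS (P := P) (v' := v') (fun i hi => (hD i hi).1) (l := l) (θ := θ)
    (fun i hi => (hD i hi).2.1) (fun i hi => (hD i hi).2.2.1) (fun i hi => (hD i hi).2.2.2)
    (ν := fun i => κ (v i)) (β := β) (fun i hi => hκ _ (hPK i hi)) hsum hP0 hne
  refine le_trans ?_ hfin
  have himg : K ⊆ P.image v := by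
    intro x hx
    obtain ⟨i, hi, hix⟩ := hsurj x hx
    exact Finset.mem_image.mpr ⟨i, hi, hix⟩
  exact (Finset.card_le_card himg).trans Finset.card_image_le

end Pool.Agent.Lib.H73H
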