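import Pool.Agent.Lib.H73H.X1
import Pool.Agent.Lib.H73H.B1

set_option autoImplicit false

namespace Pool.Agent.Lib.H73H

open Classical Module Submodule

variable {V : Type} [AddCommGroup V] [Module ℚ V]

/-! X2: contraction of a system. -/

/-- `finrank` of the quotient is `n` as `b ≠ 0`; the image of `S` spans; the form is `ω'` of
`contr_form`; for a tuple in `π '' S` choose preimages in `S`. -/
theorem sys_contr {Δ n : ℕ} {S : Set V} (h : Sys Δ (n + 1) S) {b : V} (hb : b ∈ S)
    (hb0 : b ≠ 0) : Sys Δ n ((span ℚ {b}).mkQ '' S) := by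
  haveI := h.fin
  obtain ⟨ω, hω, hint⟩ := h.form
  obtain ⟨ω', hω', hval⟩ := contr_form h.rank hω hb0
  refine ⟨inferInstance, ?_, ?_, ω', hω', ?_⟩
  · have h1 := Submodule.finrank_quotient_add_finrank (span ℚ {b})
    have h2 : finrank ℚ (span ℚ {b}) = 1 := finrank_span_singleton hb0
    have h3 := h.rank
    omega
  · rw [Submodule.span_image, h.span, Submodule.map_top, Submodule.range_mkQ]
  · intro v hv
    choose u hu hu' using hv
    have hvu : v = fun i => (span ℚ {b}).mkQ (u i) := funext fun i => (hu' i).symm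
    rw [hvu, hval]
    refine hint _ ?_
    intro i
    refine Fin.cases ?_ ?_ i
    · rw [Fin.cons_zero]
      exact hb
    · intro j
      rw [Fin.cons_succ]
      exact hu j

/-- the same with `Δ`: `ω (cons (l • x) v) = l * ω (cons x v)` and `|l| > 1` give
`|ω (cons x v)| < Δ + 1` for `v` in `S`, and it is an integer. -/
theorem sys_contr_ratio {Δ n : ℕ} {S : Set V} (h : Sys (Δ + 1) (n + 1) S) {x : V}
    (hx : x ∈ S) (hx0 : x ≠ 0) {l : ℚ} (hl : 1 < |l|) (hy : l • x ∈ S) :
    Sys Δ n ((span ℚ {x}).mkQ '' S) := by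
  haveI := h.fin
  obtain ⟨ω, hω, hint⟩ := h.form
  obtain ⟨ω', hω', hval⟩ := contr_form h.rank hω hx0
  refine ⟨inferInstance, ?_, ?_, ω', hω', ?_⟩
  · have h1 := Submodule.finrank_quotient_add_finrank (span ℚ {x})
    have h2 : finrank ℚ (span ℚ {x}) = 1 := finrank_span_singleton hx0
    have h3 := h.rank
    omega
  · rw [Submodule.span_image, h.span, Submodule.map_top, Submodule.range_mkQ]
  · intro v hv
    choose u hu hu' using hv
    have hvu : v = fun i => (span ℚ {x}).mkQ (u i) := funext fun i => (hu' i).symm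
    rw [hvu, hval]
    have hmem : ∀ y ∈ S, ∀ i, (Fin.cons y u : Fin (n + 1) → V) i ∈ S := by
      intro y hy i
      refine Fin.cases ?_ ?_ i
      · rw [Fin.cons_zero]
        exact hy
      · intro j
        rw [Fin.cons_succ]
        exact hu j
    obtain ⟨z, hz, hz'⟩ := hint (Fin.cons x u) (hmem x hx)
    obtain ⟨t, ht, ht'⟩ := hint (Fin.cons (l • x) u) (hmem _ hy)
    have hlz : ω (Fin.cons (l • x) u) = l * ω (Fin.cons x u) :=
      ω.toMultilinearMap.cons_smul u l x
    refine ⟨z, hz, ?_⟩
    by_cases hz0 : z = 0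
    · rw [hz0, abs_zero]
      exact Int.natCast_nonneg _
    · have h1 : (t : ℚ) = l * z := by rw [← ht, hlz, hz]
      have h2 : |(z : ℚ)| < |(t : ℚ)| := by
        rw [h1, abs_mul]
        have h3 : 0 < |(z : ℚ)| := abs_pos.mpr (Int.cast_ne_zero.mpr hz0)
        nlinarith
      have h4 : |z| < |t| := by
        have h5 : ((|z| : ℤ) : ℚ) < ((|t| : ℤ) : ℚ) := by
          rw [Int.cast_abs, Int.cast_abs]
          exact h2
        exact_mod_cast h5
      push_cast at ht'
      omega

/-- no system with `Δ = 0`: the form does not vanish on a basis in `S` (`ext_basis` with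
`G = ∅`, `form_ne_zero`) -/
theorem sys_not_zero {n : ℕ} {S : Set V} (h : Sys 0 n S) : False := by
  obtain ⟨ω, hω, hint⟩ := h.form
  obtain ⟨v, hv, hli, hsp, _⟩ := ext_basis h (G := ∅) (by
    rw [Finset.coe_empty]
    exact Set.empty_subset _) (by
    intro μ _ x hx
    exact absurd hx (Finset.notMem_empty x))
  obtain ⟨z, hz, hz'⟩ := hint v hv
  have h0 : z = 0 := by
    have h1 : |z| ≤ 0 := by simpa using hz'
    exact abs_nonpos_iff.mp h1
  rw [h0, Int.cast_zero] at hz
  exact form_ne_zero hω hli hsp hz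

end Pool.Agent.Lib.H73H
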