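import Pool.Agent.Lib.H73H.R1
import Pool.Agent.Lib.H73H.R2
import Pool.Agent.Lib.H73H.B3
import Pool.Agent.Lib.H73H.X2

set_option autoImplicit false

namespace Pool.Agent.Lib.H73H

open Classical Module Submodule

variable {V : Type} [AddCommGroup V] [Module ℚ V]

/-! R3: the cost lemma. -/

/-- classes modulo `b` have at most `(2 * Δ + 1) ^ 2` elements: `bdN_of_sys` with `c = 2`,
`G = ∅`, `F` = the class, which is inside `span {r, b}` -/
theorem class_le {Δ n : ℕ} {S : Set V} (h : Sys Δ n S) {E : Finset V} (hE : (E : Set V) ⊆ S)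
    (hs : SimpleMod ⊥ E) (b r : V) :
    (E.filter (fun x => ∃ l : ℚ, l ≠ 0 ∧ x - l • r ∈ span ℚ {b})).card ≤
      (2 * Δ + 1) ^ 2 := by
  haveI := h.fin
  have hEsub : ((E.filter (fun x => ∃ l : ℚ, l ≠ 0 ∧ x - l • r ∈ span ℚ {b}) : Finset V) :
      Set V) ⊆ (E : Set V) := by
    intro x hx
    exact (Finset.mem_filter.mp (Finset.mem_coe.mp hx)).1
  refine bdN_of_sys h 2 ∅ _ (by rw [Finset.coe_empty]; exact Set.empty_subset _)
    (hEsub.trans hE) ?_ ?_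
  · rw [Finset.coe_empty, span_empty]
    exact ⟨fun x hx => hs.1 x (hEsub hx), fun x hx y hy => hs.2 x (hEsub hx) y (hEsub hy)⟩
  · have h1 : span ℚ (((∅ : Finset V) : Set V) ∪
        ((E.filter (fun x => ∃ l : ℚ, l ≠ 0 ∧ x - l • r ∈ span ℚ {b}) : Finset V) : Set V)) ≤
        span ℚ (({r, b} : Finset V) : Set V) := by
      rw [Finset.coe_empty, Set.empty_union, span_le]
      intro x hx
      obtain ⟨_, l, _, hl⟩ := Finset.mem_filter.mp (Finset.mem_coe.mp hx)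
      have hr : r ∈ span ℚ (({r, b} : Finset V) : Set V) :=
        subset_span (Finset.mem_coe.mpr (Finset.mem_insert_self _ _))
      have hb : span ℚ {b} ≤ span ℚ (({r, b} : Finset V) : Set V) := by
        apply span_mono
        intro y hy
        rw [Set.mem_singleton_iff] at hy
        rw [hy]
        exact Finset.mem_coe.mpr (Finset.mem_insert_of_mem (Finset.mem_singleton_self b))
      have h2 := Submodule.add_mem _ (hb hl) (Submodule.smul_mem _ l hr)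
      rwa [sub_add_cancel] at h2
    have h2 := Submodule.finrank_mono h1
    have h3 : finrank ℚ (span ℚ (({r, b} : Finset V) : Set V)) ≤ 2 :=
      (finrank_span_finset_le_card (R := ℚ) ({r, b} : Finset V)).trans Finset.card_le_two
    omega

/-- `R₂` simple modulo `b`, all elements doubled: `lemL` for `E' = img (span {b}) R₂` in the
quotient, with `c = c₀ = 1 + 4 * Δ`, `N = (2 * Δ + 1) ^ (1 + 4 * Δ)`: `img_simple`; `sys_contr` and
`bdN_of_sys` and `BdN.mono`; `img_circ` and `r2`. -/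
theorem r3_one {Δ n : ℕ} {S : Set V} (h : Sys Δ (n + 1) S) {b : V} (hb : b ∈ S)
    (hb0 : b ≠ 0) {R₂ : Finset V} (hR : (R₂ : Set V) ⊆ S) (hs : SimpleMod (span ℚ {b}) R₂)
    (hd : ∀ r ∈ R₂, Doubled b S r) :
    R₂.card ≤ ((2 * Δ + 1) ^ (1 + 4 * Δ)) ^ (1 + 4 * Δ) * n := by
  have hsys := sys_contr h hb hb0
  haveI := hsys.fin
  have hL : LHyp ((2 * Δ + 1) ^ (1 + 4 * Δ)) (1 + 4 * Δ) (1 + 4 * Δ)
      (img (span ℚ {b}) R₂) := by
    refine ⟨img_simple hs, ?_, ?_⟩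
    · apply (bdN_of_sys hsys (1 + 4 * Δ)).mono
      rw [coe_img]
      exact Set.image_mono hR
    · intro K' hK' hc'
      obtain ⟨K, hK, hcard, hc⟩ := img_circ hs hK' hc'
      rw [← hcard]
      exact r2 h hb hb0 (fun x hx => hR (hK hx)) hc (fun r hr => hd r (hK hr))
  have h1 := lemL (Nat.one_le_pow _ _ (by omega)) (1 + 4 * Δ) le_rfl _ _ hL
  rw [img_card hs, hsys.rank] at h1
  exact h1

/-- Cost lemma: `r1` with `N₂ = (2 * Δ + 1) ^ 2` and `r3_one`. -/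
theorem cost {Δ n : ℕ} {S : Set V} (h : Sys Δ (n + 1) S) {b : V} (hb : b ∈ S) (hb0 : b ≠ 0)
    {E : Finset V} (hE : (E : Set V) ⊆ S) (hs : SimpleMod ⊥ E) :
    ∃ R ⊆ E, SimpleMod (span ℚ {b}) R ∧ E.card ≤ R.card + C1 Δ * (n + 1) := by
  obtain ⟨R, R₂, hR₂, hR, hRs, hd, hcard⟩ := r1 hs (b := b) (N₂ := (2 * Δ + 1) ^ 2)
    (Nat.one_le_pow _ _ (by omega)) (fun r _ _ => class_le h hE hs b r)
  refine ⟨R, hR, hRs, ?_⟩
  have h1 := r3_one h hb hb0 (R₂ := R₂) (fun x hx => hE (hR (hR₂ hx)))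
    ⟨fun x hx => hRs.1 x (hR₂ hx), fun x hx y hy => hRs.2 x (hR₂ hx) y (hR₂ hy)⟩
    (fun r hr => by
      obtain ⟨r', hr', l, θ, h2⟩ := hd r hr
      exact ⟨r', hE hr', l, θ, h2⟩)
  unfold C1
  generalize ((2 * Δ + 1) ^ (1 + 4 * Δ)) ^ (1 + 4 * Δ) = M at h1 ⊢
  have h2 : ((2 * Δ + 1) ^ 2 - 1) * R₂.card ≤ (2 * Δ + 1) ^ 2 * (M * n) :=
    Nat.mul_le_mul (Nat.sub_le _ _) h1
  have h3 : (1 + (2 * Δ + 1) ^ 2 * M) * (n + 1) =
      1 + (2 * Δ + 1) ^ 2 * (M * n) + n + (2 * Δ + 1) ^ 2 * M := by ring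
  rw [h3]
  omega

end Pool.Agent.Lib.H73H
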