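import Pool.Agent.Lib.H73H.U2
import Pool.Agent.Lib.H73H.R3

set_option autoImplicit false

namespace Pool.Agent.Lib.H73H

open Classical Module Submodule

variable {V : Type} [AddCommGroup V] [Module ℚ V]

/-! U3: the uniform step. -/

/-- `r1` with `N₂ = 2` (`u1_two`); `R₂` is independent modulo `span {b}`: otherwise there is a
circuit `K ⊆ R₂` modulo `span {b}` (`exists_circMod`), `K.card ≤ 1 + 4 * Δ ≤ k` by `r2`, and `u2`
applies. So `R₂.card ≤ n` (`IndMod.card_le`), `E.card ≤ 1 + R.card + R₂.card`. -/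
theorem unif_step {Δ n k : ℕ} (hk : 1 + 4 * Δ ≤ k) {S : Set V} (h : Sys Δ (n + 1) S)
    (hU : Unif k S) {E : Finset V} (hE : (E : Set V) ⊆ S) (hs : SimpleMod ⊥ E) {b : V}
    (hb : b ∈ E) :
    ∃ R ⊆ E, SimpleMod (span ℚ {b}) R ∧ E.card ≤ R.card + (n + 1) := by
  have hb0 : b ≠ 0 := by
    rintro rfl
    exact hs.1 0 hb (zero_mem _)
  have hbS : b ∈ S := hE hb
  obtain ⟨R, R₂, hR2, hRE, hRs, hd, hc⟩ := r1 hs (b := b) (N₂ := 2) (by norm_num)
    (fun r hr hrb => u1_two (by omega) hU hE hs hbS hb0 hr hrb)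
  refine ⟨R, hRE, hRs, ?_⟩
  have hd' : ∀ r ∈ R₂, Doubled b S r := by
    intro r hr
    obtain ⟨r', hr', l, θ, hl, hθ, he⟩ := hd r hr
    exact ⟨r', hE hr', l, θ, hl, hθ, he⟩
  have hR₂s : SimpleMod (span ℚ {b}) R₂ := hRs.mono hR2
  have hR₂S : (R₂ : Set V) ⊆ S := fun z hz => hE (hRE (hR2 hz))
  have hind : IndMod (span ℚ {b}) R₂ := by
    by_contra hn
    obtain ⟨K, hK, hKc⟩ := exists_circMod hR₂s hn
    have hKS : (K : Set V) ⊆ S := fun z hz => hR₂S (hK hz)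
    have hKd : ∀ r ∈ K, Doubled b S r := fun r hr => hd' r (hK hr)
    exact u2 hU hbS hb0 hKS ((r2 h hbS hb0 hKS hKc hKd).trans hk) (hR₂s.mono hK) hKc hKd
  have := h.fin
  have h1 := hind.card_le
  rw [h.rank, finrank_span_singleton hb0] at h1
  omega

end Pool.Agent.Lib.H73H
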