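import Pool.Agent.Lib.H73H.N1
import Pool.Agent.Lib.H73H.U3

set_option autoImplicit false

namespace Pool.Agent.Lib.H73H

open Classical Module Submodule

variable {V : Type} [AddCommGroup V] [Module ℚ V]

theorem thmN_zero : ThmN 0 := by
  intro n V _ _ S h
  exact (sys_not_zero h).elim

/-- Induction on `n` for `Δ + 1` with `k = 1 + 4 * (Δ + 1)`. `n = 0`: the space is trivial, `E` is
empty. `n + 1`: not uniform: `nu`. Uniform: if `E` is empty clear, else `unif_step`, and the
induction hypothesis for `img (span {b}) R` in the quotient (`sys_contr`). -/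
theorem thmN_succ {Δ : ℕ} (hN : ThmN Δ) : ThmN (Δ + 1) := by
  intro n
  induction n with
  | zero =>
    intro V _ _ S h E hE hs
    have := h.fin
    have h0 := finrank_zero_iff.1 h.rank
    have : E = ∅ := by
      rw [Finset.eq_empty_iff_forall_notMem]
      intro x hx
      apply hs.1 x hx
      rw [mem_bot]
      exact Subsingleton.elim x 0
    subst this
    simp
  | succ n ih =>
    intro V _ _ S h E hE hs
    by_cases hU : Unif (1 + 4 * (Δ + 1)) S
    · rcases E.eq_empty_or_nonempty with rfl | ⟨b, hb⟩
      · simp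
      · obtain ⟨R, hRE, hRs, hc⟩ := unif_step le_rfl h hU hE hs hb
        have hb0 : b ≠ 0 := by
          rintro rfl
          exact hs.1 0 hb (zero_mem _)
        have h1 := ih _ _ (sys_contr h (hE hb) hb0) (img (span ℚ {b}) R)
          (img_subset (fun z hz => hE (hRE hz))) (img_simple hRs)
        rw [img_card hRs] at h1
        calc 2 * E.card ≤ 2 * R.card + 2 * (n + 1) := by omega
          _ ≤ n * (n + 1) + 2 * CN (Δ + 1) * n + 2 * (n + 1) := by omega
          _ ≤ _ := by nlinarith [Nat.zero_le (CN (Δ + 1))]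
    · have h1 := nu hN (1 + 4 * (Δ + 1)) (n + 1) V S h hU E hE hs
      refine h1.trans (le_of_eq ?_)
      have : CN (Δ + 1) = CN Δ + (1 + 4 * (Δ + 1) + 1) * C1 (Δ + 1) := rfl
      rw [this]
      ring

theorem thmN (Δ : ℕ) : ThmN Δ := by
  induction Δ with
  | zero => exact thmN_zero
  | succ Δ ih => exact thmN_succ ih

end Pool.Agent.Lib.H73H
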