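import Pool.Agent.Lib.H73H.Defs

set_option autoImplicit false

namespace Pool.Agent.Lib.H73H

open Classical Module

/-! P1: choice of rows. -/

/-- Let `R` be a finite set of rows of minimal cardinality with `a ∈ R` and
`∀ x ∈ W, (∀ r ∈ R, x r = 0) → x = 0` (`R = univ` has this property). `finrank W ≤ R.card` as
`W → ℚ^R` is injective. For `r ∈ R`, `r ≠ a`, there is `x_r ∈ W`, zero on `R.erase r`,
`x_r ≠ 0`, so `x_r r ≠ 0`. The vectors `w` and `x_r` (`r ∈ R.erase a`) of `W` are linearly
independent (evaluate a relation at `a`: the coefficient of `w` is zero; then at `r`). So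
`R.card ≤ finrank W`. Enumerate `R`. -/
theorem rows {ι : Type} [Fintype ι] (W : Submodule ℚ (ι → ℚ)) {a : ι} {w : ι → ℚ}
    (hw : w ∈ W) (hwa : w a ≠ 0) :
    ∃ f : Fin (finrank ℚ W) → ι, Function.Injective f ∧ (∃ i, f i = a) ∧
      ∀ x ∈ W, (∀ i, x (f i) = 0) → x = 0 := by
  set v : ι → (W →ₗ[ℚ] ℚ) := fun r => (LinearMap.proj r : (ι → ℚ) →ₗ[ℚ] ℚ) ∘ₗ W.subtype with hv
  have hva : v a ≠ 0 := by
    intro h
    have h1 : v a ⟨w, hw⟩ = 0 := by rw [h]; rfl
    exact hwa h1
  have hs : LinearIndepOn ℚ v {a} := by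
    rw [linearIndepOn_singleton_iff]
    exact hva
  obtain ⟨b, -, hab, hspan, hli⟩ := exists_linearIndepOn_extension hs (Set.subset_univ _)
  have hzero : ∀ x ∈ W, (∀ r ∈ b, x r = 0) → x = 0 := by
    intro x hx h0
    have h1 : ∀ φ ∈ Submodule.span ℚ (v '' b), φ ⟨x, hx⟩ = 0 := by
      intro φ hφ
      induction hφ using Submodule.span_induction with
      | mem y hy =>
        obtain ⟨r, hr, rfl⟩ := hy
        exact h0 r hr
      | zero => rfl
      | add y z _ _ hy hz => rw [LinearMap.add_apply, hy, hz, add_zero]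
      | smul c y _ hy => rw [LinearMap.smul_apply, hy, smul_zero]
    funext r
    exact h1 (v r) (hspan ⟨r, Set.mem_univ _, rfl⟩)
  have hcard : Fintype.card b = finrank ℚ W := by
    apply le_antisymm
    · have h1 := LinearIndependent.fintype_card_le_finrank hli
      have h2 : finrank ℚ (W →ₗ[ℚ] ℚ) = finrank ℚ W := Subspace.dual_finrank_eq
      rwa [h2] at h1
    · set g : W →ₗ[ℚ] (b → ℚ) := LinearMap.pi (fun r : b => v r.1) with hg
      have hinj : Function.Injective g := by
        rw [injective_iff_map_eq_zero]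
        intro x hx
        apply Subtype.ext
        apply hzero x.1 x.2
        intro r hr
        exact congrFun hx ⟨r, hr⟩
      have h1 := LinearMap.finrank_le_finrank_of_injective hinj
      rwa [Module.finrank_fintype_fun_eq_card] at h1
  have e : b ≃ Fin (finrank ℚ W) := Fintype.equivFinOfCardEq hcard
  refine ⟨fun i => (e.symm i).1, fun i j hij => e.symm.injective (Subtype.ext hij),
    ⟨e ⟨a, hab rfl⟩, by simp⟩, ?_⟩
  intro x hx h0
  apply hzero x hx
  intro r hr
  have h1 := h0 (e ⟨r, hr⟩)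
  simpa using h1

end Pool.Agent.Lib.H73H
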