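import Pool.Agent.Lib.H73H.P1
import Pool.Agent.Lib.H73H.N2

set_option autoImplicit false

namespace Pool.Agent.Lib.H73H

open Classical Module

/-! P2: Theorem N for a set of vectors of `ℚ^ι`. -/

/-- `T` is empty: clear. Else `W = span T`, `V = W` (as a type), `n = finrank W ≤ Fintype.card ι`,
`f` from `rows` (`w` = an element of `T`), `S = {x : W | (x : ι → ℚ) ∈ T}`,
`ω x = det (of fun i j => (x j) (f i))` (an alternating form: `Matrix.detRowAlternating`
composed with the linear map `x ↦ (x (f i))_i`, transposed). `W → ℚ^n` is bijective (injective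
and equal dimensions), so `ω ≠ 0`. `Sys Δ n S`. `E` = `T` as a finite set of elements of `W`: simple,
because all elements have `s a = 1`. `thmN`, and monotonicity in `n`. -/
theorem vec_bound {ι : Type} [Fintype ι] {Δ : ℕ} {T : Finset (ι → ℚ)} {a : ι}
    (ha : ∀ s ∈ T, s a = 1)
    (hint : ∀ (n : ℕ) (f : Fin n → ι), (∃ i, f i = a) → ∀ v : Fin n → ι → ℚ, (∀ j, v j ∈ T) →
      ∃ z : ℤ, (Matrix.of fun i j => v j (f i)).det = (z : ℚ) ∧ |z| ≤ (Δ : ℤ)) :
    2 * T.card ≤ Fintype.card ι * (Fintype.card ι + 1) + 2 * CN Δ * Fintype.card ι := by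
  rcases T.eq_empty_or_nonempty with hT | ⟨w, hwT⟩
  · subst hT
    rw [Finset.card_empty, mul_zero]
    exact Nat.zero_le _
  have hw : w ∈ Submodule.span ℚ (T : Set (ι → ℚ)) := Submodule.subset_span hwT
  have hwa : w a ≠ 0 := by
    rw [ha w hwT]
    exact one_ne_zero
  obtain ⟨f, hfinj, hfa, hzero⟩ := rows (Submodule.span ℚ (T : Set (ι → ℚ))) hw hwa
  have hsys : Sys Δ (finrank ℚ (Submodule.span ℚ (T : Set (ι → ℚ))))
      ((↑) ⁻¹' (T : Set (ι → ℚ)) : Set (Submodule.span ℚ (T : Set (ι → ℚ)))) := by
    refine ⟨inferInstance, rfl, Submodule.span_span_coe_preimage, ?_⟩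
    set g : (Submodule.span ℚ (T : Set (ι → ℚ))) →ₗ[ℚ]
        (Fin (finrank ℚ (Submodule.span ℚ (T : Set (ι → ℚ)))) → ℚ) :=
      (LinearMap.funLeft ℚ ℚ f).comp (Submodule.subtype _) with hg
    have hgx : ∀ x i, g x i = (x : ι → ℚ) (f i) := fun x i => rfl
    have hginj : Function.Injective g := by
      rw [← LinearMap.ker_eq_bot, LinearMap.ker_eq_bot']
      intro x hx
      have h0 := hzero x x.2 (fun i => by
        rw [← hgx, hx]
        rfl)
      exact Subtype.ext h0
    have hgsurj : Function.Surjective g := by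
      refine (LinearMap.injective_iff_surjective_of_finrank_eq_finrank ?_).mp hginj
      rw [Module.finrank_fintype_fun_eq_card, Fintype.card_fin]
    refine ⟨Matrix.detRowAlternating.compLinearMap g, ?_, ?_⟩
    · choose u hu using hgsurj
      intro h0
      have h1 : (Matrix.detRowAlternating.compLinearMap g) (fun j => u (Pi.single j 1)) = 1 := by
        rw [AlternatingMap.compLinearMap_apply]
        have : (fun j => g (u (Pi.single j 1))) =
            (1 : Matrix (Fin (finrank ℚ (Submodule.span ℚ (T : Set (ι → ℚ)))))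
              (Fin (finrank ℚ (Submodule.span ℚ (T : Set (ι → ℚ))))) ℚ) := by
          funext j
          rw [hu]
          funext i
          rw [Matrix.one_apply, Pi.single_apply]
          by_cases h : i = j
          · rw [if_pos h, if_pos h.symm]
          · rw [if_neg h, if_neg (Ne.symm h)]
        have h2 := Matrix.det_one (R := ℚ)
          (n := Fin (finrank ℚ (Submodule.span ℚ (T : Set (ι → ℚ)))))
        rw [← this] at h2
        exact h2
      rw [h0] at h1
      exact zero_ne_one h1
    · intro v hv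
      obtain ⟨z, hz, hz'⟩ := hint _ f hfa (fun j => (v j : ι → ℚ)) hv
      refine ⟨z, ?_, hz'⟩
      rw [← hz, AlternatingMap.compLinearMap_apply, ← Matrix.det_transpose]
      rfl
  set E : Finset (Submodule.span ℚ (T : Set (ι → ℚ))) :=
    T.subtype (fun x => x ∈ Submodule.span ℚ (T : Set (ι → ℚ))) with hE
  have hEm : ∀ x : (Submodule.span ℚ (T : Set (ι → ℚ))), x ∈ E ↔ (x : ι → ℚ) ∈ T := fun x =>
    Finset.mem_subtype
  have hEa : ∀ x ∈ E, (x : ι → ℚ) a = 1 := fun x hx => ha _ ((hEm x).mp hx)
  have hEcard : E.card = T.card := by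
    rw [hE, Finset.card_subtype, Finset.filter_true_of_mem]
    intro x hx
    exact Submodule.subset_span hx
  have hsimple : SimpleMod ⊥ E := by
    refine ⟨?_, ?_⟩
    · intro x hx h0
      rw [Submodule.mem_bot] at h0
      have h1 := hEa x hx
      rw [h0] at h1
      exact zero_ne_one h1
    · intro x hx y hy hxy l h0
      rw [Submodule.mem_bot, sub_eq_zero] at h0
      have h1 := hEa x hx
      have h2 := hEa y hy
      have h3 : (y : ι → ℚ) a = l * (x : ι → ℚ) a := by
        rw [h0]
        rfl
      rw [h1, h2, mul_one] at h3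
      rw [← h3, one_smul] at h0
      exact hxy h0.symm
  have hmain := thmN Δ _ _ _ hsys E (fun x hx => (hEm x).mp hx) hsimple
  rw [hEcard] at hmain
  have hle : finrank ℚ (Submodule.span ℚ (T : Set (ι → ℚ))) ≤ Fintype.card ι := by
    have h1 := Submodule.finrank_le (Submodule.span ℚ (T : Set (ι → ℚ)))
    rwa [Module.finrank_fintype_fun_eq_card] at h1
  refine le_trans hmain ?_
  gcongr

end Pool.Agent.Lib.H73H
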