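import Pool.Agent.Lib.H73H.Defs

set_option autoImplicit false

namespace Pool.Agent.Lib.H73H

open Classical Module

/-! P3: the determinant identity. -/

/-- If `f` is not injective both sides are zero (two equal rows). If `f` is injective then `i₀` is
the only index with `f i = a`. Row `i₀` of the left matrix is `τ` times the row `(1, .., 1)`. The
row `i ≠ i₀` of the left matrix is the row of the right matrix plus `t (f i) / τ` times the row
`i₀` of the left one (`Matrix.det_eq_of_forall_row_eq_smul_add_const`), and a factor `τ` comes out
of the row `i₀` (`Matrix.det_updateRow_smul`, as in the lemma `lower` of the hand-in). -/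
theorem det_shift {ι : Type*} {n : ℕ} (t : ι → ℝ) (A : Fin n → ι → ℝ) {a : ι} {τ : ℝ}
    (hτ : τ ≠ 0) (f : Fin n → ι) {i₀ : Fin n} (hf : f i₀ = a) :
    (Matrix.of fun i j => if f i = a then τ else t (f i) + A j (f i)).det =
      τ * (Matrix.of fun i j => if f i = a then (1 : ℝ) else A j (f i)).det := by
  by_cases hinj : Function.Injective f
  · have hia : ∀ i, i ≠ i₀ → f i ≠ a := by
      intro i hi h
      exact hi (hinj (h.trans hf.symm))
    set M' : Matrix (Fin n) (Fin n) ℝ :=
      Matrix.of fun i j => if f i = a then (1 : ℝ) else A j (f i) with hM'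
    have h1 : (M'.updateRow i₀ (τ • M' i₀)).det = τ * M'.det := by
      rw [Matrix.det_updateRow_smul, Matrix.updateRow_eq_self]
    rw [← h1]
    refine Matrix.det_eq_of_forall_row_eq_smul_add_const
      (fun i => if i = i₀ then 0 else t (f i) / τ) i₀ (by simp) ?_
    intro i j
    have hB0 : (M'.updateRow i₀ (τ • M' i₀)) i₀ j = τ := by
      rw [Matrix.updateRow_self]
      simp [hM', hf]
    rw [hB0]
    by_cases hi : i = i₀
    · subst hi
      rw [hB0]
      simp [hf]
    · rw [Matrix.updateRow_ne hi]
      simp only [hM', Matrix.of_apply, if_neg (hia i hi), if_neg hi]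
      field_simp
      ring
  · have hex : ∃ i i', f i = f i' ∧ i ≠ i' := by
      simp only [Function.Injective] at hinj
      push Not at hinj
      exact hinj
    obtain ⟨i, i', h, hne⟩ := hex
    rw [Matrix.det_zero_of_row_eq hne (by ext j; simp [h]),
      Matrix.det_zero_of_row_eq hne (by ext j; simp [h]), mul_zero]

end Pool.Agent.Lib.H73H
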