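import Pool.Agent.Lib.H73H.P2
import Pool.Agent.Lib.H73H.P3
import Pool.Agent.Lib.Helper7.Heller4

set_option autoImplicit false

namespace Pool.Agent.Lib.H73H

open Classical Module

/-! P4: the bound for one half. -/

/-- For `x ∈ X` let `z x r` be the integer with `x r = t r + z x r`, and `s x : ι → ℚ`,
`s x r = if r = a then 1 else z x r`; `s` is injective on `X` (`x a = τ`). `T = X.image s`,
`vec_bound` with `Δ = 4`: the determinant of `s` values is an integer (the entries are integers),
and by `det_shift` (with `A j r = z (x j) r`) `|τ| * |det| ≤ 1` (`TS`), so `|det| ≤ 4`. -/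
theorem half {ι : Type} [Fintype ι] {t : ι → ℝ} {X : Finset (ι → ℝ)}
    (hTS : HellerS.TS (X : Set (ι → ℝ))) (hA : ∀ x ∈ X, ∀ r, ∃ z : ℤ, x r = t r + z) {a : ι}
    {τ : ℝ} (hτ : ∀ x ∈ X, x a = τ) (h14 : 1 / 4 ≤ |τ|) :
    2 * X.card ≤ Fintype.card ι * (Fintype.card ι + 1) + 2 * CN 4 * Fintype.card ι := by
  have hA' : ∀ x : ι → ℝ, ∃ z : ι → ℤ, x ∈ X → ∀ r, x r = t r + z r := by
    intro x
    by_cases hx : x ∈ X
    · choose z hz using hA x hx
      exact ⟨z, fun _ => hz⟩
    · exact ⟨fun _ => 0, fun h => absurd h hx⟩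
  choose z hz using hA'
  have hτ0 : τ ≠ 0 := by
    rintro rfl
    rw [abs_zero] at h14
    norm_num at h14
  let s : (ι → ℝ) → (ι → ℚ) := fun x r => if r = a then 1 else (z x r : ℚ)
  have hinj : Set.InjOn s (X : Set (ι → ℝ)) := by
    intro x hx y hy hxy
    funext r
    by_cases hr : r = a
    · rw [hr, hτ x hx, hτ y hy]
    · have h1 := congrFun hxy r
      simp only [s, if_neg hr] at h1
      have h2 : z x r = z y r := by exact_mod_cast h1
      rw [hz x hx r, hz y hy r, h2]
  have hcard : (X.image s).card = X.card := Finset.card_image_of_injOn hinj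
  rw [← hcard]
  refine vec_bound (a := a) ?_ ?_
  · intro u hu
    obtain ⟨x, -, rfl⟩ := Finset.mem_image.1 hu
    simp [s]
  · intro n f hf v hv
    obtain ⟨i₀, hi₀⟩ := hf
    have hv' : ∀ j, ∃ x ∈ X, s x = v j := fun j => Finset.mem_image.1 (hv j)
    choose x hx hxv using hv'
    -- the integer matrix
    let B : Matrix (Fin n) (Fin n) ℤ := Matrix.of fun i j => if f i = a then 1 else z (x j) (f i)
    have hB : (Matrix.of fun i j => v j (f i)) = B.map (Int.castRingHom ℚ) := by
      ext i j
      rw [Matrix.of_apply, ← hxv j, Matrix.map_apply]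
      simp only [s, B, Matrix.of_apply]
      split_ifs <;> simp
    have hBR : (Matrix.of fun i j => if f i = a then (1 : ℝ) else (fun j r => (z (x j) r : ℝ)) j (f i))
        = B.map (Int.castRingHom ℝ) := by
      ext i j
      rw [Matrix.of_apply, Matrix.map_apply]
      simp only [B, Matrix.of_apply]
      split_ifs <;> simp
    refine ⟨B.det, ?_, ?_⟩
    · rw [hB]
      exact (RingHom.map_det (Int.castRingHom ℚ) B).symm
    · have h1 := hTS n f x (fun j => hx j)
      have h2 := det_shift t (fun j r => (z (x j) r : ℝ)) hτ0 f hi₀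
      have h3 : (Matrix.of fun i j => x j (f i)) =
          (Matrix.of fun i j => if f i = a then τ else t (f i) +
            (fun j r => (z (x j) r : ℝ)) j (f i)) := by
        ext i j
        rw [Matrix.of_apply, Matrix.of_apply]
        split_ifs with h
        · rw [h]; exact hτ _ (hx j)
        · exact hz _ (hx j) (f i)
      rw [h3, h2, hBR] at h1
      have h4 : (B.map (Int.castRingHom ℝ)).det = (B.det : ℝ) :=
        (RingHom.map_det (Int.castRingHom ℝ) B).symm
      rw [h4, abs_mul] at h1
      have h5 : |(B.det : ℝ)| ≤ 4 := by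
        have h6 : 0 ≤ |(B.det : ℝ)| := abs_nonneg _
        nlinarith
      have h7 : ((|B.det| : ℤ) : ℝ) ≤ ((4 : ℤ) : ℝ) := by
        rw [Int.cast_abs]
        exact_mod_cast h5
      exact_mod_cast h7

/-- Part II: `X` is the union of the two halves `x a = t a` and `x a = t a - 1`. -/
theorem part_two {ι : Type} [Fintype ι] {t : ι → ℝ} {M : Finset (ι → ℝ)}
    (hTS : HellerS.TS (M : Set (ι → ℝ))) (hval : ∀ c ∈ M, ∀ r, HellerS.Al (t r) (c r))
    {a : ι} (h1 : 1 / 4 ≤ t a) (h2 : t a ≤ 3 / 4) :
    M.card ≤ Fintype.card ι * (Fintype.card ι + 1) + 2 * CN 4 * Fintype.card ι := by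
  have hint : ∀ x ∈ M, ∀ r, ∃ z : ℤ, x r = t r + z := by
    intro x hx r
    rcases hval x hx r with ⟨-, h | h⟩ | ⟨h0, h | h | h⟩
    · exact ⟨0, by rw [h]; simp⟩
    · exact ⟨-1, by rw [h]; push_cast; ring⟩
    · exact ⟨-1, by rw [h, h0]; push_cast; ring⟩
    · exact ⟨0, by rw [h, h0]; simp⟩
    · exact ⟨1, by rw [h, h0]; simp⟩
  have hta : t a ≠ 0 := by
    intro h
    rw [h] at h1
    norm_num at h1
  have hva : ∀ x ∈ M, x a = t a ∨ x a = t a - 1 := by
    intro x hx
    rcases hval x hx a with ⟨-, h⟩ | ⟨h0, -⟩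
    · exact h
    · exact absurd h0 hta
  let X1 := M.filter (fun x => x a = t a)
  let X2 := M.filter (fun x => ¬ x a = t a)
  have e1 : 2 * X1.card ≤ Fintype.card ι * (Fintype.card ι + 1) + 2 * CN 4 * Fintype.card ι := by
    refine half (t := t) (hTS.mono ?_) ?_ (a := a) (τ := t a) ?_ ?_
    · exact_mod_cast Finset.filter_subset _ _
    · exact fun x hx => hint x (Finset.mem_filter.1 hx).1
    · exact fun x hx => (Finset.mem_filter.1 hx).2
    · rw [abs_of_nonneg (by linarith)]
      exact h1
  have e2 : 2 * X2.card ≤ Fintype.card ι * (Fintype.card ι + 1) + 2 * CN 4 * Fintype.card ι := by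
    refine half (t := t) (hTS.mono ?_) ?_ (a := a) (τ := t a - 1) ?_ ?_
    · exact_mod_cast Finset.filter_subset _ _
    · exact fun x hx => hint x (Finset.mem_filter.1 hx).1
    · intro x hx
      rw [Finset.mem_filter] at hx
      exact (hva x hx.1).resolve_left hx.2
    · rw [abs_of_nonpos (by linarith)]
      linarith
  have e3 : X1.card + X2.card = M.card := Finset.card_filter_add_card_filter_not _
  omega

end Pool.Agent.Lib.H73H
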