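import Pool.Agent.Lib.H73H.L8

set_option autoImplicit false

namespace Pool.Agent.Lib.H73H

open Classical Module Submodule

variable {V : Type} [AddCommGroup V] [Module ℚ V]

/-! R1: counting the classes modulo one vector. -/

/-- At most one element of `E` is in `span {b}` (two of them would be parallel). Let `R` = the
representatives (`reps`) of `F = E.filter (x ∉ span {b})` modulo `span {b}`, `R₂` = the `r ∈ R`
with `Doubled b E r`. The class of `r` in `F` has at most `N₂` elements, and only the element `r`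
if `r ∉ R₂` (another element `x = l • r + θ • b` of the class has `θ ≠ 0` as `E` is simple). So
`F.card ≤ R.card + (N₂ - 1) * R₂.card`. -/
theorem r1 {E : Finset V} (hE : SimpleMod ⊥ E) {b : V} {N₂ : ℕ} (hN : 1 ≤ N₂)
    (hcl : ∀ r ∈ E, r ∉ span ℚ {b} →
      (E.filter (fun x => ∃ l : ℚ, l ≠ 0 ∧ x - l • r ∈ span ℚ {b})).card ≤ N₂) :
    ∃ R R₂ : Finset V, R₂ ⊆ R ∧ R ⊆ E ∧ SimpleMod (span ℚ {b}) R ∧
      (∀ r ∈ R₂, Doubled b (E : Set V) r) ∧
      E.card ≤ 1 + R.card + (N₂ - 1) * R₂.card := by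
  obtain ⟨F, hF⟩ : ∃ F, F = E.filter (fun x => x ∉ span ℚ {b}) := ⟨_, rfl⟩
  have hFE : F ⊆ E := by
    rw [hF]
    exact Finset.filter_subset _ _
  have hFb : ∀ x ∈ F, x ∉ span ℚ {b} := by
    intro x hx
    rw [hF] at hx
    exact (Finset.mem_filter.mp hx).2
  obtain ⟨R, hRF, hRs, hcov⟩ := reps hFb
  refine ⟨R, R.filter (fun r => Doubled b (E : Set V) r), Finset.filter_subset _ _, hRF.trans hFE, hRs,
    fun r hr => (Finset.mem_filter.mp hr).2, ?_⟩
  have h1 : (E.filter (fun x => ¬ x ∉ span ℚ {b})).card ≤ 1 := by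
    rw [Finset.card_le_one]
    intro x hx y hy
    by_contra hne
    obtain ⟨hxE, hxb⟩ := Finset.mem_filter.mp hx
    obtain ⟨hyE, hyb⟩ := Finset.mem_filter.mp hy
    rw [not_not] at hxb hyb
    obtain ⟨t, ht⟩ := Submodule.mem_span_singleton.mp hxb
    obtain ⟨t', ht'⟩ := Submodule.mem_span_singleton.mp hyb
    have ht0 : t ≠ 0 := by
      intro h
      rw [h, zero_smul] at ht
      apply hE.1 x hxE
      rw [← ht]
      exact Submodule.zero_mem _
    apply hE.2 x hxE y hyE hne (t' / t)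
    rw [← ht, ← ht', smul_smul, div_mul_cancel₀ _ ht0, sub_self]
    exact Submodule.zero_mem _
  have h2 : E.card = F.card + (E.filter (fun x => ¬ x ∉ span ℚ {b})).card := by
    rw [hF]
    exact (Finset.card_filter_add_card_filter_not (fun x => x ∉ span ℚ {b})).symm
  have h3 : F ⊆ R.biUnion (fun r => F.filter (fun x => ∃ l : ℚ, l ≠ 0 ∧ x - l • r ∈ span ℚ {b})) := by
    intro x hx
    obtain ⟨r, hr, l, hl⟩ := hcov x hx
    exact Finset.mem_biUnion.mpr ⟨r, hr, Finset.mem_filter.mpr ⟨hx, l, hl⟩⟩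
  have h4 := (Finset.card_le_card h3).trans Finset.card_biUnion_le
  have h5 : ∀ r ∈ R, (F.filter (fun x => ∃ l : ℚ, l ≠ 0 ∧ x - l • r ∈ span ℚ {b})).card ≤
      1 + (if Doubled b (E : Set V) r then N₂ - 1 else 0) := by
    intro r hr
    by_cases hd : Doubled b (E : Set V) r
    · rw [if_pos hd]
      have h6 := hcl r (hFE (hRF hr)) (hFb r (hRF hr))
      have h7 : (F.filter (fun x => ∃ l : ℚ, l ≠ 0 ∧ x - l • r ∈ span ℚ {b})).card ≤
          (E.filter (fun x => ∃ l : ℚ, l ≠ 0 ∧ x - l • r ∈ span ℚ {b})).card :=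
        Finset.card_le_card (Finset.filter_subset_filter _ hFE)
      omega
    · rw [if_neg hd, add_zero, Finset.card_le_one_iff_subset_singleton]
      refine ⟨r, fun x hx => ?_⟩
      obtain ⟨hxF, l, hl, hxl⟩ := Finset.mem_filter.mp hx
      rw [Finset.mem_singleton]
      by_contra hne
      obtain ⟨θ, hθ⟩ := Submodule.mem_span_singleton.mp hxl
      apply hd
      refine ⟨x, hFE hxF, l, θ, hl, ?_, ?_⟩
      · intro h0
        rw [h0, zero_smul] at hθ
        apply hE.2 r (hFE (hRF hr)) x (hFE hxF) (Ne.symm hne) l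
        rw [← hθ]
        exact Submodule.zero_mem _
      · rw [hθ]
        abel
  have h6 := Finset.sum_le_sum h5
  rw [Finset.sum_add_distrib, Finset.sum_const, smul_eq_mul, mul_one, ← Finset.sum_filter, Finset.sum_const,
    smul_eq_mul, mul_comm _ (N₂ - 1)] at h6
  omega

end Pool.Agent.Lib.H73H
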