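import Pool.Agent.Lib.H73H.SDefs

set_option autoImplicit false

namespace Pool.Agent.Lib.H73H

open Classical HellerS

/-! S1: the condition (*) for the doubled patterns. -/

variable {ι : Type*}

theorem s1_pick {u u' p : ℝ} (hu : 1 ≤ |u - u'|) : ∃ x ∈ ({u, u'} : Set ℝ),
    ∃ x' ∈ ({u, u'} : Set ℝ), |p| ≤ x * p - x' * p := by
  have h1 : |p| ≤ |u - u'| * |p| := le_mul_of_one_le_left (abs_nonneg p) hu
  rw [← abs_mul] at h1
  rcases le_total 0 ((u - u') * p) with h | h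
  · rw [abs_of_nonneg h] at h1
    exact ⟨u, by simp, u', by simp, by linarith [sub_mul u u' p]⟩
  · rw [abs_of_nonpos h] at h1
    exact ⟨u', by simp, u, by simp, by linarith [sub_mul u u' p]⟩

/-- choosing the larger and the smaller of the two values in each summand: maximum minus
minimum of the eight sums is at least `|p| + |q| + |r|` and at most `2` -/
theorem s1_aux {p q r u u' v v' w w' : ℝ} (hu : 1 ≤ |u - u'|) (hv : 1 ≤ |v - v'|)
    (hw : 1 ≤ |w - w'|)
    (h : ∀ x ∈ ({u, u'} : Set ℝ), ∀ y ∈ ({v, v'} : Set ℝ), ∀ z ∈ ({w, w'} : Set ℝ),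
      |x * p - y * q + z * r| ≤ 1) : |p| + |q| + |r| ≤ 2 := by
  obtain ⟨x, hx, x', hx', h1⟩ := s1_pick (p := p) hu
  obtain ⟨y, hy, y', hy', h2⟩ := s1_pick (p := q) hv
  obtain ⟨z, hz, z', hz', h3⟩ := s1_pick (p := r) hw
  have h4 := (abs_le.1 (h x hx y' hy' z hz)).2
  have h5 := (abs_le.1 (h x' hx' y hy z' hz')).1
  linarith

/-- for `x, y, z` in `DD M S i` take the two lifts of each (`mem_DD`, values in row `i` differ by
at least `1`: `Al.diff`); the 3x3 minors of the rows `a, b, i` (`TS` with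
`f = ![a, b, i]`, `Matrix.det_fin_three`) are `v₁ * m2 y z - v₂ * m2 x z + v₃ * m2 x y`;
`s1_aux`. -/
theorem star_DD {M : Finset (ι → ℝ)} {t : ι → ℝ} (hTS : TS (M : Set (ι → ℝ)))
    (hval : ∀ c ∈ M, ∀ r, Al (t r) (c r)) (S : Finset ι) (i : ι) : Star S (DD M S i) := by
  intro a ha b hb x hx y hy z hz
  obtain ⟨X, hX, X', hX', x1, x2, x3⟩ := mem_DD.1 hx
  obtain ⟨Y, hY, Y', hY', y1, y2, y3⟩ := mem_DD.1 hy
  obtain ⟨Z, hZ, Z', hZ', z1, z2, z3⟩ := mem_DD.1 hz
  have key : ∀ P ∈ M, ∀ Q ∈ M, ∀ R ∈ M, res S P = x → res S Q = y → res S R = z →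
      |P i * m2 y z a b - Q i * m2 x z a b + R i * m2 x y a b| ≤ 1 := by
    intro P hP Q hQ R hR hPx hQy hRz
    have h := hTS 3 ![a, b, i] ![P, Q, R] (by
      intro k
      fin_cases k
      · exact hP
      · exact hQ
      · exact hR)
    rw [Matrix.det_fin_three] at h
    simp only [Matrix.of_apply, Matrix.cons_val_zero, Matrix.cons_val_one, Matrix.cons_val_two,
      Matrix.cons_val, Matrix.head_cons, Matrix.tail_cons] at h
    have e1 : x a = P a := by rw [← hPx, res_mem ha]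
    have e2 : x b = P b := by rw [← hPx, res_mem hb]
    have e3 : y a = Q a := by rw [← hQy, res_mem ha]
    have e4 : y b = Q b := by rw [← hQy, res_mem hb]
    have e5 : z a = R a := by rw [← hRz, res_mem ha]
    have e6 : z b = R b := by rw [← hRz, res_mem hb]
    unfold m2
    rw [e1, e2, e3, e4, e5, e6]
    refine le_trans (le_of_eq ?_) h
    congr 1
    ring
  have h := s1_aux (p := m2 y z a b) (q := m2 x z a b) (r := m2 x y a b)
    ((hval X hX i).diff (hval X' hX' i) x3) ((hval Y hY i).diff (hval Y' hY' i) y3)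
    ((hval Z hZ i).diff (hval Z' hZ' i) z3) (by
      intro u hu v hv w hw
      have hu' : ∃ P ∈ M, res S P = x ∧ P i = u := by
        rcases hu with rfl | hu
        · exact ⟨X, hX, x1, rfl⟩
        · exact ⟨X', hX', x2, (Set.mem_singleton_iff.1 hu).symm⟩
      have hv' : ∃ P ∈ M, res S P = y ∧ P i = v := by
        rcases hv with rfl | hv
        · exact ⟨Y, hY, y1, rfl⟩
        · exact ⟨Y', hY', y2, (Set.mem_singleton_iff.1 hv).symm⟩
      have hw' : ∃ P ∈ M, res S P = z ∧ P i = w := by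
        rcases hw with rfl | hw
        · exact ⟨Z, hZ, z1, rfl⟩
        · exact ⟨Z', hZ', z2, (Set.mem_singleton_iff.1 hw).symm⟩
      obtain ⟨P, hP, hP1, rfl⟩ := hu'
      obtain ⟨Q, hQ, hQ1, rfl⟩ := hv'
      obtain ⟨R, hR, hR1, rfl⟩ := hw'
      exact key P hP Q hQ R hR hP1 hQ1 hR1)
  linarith

theorem sHyp_DD {M : Finset (ι → ℝ)} {t : ι → ℝ} (hTS : TS (M : Set (ι → ℝ)))
    (hval : ∀ c ∈ M, ∀ r, Al (t r) (c r)) (ht : ∀ r, 0 ≤ t r ∧ t r < 1 / 4) (S : Finset ι)
    (i : ι) : SHyp t S (DD M S i) := by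
  refine ⟨star_DD hTS hval S i, ?_, fun r _ => ht r⟩
  intro x hx r hr
  obtain ⟨X, hX, X', hX', x1, x2, x3⟩ := mem_DD.1 hx
  rw [← x1, res_mem hr]
  exact hval X hX r

end Pool.Agent.Lib.H73H
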