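import Pool.Agent.Lib.H73H.SDefs

set_option autoImplicit false

namespace Pool.Agent.Lib.H73H

open Classical HellerS

/-! S2: adding one row, counting. -/

variable {ι : Type*}

/-- As `HellerS.card_insert_row` (read its proof): the fibre of `ρ ∈ pr E S'` in
`pr E (insert b S')` injects into the values in row `b`; it has at most one element if
`ρ ∉ DD`, at most two if `ρ ∉ T3`, and at most three always (`Al` gives at most three values). So
it is at most `1 + (if ρ ∈ DD then 1 else 0) + (if ρ ∈ T3 then 1 else 0)` (`T3 ⊆ DD`). -/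
theorem s2_card3 {E : Finset (ι → ℝ)} {b : ι} {tb : ℝ} (hal : ∀ x ∈ E, Al tb (x b)) :
    (E.image (fun c => c b)).card ≤ 3 := by
  by_cases h0 : tb = 0
  · have : E.image (fun c => c b) ⊆ {-1, 0, 1} := by
      intro x hx
      obtain ⟨c, hc, rfl⟩ := Finset.mem_image.1 hx
      rcases hal c hc with ⟨h, _⟩ | ⟨_, h⟩
      · exact absurd h0 h
      · simpa using h
    exact (Finset.card_le_card this).trans Finset.card_le_three
  · have : E.image (fun c => c b) ⊆ {tb, tb - 1} := by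
      intro x hx
      obtain ⟨c, hc, rfl⟩ := Finset.mem_image.1 hx
      rcases hal c hc with ⟨_, h⟩ | ⟨h, _⟩
      · simpa using h
      · exact absurd h h0
    exact (Finset.card_le_card this).trans (Finset.card_le_two.trans (by norm_num))

theorem s2_mem_T3 {M : Finset (ι → ℝ)} {S : Finset ι} {i : ι} {ρ : ι → ℝ} :
    ρ ∈ T3 M S i ↔ ∃ c ∈ M, ∃ c' ∈ M, ∃ c'' ∈ M, res S c = ρ ∧ res S c' = ρ ∧
      res S c'' = ρ ∧ c i ≠ c' i ∧ c i ≠ c'' i ∧ c' i ≠ c'' i := by
  unfold T3
  rw [Finset.mem_filter]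
  constructor
  · exact fun h => h.2
  · rintro ⟨c, hc, c', hc', c'', hc'', h1, h2⟩
    exact ⟨Finset.mem_image.2 ⟨c, hc, h1⟩, c, hc, c', hc', c'', hc'', h1, h2⟩

theorem s2_inj {E : Finset (ι → ℝ)} {S : Finset ι} {i : ι} {ρ σ σ' : ι → ℝ}
    (hσ : σ ∈ (pr E (insert i S)).filter (fun σ => res S σ = ρ))
    (hσ' : σ' ∈ (pr E (insert i S)).filter (fun σ => res S σ = ρ)) (he : σ i = σ' i) :
    σ = σ' := by
  obtain ⟨hσ1, hσ2⟩ := Finset.mem_filter.1 hσ
  obtain ⟨hσ1', hσ2'⟩ := Finset.mem_filter.1 hσ'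
  obtain ⟨c, hc, rfl⟩ := Finset.mem_image.1 hσ1
  obtain ⟨c', hc', rfl⟩ := Finset.mem_image.1 hσ1'
  rw [res_res (Finset.subset_insert i S)] at hσ2 hσ2'
  rw [res_mem (Finset.mem_insert_self i S), res_mem (Finset.mem_insert_self i S)] at he
  rw [res_eq_iff]
  intro j hj
  rcases Finset.mem_insert.1 hj with rfl | hj
  · exact he
  · exact (res_eq_iff.1 (hσ2.trans hσ2'.symm)) j hj

theorem s2_lift {E : Finset (ι → ℝ)} {S : Finset ι} {i : ι} {ρ σ : ι → ℝ}
    (hσ : σ ∈ (pr E (insert i S)).filter (fun σ => res S σ = ρ)) :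
    ∃ c ∈ E, res S c = ρ ∧ c i = σ i := by
  obtain ⟨hσ1, hσ2⟩ := Finset.mem_filter.1 hσ
  obtain ⟨c, hc, rfl⟩ := Finset.mem_image.1 hσ1
  rw [res_res (Finset.subset_insert i S)] at hσ2
  exact ⟨c, hc, hσ2, (res_mem (Finset.mem_insert_self i S)).symm⟩

theorem s2_count {E : Finset (ι → ℝ)} {S' : Finset ι} {b : ι} {tb : ℝ} (hb : b ∉ S')
    (hal : ∀ x ∈ E, Al tb (x b)) :
    (pr E (insert b S')).card ≤ (pr E S').card + (DD E S' b).card + (T3 E S' b).card := by
  have hmaps : ∀ σ ∈ pr E (insert b S'), res S' σ ∈ pr E S' := by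
    intro σ hσ
    obtain ⟨c, hc, rfl⟩ := Finset.mem_image.1 hσ
    exact Finset.mem_image.2 ⟨c, hc, (res_res (Finset.subset_insert b S') c).symm⟩
  rw [Finset.card_eq_sum_card_fiberwise hmaps]
  have hfib : ∀ ρ ∈ pr E S', ((pr E (insert b S')).filter (fun σ => res S' σ = ρ)).card ≤
      1 + (if ρ ∈ DD E S' b then 1 else 0) + (if ρ ∈ T3 E S' b then 1 else 0) := by
    intro ρ _
    by_cases hD : ρ ∈ DD E S' b
    · rw [if_pos hD]
      by_cases hT : ρ ∈ T3 E S' b
      · rw [if_pos hT]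
        have h1 : ((pr E (insert b S')).filter (fun σ => res S' σ = ρ)).card ≤
            (E.image (fun c => c b)).card := by
          apply Finset.card_le_card_of_injOn (fun σ => σ b)
          · intro σ hσ
            obtain ⟨c, hc, -, h⟩ := s2_lift hσ
            exact Finset.mem_image.2 ⟨c, hc, h⟩
          · intro σ hσ σ' hσ' he
            exact s2_inj hσ hσ' he
        have h2 := s2_card3 hal
        omega
      · rw [if_neg hT]
        by_contra hlt
        have h3 : 2 < ((pr E (insert b S')).filter (fun σ => res S' σ = ρ)).card := by omega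
        obtain ⟨σ1, m1, σ2, m2', σ3, m3, n12, n13, n23⟩ := Finset.two_lt_card.1 h3
        obtain ⟨c1, hc1, r1, v1⟩ := s2_lift m1
        obtain ⟨c2, hc2, r2, v2⟩ := s2_lift m2'
        obtain ⟨c3, hc3, r3, v3⟩ := s2_lift m3
        refine hT (s2_mem_T3.2 ⟨c1, hc1, c2, hc2, c3, hc3, r1, r2, r3, ?_, ?_, ?_⟩)
        · rw [v1, v2]
          exact fun h => n12 (s2_inj m1 m2' h)
        · rw [v1, v3]
          exact fun h => n13 (s2_inj m1 m3 h)
        · rw [v2, v3]
          exact fun h => n23 (s2_inj m2' m3 h)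
    · rw [if_neg hD, add_zero]
      refine le_trans ?_ (Nat.le_add_right _ _)
      rw [Finset.card_le_one]
      intro σ hσ σ' hσ'
      obtain ⟨c, hc, hr, hv⟩ := s2_lift hσ
      obtain ⟨c', hc', hr', hv'⟩ := s2_lift hσ'
      apply s2_inj hσ hσ'
      rw [← hv, ← hv']
      by_contra hne
      exact hD (mem_DD.2 ⟨c, hc, c', hc', hr, hr', hne⟩)
  refine (Finset.sum_le_sum hfib).trans ?_
  rw [Finset.sum_add_distrib, Finset.sum_add_distrib, Finset.sum_ite_mem, Finset.sum_ite_mem]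
  simp only [Finset.sum_const, smul_eq_mul, mul_one]
  have h1 : (pr E S' ∩ DD E S' b).card ≤ (DD E S' b).card :=
    Finset.card_le_card Finset.inter_subset_right
  have h2 : (pr E S' ∩ T3 E S' b).card ≤ (T3 E S' b).card :=
    Finset.card_le_card Finset.inter_subset_right
  omega

/-- a row with `t b ≠ 0` has only two values -/
theorem s2_T3 {E : Finset (ι → ℝ)} {S' : Finset ι} {b : ι} {tb : ℝ} (htb : tb ≠ 0)
    (hal : ∀ x ∈ E, Al tb (x b)) : T3 E S' b = ∅ := by
  rw [Finset.eq_empty_iff_forall_notMem]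
  intro ρ hρ
  obtain ⟨c, hc, c', hc', c'', hc'', -, -, -, h1, h2, h3⟩ := s2_mem_T3.1 hρ
  have two : ∀ x ∈ E, x b = tb ∨ x b = tb - 1 := by
    intro x hx
    rcases hal x hx with ⟨_, h⟩ | ⟨h, _⟩
    · exact h
    · exact absurd h htb
  rcases two c hc with e | e <;> rcases two c' hc' with e' | e' <;>
    rcases two c'' hc'' with e'' | e'' <;>
    first
    | exact h1 (e.trans e'.symm)
    | exact h2 (e.trans e''.symm)
    | exact h3 (e'.trans e''.symm)

theorem T3_subset_DD {E : Finset (ι → ℝ)} {S' : Finset ι} {b : ι} :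
    T3 E S' b ⊆ DD E S' b := by
  intro ρ hρ
  obtain ⟨c, hc, c', hc', c'', hc'', r1, r2, -, h1, -⟩ := s2_mem_T3.1 hρ
  exact mem_DD.2 ⟨c, hc, c', hc', r1, r2, h1⟩

end Pool.Agent.Lib.H73H
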