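import Pool.Agent.Lib.H73H.SDefs

set_option autoImplicit false

namespace Pool.Agent.Lib.H73H

open Classical HellerS

/-! S3: row `b` of type P: at most one doubled pattern. -/

variable {ι : Type*}

/-- pure numbers: the triples of PROOF.md, Part I, `b` of type P. `α = t b`, `x = w c`,
`x' = w' c`, `γ = t c`. The hypothesis is (*) for `(w, v), (w, v'), (w', v'')` and for
`(w', v), (w', v'), (w, v'')`. -/
theorem s3_num {α γ x x' : ℝ} (hα : 0 < α ∧ α < 1 / 4) (hγ : 0 ≤ γ ∧ γ < 1 / 4)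
    (hx : Al γ x) (hx' : Al γ x') (hne : x ≠ x')
    (h : |α * x - x * (α - 1)| + |(α - 1) * x' - x * (α - 1)| + |α * x' - x * (α - 1)| ≤ 2)
    (h' : |α * x' - x' * (α - 1)| + |(α - 1) * x - x' * (α - 1)| +
      |α * x - x' * (α - 1)| ≤ 2) : False := by
  obtain ⟨a1, a2⟩ := hα
  obtain ⟨g1, g2⟩ := hγ
  have p1 := le_abs_self (α * x - x * (α - 1))
  have p2 := neg_le_abs (α * x - x * (α - 1))
  have p3 := le_abs_self ((α - 1) * x' - x * (α - 1))
  have p4 := neg_le_abs ((α - 1) * x' - x * (α - 1))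
  have p5 := le_abs_self (α * x' - x * (α - 1))
  have p6 := neg_le_abs (α * x' - x * (α - 1))
  have q1 := le_abs_self (α * x' - x' * (α - 1))
  have q2 := neg_le_abs (α * x' - x' * (α - 1))
  have q3 := le_abs_self ((α - 1) * x - x' * (α - 1))
  have q4 := neg_le_abs ((α - 1) * x - x' * (α - 1))
  have q5 := le_abs_self (α * x - x' * (α - 1))
  have q6 := neg_le_abs (α * x - x' * (α - 1))
  rcases hx with ⟨h0, e | e⟩ | ⟨h0, e | e | e⟩ <;>
    rcases hx' with ⟨h0', e' | e'⟩ | ⟨h0', e' | e' | e'⟩ <;>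
    first
    | exact absurd h0' h0
    | exact absurd h0 h0'
    | exact absurd (e.trans e'.symm) hne
    | (subst e; subst e'; linarith)

theorem s3_row {E : Finset (ι → ℝ)} {S' : Finset ι} {b : ι} {ρ ρ' : ι → ℝ}
    (h : ρ ∈ DD E S' b) (h' : ρ' ∈ DD E S' b) (hne : ρ ≠ ρ') : ∃ c ∈ S', ρ c ≠ ρ' c := by
  by_contra hcon
  push Not at hcon
  apply hne
  obtain ⟨c, -, -, -, e, -⟩ := mem_DD.1 h
  obtain ⟨c', -, -, -, e', -⟩ := mem_DD.1 h'
  funext r
  by_cases hr : r ∈ S'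
  · exact hcon r hr
  · rw [← e, ← e', res_notMem hr, res_notMem hr]

theorem s3_lifts {E : Finset (ι → ℝ)} {S' : Finset ι} {b : ι} {tb : ℝ} {ρ : ι → ℝ}
    (htb : tb ≠ 0) (hal : ∀ x ∈ E, Al tb (x b)) (h : ρ ∈ DD E S' b) :
    ∃ x ∈ E, ∃ y ∈ E, (∀ r ∈ S', x r = ρ r) ∧ (∀ r ∈ S', y r = ρ r) ∧ x b = tb ∧
      y b = tb - 1 := by
  obtain ⟨c, hc, c', hc', e, e', hne⟩ := mem_DD.1 h
  have two : ∀ x ∈ E, x b = tb ∨ x b = tb - 1 := by
    intro x hx
    rcases hal x hx with ⟨_, h⟩ | ⟨h, _⟩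
    · exact h
    · exact absurd h htb
  have hr : ∀ r ∈ S', c r = ρ r := fun r hr => by rw [← e, res_mem hr]
  have hr' : ∀ r ∈ S', c' r = ρ r := fun r hr => by rw [← e', res_mem hr]
  rcases two c hc with h1 | h1 <;> rcases two c' hc' with h2 | h2
  · exact absurd (h1.trans h2.symm) hne
  · exact ⟨c, hc, c', hc', hr, hr', h1, h2⟩
  · exact ⟨c', hc', c, hc, hr', hr, h2, h1⟩
  · exact absurd (h1.trans h2.symm) hne

/-- two different patterns `ρ ≠ ρ'` in `DD E S' b` differ in some row `c ∈ S'`; each has lifts with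
the two values `t b`, `t b - 1` in row `b`; `s3_num`. -/
theorem s3 {t : ι → ℝ} {S : Finset ι} {E : Finset (ι → ℝ)} (h : SHyp t S E) {S' : Finset ι}
    {b : ι} (hS' : S' ⊆ S) (hb : b ∈ S) (htb : t b ≠ 0) : (DD E S' b).card ≤ 1 := by
  rw [Finset.card_le_one]
  intro ρ hρ ρ' hρ'
  by_contra hne
  obtain ⟨c, hc, hcne⟩ := s3_row hρ hρ' hne
  have hal : ∀ x ∈ E, Al (t b) (x b) := fun x hx => h.al x hx b hb
  obtain ⟨x, hx, y, hy, xr, yr, xb, yb⟩ := s3_lifts htb hal hρ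
  obtain ⟨x', hx', y', hy', xr', yr', xb', yb'⟩ := s3_lifts htb hal hρ'
  have hcS := hS' hc
  have hα : 0 < t b ∧ t b < 1 / 4 := ⟨lt_of_le_of_ne (h.small b hb).1 (Ne.symm htb),
    (h.small b hb).2⟩
  have A1 : Al (t c) (ρ c) := by rw [← xr c hc]; exact h.al x hx c hcS
  have A2 : Al (t c) (ρ' c) := by rw [← xr' c hc]; exact h.al x' hx' c hcS
  have s1 := h.star b hb c hcS x hx y hy y' hy'
  have s2 := h.star b hb c hcS x' hx' y' hy' y hy
  unfold m2 at s1 s2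
  rw [xb, yb, yb', xr c hc, yr c hc, yr' c hc] at s1
  rw [xb', yb', yb, xr' c hc, yr' c hc, yr c hc] at s2
  exact s3_num hα (h.small c hcS) A1 A2 hcne s1 s2

end Pool.Agent.Lib.H73H
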