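import Pool.Agent.Lib.H73H.SDefs

set_option autoImplicit false

namespace Pool.Agent.Lib.H73H

open Classical HellerS

/-! S4: row `b` of type Z: two different doubled patterns. -/

variable {ι : Type*}

/-- (i): `γ = t c > 0`. `x = γ - 1`, `x' = γ` for the double lifts `v ≠ v'` over `x` and
the lift `v'' ≠ 0` over `x'`: (*) is impossible. -/
theorem s4_i {γ v v' v'' : ℝ} (hγ : 0 < γ ∧ γ < 1 / 4)
    (hv : v = -1 ∨ v = 0 ∨ v = 1) (hv' : v' = -1 ∨ v' = 0 ∨ v' = 1) (hne : v ≠ v')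
    (hv'' : v'' = -1 ∨ v'' = 1)
    (h : |v * (γ - 1) - (γ - 1) * v'| + |v' * γ - (γ - 1) * v''| +
      |v * γ - (γ - 1) * v''| ≤ 2) : False := by
  obtain ⟨g1, g2⟩ := hγ
  have p1 := le_abs_self (v * (γ - 1) - (γ - 1) * v')
  have p2 := neg_le_abs (v * (γ - 1) - (γ - 1) * v')
  have p3 := le_abs_self (v' * γ - (γ - 1) * v'')
  have p4 := neg_le_abs (v' * γ - (γ - 1) * v'')
  have p5 := le_abs_self (v * γ - (γ - 1) * v'')
  have p6 := neg_le_abs (v * γ - (γ - 1) * v'')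
  rcases hv with e | e | e <;> rcases hv' with e' | e' | e' <;> rcases hv'' with e'' | e'' <;>
    first
    | exact absurd (e.trans e'.symm) hne
    | (subst e; subst e'; subst e''; linarith)

/-- (ii): `x = s = 1` or `-1`, `x' = 0` -/
theorem s4_ii {s v v' v'' : ℝ} (hs : s = -1 ∨ s = 1)
    (hv : v = -1 ∨ v = 0 ∨ v = 1) (hv' : v' = -1 ∨ v' = 0 ∨ v' = 1) (hne : v ≠ v')
    (hv'' : v'' = -1 ∨ v'' = 1)
    (h : |v * s - s * v'| + |v' * 0 - s * v''| + |v * 0 - s * v''| ≤ 2) : False := by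
  have p1 := le_abs_self (v * s - s * v')
  have p2 := neg_le_abs (v * s - s * v')
  have p3 := le_abs_self (v' * 0 - s * v'')
  have p4 := neg_le_abs (v' * 0 - s * v'')
  have p5 := le_abs_self (v * 0 - s * v'')
  have p6 := neg_le_abs (v * 0 - s * v'')
  rcases hs with es | es <;> rcases hv with e | e | e <;> rcases hv' with e' | e' | e' <;>
    rcases hv'' with e'' | e'' <;>
    first
    | exact absurd (e.trans e'.symm) hne
    | (subst es; subst e; subst e'; subst e''; linarith)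

/-- (iii): `x = s`, `x' = -s`: every lift `v''` over `x'` is `-v` or `-v'`, and `|v - v'| = 1` -/
theorem s4_iii {s v v' v'' : ℝ} (hs : s = -1 ∨ s = 1)
    (hv : v = -1 ∨ v = 0 ∨ v = 1) (hv' : v' = -1 ∨ v' = 0 ∨ v' = 1) (hne : v ≠ v')
    (hv'' : v'' = -1 ∨ v'' = 0 ∨ v'' = 1)
    (h : |v * s - s * v'| + |v' * (-s) - s * v''| + |v * (-s) - s * v''| ≤ 2) :
    (v'' = -v ∨ v'' = -v') ∧ |v - v'| = 1 := by
  have p1 := le_abs_self (v * s - s * v')
  have p2 := neg_le_abs (v * s - s * v')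
  have p3 := le_abs_self (v' * (-s) - s * v'')
  have p4 := neg_le_abs (v' * (-s) - s * v'')
  have p5 := le_abs_self (v * (-s) - s * v'')
  have p6 := neg_le_abs (v * (-s) - s * v'')
  rcases hs with es | es <;> rcases hv with e | e | e <;> rcases hv' with e' | e' | e' <;>
    rcases hv'' with e'' | e'' | e'' <;>
    first
    | exact absurd (e.trans e'.symm) hne
    | (exfalso; subst es; subst e; subst e'; subst e''; linarith)
    | (rw [e, e', e'']; norm_num)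

theorem s4_star {t : ι → ℝ} {S : Finset ι} {E : Finset (ι → ℝ)} (h : SHyp t S E) {S' : Finset ι}
    {b : ι} (hS' : S' ⊆ S) (hb : b ∈ S) {ρ ρ' : ι → ℝ} {X Y Z : ι → ℝ} (hX : X ∈ E) (hY : Y ∈ E)
    (hZ : Z ∈ E) (rX : res S' X = ρ) (rY : res S' Y = ρ) (rZ : res S' Z = ρ') {c : ι}
    (hc : c ∈ S') :
    |X b * ρ c - ρ c * Y b| + |Y b * ρ' c - ρ c * Z b| + |X b * ρ' c - ρ c * Z b| ≤ 2 := by
  have s := h.star b hb c (hS' hc) X hX Y hY Z hZ
  unfold m2 at s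
  have e1 : ρ c = X c := by rw [← rX, res_mem hc]
  have e2 : Y c = X c := by rw [← e1, ← rY, res_mem hc]
  have e3 : ρ' c = Z c := by rw [← rZ, res_mem hc]
  rw [e2] at s
  rw [e1, e3]
  exact s

theorem s4_nz {E : Finset (ι → ℝ)} {S' : Finset ι} {b : ι} {ρ : ι → ℝ}
    (hv : ∀ x ∈ E, x b = -1 ∨ x b = 0 ∨ x b = 1) (h : ρ ∈ DD E S' b) :
    ∃ Z ∈ E, res S' Z = ρ ∧ (Z b = -1 ∨ Z b = 1) := by
  obtain ⟨c, hc, c', hc', e, e', hne⟩ := mem_DD.1 h
  rcases hv c hc with h1 | h1 | h1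
  · exact ⟨c, hc, e, Or.inl h1⟩
  · rcases hv c' hc' with h2 | h2 | h2
    · exact ⟨c', hc', e', Or.inl h2⟩
    · exact absurd (h1.trans h2.symm) hne
    · exact ⟨c', hc', e', Or.inr h2⟩
  · exact ⟨c, hc, e, Or.inr h1⟩

/-- (i) and (ii) in one direction -/
theorem s4_half {t : ι → ℝ} {S : Finset ι} {E : Finset (ι → ℝ)} (h : SHyp t S E) {S' : Finset ι}
    {b : ι} (hS' : S' ⊆ S) (hb : b ∈ S) (htb : t b = 0) {ρ ρ' : ι → ℝ}
    (hρ : ρ ∈ DD E S' b) (hρ' : ρ' ∈ DD E S' b) {c : ι} (hc : c ∈ S') :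
    (t c ≠ 0 → ¬ (ρ c = t c - 1 ∧ ρ' c = t c)) ∧
    (t c = 0 → ¬ ((ρ c = -1 ∨ ρ c = 1) ∧ ρ' c = 0)) := by
  have hv : ∀ x ∈ E, x b = -1 ∨ x b = 0 ∨ x b = 1 := by
    intro x hx
    rcases h.al x hx b hb with ⟨h0, _⟩ | ⟨_, h1⟩
    · exact absurd htb h0
    · exact h1
  obtain ⟨X, hX, Y, hY, rX, rY, hne⟩ := mem_DD.1 hρ
  obtain ⟨Z, hZ, rZ, hZb⟩ := s4_nz hv hρ'
  have s := s4_star h hS' hb hX hY hZ rX rY rZ hc
  constructor
  · rintro h0 ⟨e1, e2⟩
    rw [e1, e2] at s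
    exact s4_i ⟨lt_of_le_of_ne (h.small c (hS' hc)).1 (Ne.symm h0), (h.small c (hS' hc)).2⟩
      (hv X hX) (hv Y hY) hne hZb s
  · rintro h0 ⟨e1, e2⟩
    rw [e2] at s
    exact s4_ii e1 (hv X hX) (hv Y hY) hne hZb s

/-- PROOF.md, Part I, `b` of type Z, (i) to (iv). `ρ` and `ρ'` differ in some row of `S'`; by (i) and
(ii) there is a row `c` of type Z with `ρ c = s ≠ 0`, `ρ' c = -s`. By (iii) (for all pairs of lifts
of `ρ` and all lifts of `ρ'`) `ρ` has exactly the lifts `v`, `v'` and `ρ'` the lifts `-v`, `-v'`;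
one of them, say `v`, is not zero; (iv): in a row `d` of type Z with `ρ d = ρ' d ≠ 0`, (*) for
`x = (ρ, v)`, `y = (ρ', -v)`, `z = y` gives `2 * |2 * v * ρ d| ≤ 2`: contradiction. -/
theorem s4 {t : ι → ℝ} {S : Finset ι} {E : Finset (ι → ℝ)} (h : SHyp t S E) {S' : Finset ι}
    {b : ι} (hS' : S' ⊆ S) (hb : b ∈ S) (htb : t b = 0) {ρ ρ' : ι → ℝ}
    (hρ : ρ ∈ DD E S' b) (hρ' : ρ' ∈ DD E S' b) (hne : ρ ≠ ρ') :
    (∀ c ∈ S', ρ' c = if t c = 0 then -ρ c else ρ c) ∧ ρ ∉ T3 E S' b := by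
  have hv : ∀ x ∈ E, x b = -1 ∨ x b = 0 ∨ x b = 1 := by
    intro x hx
    rcases h.al x hx b hb with ⟨h0, _⟩ | ⟨_, h1⟩
    · exact absurd htb h0
    · exact h1
  have hval : ∀ σ ∈ DD E S' b, ∀ c ∈ S', Al (t c) (σ c) := by
    intro σ hσ c hc
    obtain ⟨X, hX, Y, hY, rX, rY, hne⟩ := mem_DD.1 hσ
    rw [← rX, res_mem hc]
    exact h.al X hX c (hS' hc)
  -- rows of type P
  have hP : ∀ c ∈ S', t c ≠ 0 → ρ' c = ρ c := by
    intro c hc h0
    have a1 := (s4_half h hS' hb htb hρ hρ' hc).1 h0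
    have a2 := (s4_half h hS' hb htb hρ' hρ hc).1 h0
    rcases hval ρ hρ c hc with ⟨_, e | e⟩ | ⟨h1, _⟩
    · rcases hval ρ' hρ' c hc with ⟨_, e' | e'⟩ | ⟨h1, _⟩
      · rw [e, e']
      · exact absurd ⟨e', e⟩ a2
      · exact absurd h1 h0
    · rcases hval ρ' hρ' c hc with ⟨_, e' | e'⟩ | ⟨h1, _⟩
      · exact absurd ⟨e, e'⟩ a1
      · rw [e, e']
      · exact absurd h1 h0
    · exact absurd h1 h0
  -- rows of type Z
  have hZ : ∀ c ∈ S', t c = 0 → (ρ c = 0 ∧ ρ' c = 0) ∨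
      ((ρ c = -1 ∨ ρ c = 1) ∧ (ρ' c = ρ c ∨ ρ' c = -ρ c)) := by
    intro c hc h0
    have a1 := (s4_half h hS' hb htb hρ hρ' hc).2 h0
    have a2 := (s4_half h hS' hb htb hρ' hρ hc).2 h0
    rcases hval ρ hρ c hc with ⟨h1, _⟩ | ⟨_, e | e | e⟩
    · exact absurd h0 h1
    · rcases hval ρ' hρ' c hc with ⟨h1, _⟩ | ⟨_, e' | e' | e'⟩
      · exact absurd h0 h1
      · exact Or.inr ⟨Or.inl e, Or.inl (e'.trans e.symm)⟩
      · exact absurd ⟨Or.inl e, e'⟩ a1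
      · exact Or.inr ⟨Or.inl e, Or.inr (by rw [e, e']; norm_num)⟩
    · rcases hval ρ' hρ' c hc with ⟨h1, _⟩ | ⟨_, e' | e' | e'⟩
      · exact absurd h0 h1
      · exact absurd ⟨Or.inl e', e⟩ a2
      · exact Or.inl ⟨e, e'⟩
      · exact absurd ⟨Or.inr e', e⟩ a2
    · rcases hval ρ' hρ' c hc with ⟨h1, _⟩ | ⟨_, e' | e' | e'⟩
      · exact absurd h0 h1
      · exact Or.inr ⟨Or.inr e, Or.inr (by rw [e, e'])⟩
      · exact absurd ⟨Or.inr e, e'⟩ a1
      · exact Or.inr ⟨Or.inr e, Or.inl (e'.trans e.symm)⟩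
  -- a row with opposite values
  obtain ⟨c0, hc0, hne0⟩ : ∃ c ∈ S', ρ c ≠ ρ' c := by
    by_contra hcon
    push Not at hcon
    apply hne
    obtain ⟨c, -, -, -, e, -⟩ := mem_DD.1 hρ
    obtain ⟨c', -, -, -, e', -⟩ := mem_DD.1 hρ'
    funext r
    by_cases hr : r ∈ S'
    · exact hcon r hr
    · rw [← e, ← e', res_notMem hr, res_notMem hr]
  have ht0 : t c0 = 0 := by
    by_contra h0
    exact hne0 (hP c0 hc0 h0).symm
  have hs0 : (ρ c0 = -1 ∨ ρ c0 = 1) ∧ ρ' c0 = -ρ c0 := by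
    rcases hZ c0 hc0 ht0 with ⟨e, e'⟩ | ⟨e, e' | e'⟩
    · exact absurd (e.trans e'.symm) hne0
    · exact absurd e'.symm hne0
    · exact ⟨e, e'⟩
  have hiii : ∀ X ∈ E, ∀ Y ∈ E, ∀ Z ∈ E, res S' X = ρ → res S' Y = ρ → res S' Z = ρ' →
      X b ≠ Y b → (Z b = -X b ∨ Z b = -Y b) ∧ |X b - Y b| = 1 := by
    intro X hX Y hY Z hZ' rX rY rZ hXY
    have s := s4_star h hS' hb hX hY hZ' rX rY rZ hc0
    rw [hs0.2] at s
    exact s4_iii hs0.1 (hv X hX) (hv Y hY) hXY (hv Z hZ') s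
  obtain ⟨X, hX, Y, hY, rX, rY, hXY⟩ := mem_DD.1 hρ
  obtain ⟨Z, hZm, W, hW, rZ, rW, hZW⟩ := mem_DD.1 hρ'
  constructor
  · intro c hc
    by_cases h0 : t c = 0
    · rw [if_pos h0]
      rcases hZ c hc h0 with ⟨e, e'⟩ | ⟨e, e' | e'⟩
      · rw [e, e', neg_zero]
      · exfalso
        -- a lift with nonzero value and the lift with the opposite value
        have hopp : ∃ P ∈ E, ∃ Q ∈ E, res S' P = ρ ∧ res S' Q = ρ' ∧ (P b = -1 ∨ P b = 1) ∧
            Q b = -P b := by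
          have z1 := (hiii X hX Y hY Z hZm rX rY rZ hXY).1
          have w1 := (hiii X hX Y hY W hW rX rY rW hXY).1
          have hXn : ∃ Q ∈ E, res S' Q = ρ' ∧ Q b = -X b := by
            rcases z1 with z | z
            · exact ⟨Z, hZm, rZ, z⟩
            · rcases w1 with w | w
              · exact ⟨W, hW, rW, w⟩
              · exact absurd (z.trans w.symm) hZW
          have hYn : ∃ Q ∈ E, res S' Q = ρ' ∧ Q b = -Y b := by
            rcases z1 with z | z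
            · rcases w1 with w | w
              · exact absurd (z.trans w.symm) hZW
              · exact ⟨W, hW, rW, w⟩
            · exact ⟨Z, hZm, rZ, z⟩
          rcases hv X hX with x | x | x
          · obtain ⟨Q, hQ, rQ, eQ⟩ := hXn
            exact ⟨X, hX, Q, hQ, rX, rQ, Or.inl x, eQ⟩
          · obtain ⟨Q, hQ, rQ, eQ⟩ := hYn
            rcases hv Y hY with y | y | y
            · exact ⟨Y, hY, Q, hQ, rY, rQ, Or.inl y, eQ⟩
            · exact absurd (x.trans y.symm) hXY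
            · exact ⟨Y, hY, Q, hQ, rY, rQ, Or.inr y, eQ⟩
          · obtain ⟨Q, hQ, rQ, eQ⟩ := hXn
            exact ⟨X, hX, Q, hQ, rX, rQ, Or.inr x, eQ⟩
        obtain ⟨P, hPm, Q, hQ, rP, rQ, hPb, hQb⟩ := hopp
        have s := h.star b hb c (hS' hc) P hPm Q hQ Q hQ
        unfold m2 at s
        have e1 : P c = ρ c := by rw [← rP, res_mem hc]
        have e2 : Q c = ρ c := by rw [← e', ← rQ, res_mem hc]
        rw [e1, e2, hQb] at s
        have p1 := le_abs_self (P b * ρ c - ρ c * -P b)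
        have p2 := neg_le_abs (P b * ρ c - ρ c * -P b)
        have p3 := abs_nonneg (-P b * ρ c - ρ c * -P b)
        rcases e with e | e <;> rcases hPb with e3 | e3 <;> rw [e, e3] at p1 p2 p3 s <;> linarith
      · exact e'
    · rw [if_neg h0]
      exact hP c hc h0
  · intro hT
    unfold T3 at hT
    obtain ⟨-, c1, m1, c2, m2', c3, m3, r1, r2, r3, n12, n13, n23⟩ := Finset.mem_filter.1 hT
    have d12 := (hiii c1 m1 c2 m2' Z hZm r1 r2 rZ n12).2
    have d13 := (hiii c1 m1 c3 m3 Z hZm r1 r3 rZ n13).2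
    have d23 := (hiii c2 m2' c3 m3 Z hZm r2 r3 rZ n23).2
    rcases hv c1 m1 with e1 | e1 | e1 <;> rcases hv c2 m2' with e2 | e2 | e2 <;>
      rcases hv c3 m3 with e3 | e3 | e3 <;>
      first
      | exact n12 (e1.trans e2.symm)
      | exact n13 (e1.trans e3.symm)
      | exact n23 (e2.trans e3.symm)
      | (rw [e1, e2] at d12; norm_num at d12; done)
      | (rw [e1, e3] at d13; norm_num at d13; done)
      | (rw [e2, e3] at d23; norm_num at d23; done)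

end Pool.Agent.Lib.H73H
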