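import Pool.Agent.Lib.H73H.S2
import Pool.Agent.Lib.H73H.S3
import Pool.Agent.Lib.H73H.S4

set_option autoImplicit false

namespace Pool.Agent.Lib.H73H

open Classical HellerS

/-! S5: a family with (*) has at most `1 + 2 * S.card` members. -/

variable {ι : Type*}

/-- type P: `s3`, `s2_T3`. Type Z: by `s4` a third element of `DD` would be equal to the second
one, so `DD` has at most two elements, and if it has two, `T3` is empty (`s4` for both orders);
if it has at most one, `T3 ⊆ DD` has at most one. -/
theorem s5_loss {t : ι → ℝ} {S : Finset ι} {E : Finset (ι → ℝ)} (h : SHyp t S E)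
    {S' : Finset ι} {b : ι} (hS' : S' ⊆ S) (hb : b ∈ S) :
    (DD E S' b).card + (T3 E S' b).card ≤ 2 := by
  by_cases htb : t b = 0
  · by_cases hD : (DD E S' b).card ≤ 1
    · have h1 : (T3 E S' b).card ≤ (DD E S' b).card := Finset.card_le_card T3_subset_DD
      omega
    · obtain ⟨ρ, hρ, ρ', hρ', hne⟩ := Finset.one_lt_card.1 (not_le.1 hD)
      have hT : T3 E S' b = ∅ := by
        rw [Finset.eq_empty_iff_forall_notMem]
        intro τ hτ
        have hτD := T3_subset_DD hτ
        by_cases h1 : τ = ρ
        · subst h1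
          exact (s4 h hS' hb htb hτD hρ' hne).2 hτ
        · exact (s4 h hS' hb htb hτD hρ h1).2 hτ
      have hDD : DD E S' b ⊆ {ρ, ρ'} := by
        intro τ hτ
        rw [Finset.mem_insert, Finset.mem_singleton]
        by_cases h1 : τ = ρ
        · exact Or.inl h1
        · right
          have a1 := (s4 h hS' hb htb hρ hτ (Ne.symm h1)).1
          have a2 := (s4 h hS' hb htb hρ hρ' hne).1
          obtain ⟨c, -, -, -, e, -⟩ := mem_DD.1 hτ
          obtain ⟨c', -, -, -, e', -⟩ := mem_DD.1 hρ'
          funext r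
          by_cases hr : r ∈ S'
          · rw [a1 r hr, a2 r hr]
          · rw [← e, ← e', res_notMem hr, res_notMem hr]
      have h2 := (Finset.card_le_card hDD).trans Finset.card_le_two
      rw [hT, Finset.card_empty]
      omega
  · have h1 := s3 h hS' hb htb
    have h2 := s2_T3 (E := E) (S' := S') htb (fun x hx => h.al x hx b hb)
    rw [h2, Finset.card_empty]
    omega

/-- induction on `S'` with `s2_count` and `s5_loss`; `(pr E ∅).card ≤ 1` -/
theorem s5_pr {t : ι → ℝ} {S : Finset ι} {E : Finset (ι → ℝ)} (h : SHyp t S E)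
    (S' : Finset ι) (hS' : S' ⊆ S) : (pr E S').card ≤ 1 + 2 * S'.card := by
  induction S' using Finset.induction_on with
  | empty =>
    rw [Finset.card_empty, mul_zero, add_zero, Finset.card_le_one]
    intro σ hσ σ' hσ'
    obtain ⟨c, hc, rfl⟩ := Finset.mem_image.1 hσ
    obtain ⟨c', hc', rfl⟩ := Finset.mem_image.1 hσ'
    rw [res_eq_iff]
    intro i hi
    exact absurd hi (Finset.notMem_empty i)
  | insert b S' hb ih =>
    have hS1 : S' ⊆ S := (Finset.subset_insert b S').trans hS'
    have hbS : b ∈ S := hS' (Finset.mem_insert_self b S')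
    have h1 := ih hS1
    have h2 := s2_count (E := E) (tb := t b) hb (fun x hx => h.al x hx b hbS)
    have h3 := s5_loss h hS1 hbS
    rw [Finset.card_insert_of_notMem hb]
    omega

/-- for `E` = `DD M S i`: `pr E S = E` -/
theorem s5_DD {M : Finset (ι → ℝ)} {t : ι → ℝ} {S : Finset ι} {i : ι}
    (h : SHyp t S (DD M S i)) : (DD M S i).card ≤ 1 + 2 * S.card := by
  have h1 := s5_pr h S le_rfl
  have h2 : pr (DD M S i) S = DD M S i := by
    ext ρ
    constructor
    · intro hρ
      obtain ⟨c, hc, rfl⟩ := Finset.mem_image.1 hρ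
      obtain ⟨d, -, -, -, e, -⟩ := mem_DD.1 hc
      have h3 : res S c = c := by rw [← e, res_res (Finset.Subset.refl S)]
      rw [h3]
      exact hc
    · intro hρ
      obtain ⟨d, -, -, -, e, -⟩ := mem_DD.1 hρ
      refine Finset.mem_image.2 ⟨ρ, hρ, ?_⟩
      rw [← e, res_res (Finset.Subset.refl S)]
  rw [h2] at h1
  exact h1

end Pool.Agent.Lib.H73H
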