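import Pool.Agent.Lib.H73H.SDefs

set_option autoImplicit false

namespace Pool.Agent.Lib.H73H

open Classical HellerS

/-! S6: at most one pattern has three lifts. -/

variable {ι : Type*}

/-- The values of row `i` above `ρ` are three different ones, so `t i = 0` and they are `-1, 0, 1`.
The 2x2 minor of the lifts with values `1`, `-1` in the rows `i`, `c` is `± 2 * ρ c`, so
`|ρ c| ≤ 1 / 2`; so `ρ c = 0` if `t c = 0` and `ρ c = t c` if `t c > 0` (as `|t c - 1| > 3 / 4`),
i.e. `ρ c = t c` in both cases. -/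
theorem s6 {M : Finset (ι → ℝ)} {t : ι → ℝ} (hTS : TS (M : Set (ι → ℝ)))
    (hval : ∀ c ∈ M, ∀ r, Al (t r) (c r)) (ht : ∀ r, 0 ≤ t r ∧ t r < 1 / 4) (S : Finset ι)
    (i : ι) : (T3 M S i).card ≤ 1 := by
  have key : ∀ ρ ∈ T3 M S i, ∀ c ∈ S, ρ c = t c := by
    intro ρ hρ c hc
    unfold T3 at hρ
    obtain ⟨-, c1, m1, c2, m2', c3, m3, r1, r2, r3, n12, n13, n23⟩ := Finset.mem_filter.1 hρ
    have hminor : ∀ X ∈ M, ∀ Y ∈ M, res S X = ρ → res S Y = ρ → X i = 1 → Y i = -1 →
        |ρ c| ≤ 1 / 2 := by
      intro X hX Y hY rX rY eX eY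
      have hh := hTS 2 ![i, c] ![X, Y] (by
        intro k
        fin_cases k
        · exact hX
        · exact hY)
      rw [Matrix.det_fin_two] at hh
      simp only [Matrix.of_apply, Matrix.cons_val_zero, Matrix.cons_val_one] at hh
      have e1 : X c = ρ c := by rw [← rX, res_mem hc]
      have e2 : Y c = ρ c := by rw [← rY, res_mem hc]
      rw [e1, e2, eX, eY] at hh
      have e3 : (1 : ℝ) * ρ c - -1 * ρ c = 2 * ρ c := by ring
      rw [e3, abs_mul, abs_two] at hh
      linarith
    have hsmall : |ρ c| ≤ 1 / 2 := by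
      rcases hval c1 m1 i with ⟨h0, a⟩ | ⟨h0, a⟩
      · exfalso
        have two : ∀ x ∈ M, x i = t i ∨ x i = t i - 1 := by
          intro x hx
          rcases hval x hx i with ⟨_, h⟩ | ⟨h, _⟩
          · exact h
          · exact absurd h h0
        rcases two c1 m1 with e | e <;> rcases two c2 m2' with e' | e' <;>
          rcases two c3 m3 with e'' | e'' <;>
          first
          | exact n12 (e.trans e'.symm)
          | exact n13 (e.trans e''.symm)
          | exact n23 (e'.trans e''.symm)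
      · have three : ∀ x ∈ M, x i = -1 ∨ x i = 0 ∨ x i = 1 := by
          intro x hx
          rcases hval x hx i with ⟨h, _⟩ | ⟨_, h⟩
          · exact absurd h0 h
          · exact h
        have hmin := hminor
        rcases three c1 m1 with e1 | e1 | e1 <;> rcases three c2 m2' with e2 | e2 | e2 <;>
          rcases three c3 m3 with e3 | e3 | e3 <;>
          first
          | exact absurd (e1.trans e2.symm) n12
          | exact absurd (e1.trans e3.symm) n13
          | exact absurd (e2.trans e3.symm) n23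
          | exact hmin c1 m1 c2 m2' r1 r2 e1 e2
          | exact hmin c2 m2' c1 m1 r2 r1 e2 e1
          | exact hmin c1 m1 c3 m3 r1 r3 e1 e3
          | exact hmin c3 m3 c1 m1 r3 r1 e3 e1
          | exact hmin c2 m2' c3 m3 r2 r3 e2 e3
          | exact hmin c3 m3 c2 m2' r3 r2 e3 e2
    have hal : Al (t c) (ρ c) := by
      rw [← r1, res_mem hc]
      exact hval c1 m1 c
    obtain ⟨l1, l2⟩ := abs_le.1 hsmall
    rcases hal with ⟨_, e | e⟩ | ⟨h0, e | e | e⟩
    · exact e
    · exfalso
      have := (ht c).2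
      rw [e] at l1
      linarith
    · exfalso
      rw [e] at l1
      linarith
    · rw [e, h0]
    · exfalso
      rw [e] at l2
      linarith
  rw [Finset.card_le_one]
  intro ρ hρ ρ' hρ'
  have z : ∀ σ ∈ T3 M S i, ∀ r, r ∉ S → σ r = 0 := by
    intro σ hσ r hr
    unfold T3 at hσ
    obtain ⟨-, c1, m1, c2, m2', c3, m3, r1, -⟩ := Finset.mem_filter.1 hσ
    rw [← r1, res_notMem hr]
  funext r
  by_cases hr : r ∈ S
  · rw [key ρ hρ r hr, key ρ' hρ' r hr]
  · rw [z ρ hρ r hr, z ρ' hρ' r hr]

end Pool.Agent.Lib.H73H
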