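import Pool.Agent.Lib.H73H.S1
import Pool.Agent.Lib.H73H.S5
import Pool.Agent.Lib.H73H.S6

set_option autoImplicit false

namespace Pool.Agent.Lib.H73H

open Classical HellerS

/-! S7: Part I. -/

variable {ι : Type*}

/-- induction on `S`: `s2_count`, `s5_DD` (with `sHyp_DD`), `s6` give
`(pr M (insert i S)).card ≤ (pr M S).card + (1 + 2 * S.card) + 1` -/
theorem s7_pr {M : Finset (ι → ℝ)} {t : ι → ℝ} (hTS : TS (M : Set (ι → ℝ)))
    (hval : ∀ c ∈ M, ∀ r, Al (t r) (c r)) (ht : ∀ r, 0 ≤ t r ∧ t r < 1 / 4) (S : Finset ι) :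
    (pr M S).card ≤ S.card ^ 2 + S.card + 1 := by
  induction S using Finset.induction_on with
  | empty =>
    have h1 : pr M ∅ ⊆ {fun _ => (0 : ℝ)} := by
      intro ρ hρ
      unfold pr at hρ
      rw [Finset.mem_image] at hρ
      obtain ⟨c, _, hc⟩ := hρ
      rw [Finset.mem_singleton, ← hc]
      funext r
      simp [res]
    have h2 := Finset.card_le_card h1
    rw [Finset.card_singleton] at h2
    simpa using h2
  | insert i S hi ih =>
    have h1 := s2_count (E := M) (S' := S) (b := i) (tb := t i) hi (fun x hx => hval x hx i)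
    have h2 := s5_DD (sHyp_DD hTS hval ht S i)
    have h3 := s6 hTS hval ht S i
    rw [Finset.card_insert_of_notMem hi]
    nlinarith [h1, h2, h3, ih]

theorem s7_small [Fintype ι] {M : Finset (ι → ℝ)} {t : ι → ℝ} (hTS : TS (M : Set (ι → ℝ)))
    (hval : ∀ c ∈ M, ∀ r, Al (t r) (c r)) (ht : ∀ r, 0 ≤ t r ∧ t r < 1 / 4) :
    M.card ≤ Fintype.card ι ^ 2 + Fintype.card ι + 1 := by
  have h1 := s7_pr hTS hval ht Finset.univ
  have h2 : pr M Finset.univ = M := by
    unfold pr
    have h3 : ∀ c : ι → ℝ, res Finset.univ c = c := by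
      intro c
      funext r
      simp [res]
    ext c
    simp [h3]
  rw [h2, Finset.card_univ] at h1
  exact h1

end Pool.Agent.Lib.H73H
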