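import Pool.Agent.Lib.Helper7.Heller4

set_option autoImplicit false

namespace Pool.Agent.Lib.H73H

open Classical HellerS

/-! H73H (MP_c07b9b_co), Part I: definitions. `TS`, `Al`, `res`, `pr`, `DD` are from
`Helper7.Heller1`, `Heller2`, `Heller4` (namespace `HellerS`). -/

variable {ι : Type*}

/-- two by two minor of the columns `x`, `y` in the rows `a`, `b` -/
def m2 (x y : ι → ℝ) (a b : ι) : ℝ := x a * y b - x b * y a

/-- the condition (*) -/
def Star (S : Finset ι) (E : Finset (ι → ℝ)) : Prop :=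
  ∀ a ∈ S, ∀ b ∈ S, ∀ x ∈ E, ∀ y ∈ E, ∀ z ∈ E,
    |m2 x y a b| + |m2 y z a b| + |m2 x z a b| ≤ 2

/-- restrictions having three different values in row `i` above them -/
noncomputable def T3 (M : Finset (ι → ℝ)) (S : Finset ι) (i : ι) : Finset (ι → ℝ) :=
  (pr M S).filter (fun ρ => ∃ c ∈ M, ∃ c' ∈ M, ∃ c'' ∈ M, res S c = ρ ∧ res S c' = ρ ∧
    res S c'' = ρ ∧ c i ≠ c' i ∧ c i ≠ c'' i ∧ c' i ≠ c'' i)

/-- the hypotheses on a family on the rows `S` -/
structure SHyp (t : ι → ℝ) (S : Finset ι) (E : Finset (ι → ℝ)) : Prop where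
  star : Star S E
  al : ∀ x ∈ E, ∀ r ∈ S, Al (t r) (x r)
  small : ∀ r ∈ S, 0 ≤ t r ∧ t r < 1 / 4

end Pool.Agent.Lib.H73H
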