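import Pool.Agent.Lib.H73H.G1

set_option autoImplicit false

namespace Pool.Agent.Lib.H73H

open Classical Module Submodule

variable {V : Type} [AddCommGroup V] [Module ℚ V]

/-! U1: classes modulo one vector in a uniform system. -/

/-- `y = l • x + θ • b` with `x ∉ span {b}`, `l, θ ≠ 0`, all in `S`: `|l| = 1` (`G = {b}`) and
`|θ| = 1` (`G = {x}`: `b ∉ span {x}` as `b ≠ 0` and `x ∉ span {b}`, `y - θ • b ∈ span {x}`). -/
theorem u1_one {k : ℕ} (hk : 1 ≤ k) {S : Set V} (hU : Unif k S) {b x y : V} (hb : b ∈ S)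
    (hb0 : b ≠ 0) (hx : x ∈ S) (hy : y ∈ S) (hxb : x ∉ span ℚ {b}) {l θ : ℚ} (hl : l ≠ 0)
    (hθ : θ ≠ 0) (he : y = l • x + θ • b) : |l| = 1 ∧ |θ| = 1 := by
  constructor
  · refine hU {b} (by simpa using hb) (by simpa using hk) x hx y hy (by simpa using hxb) l hl ?_
    rw [he, add_sub_cancel_left, Finset.coe_singleton]
    exact smul_mem _ _ (mem_span_singleton_self b)
  · refine hU {x} (by simpa using hx) (by simpa using hk) b hb y hy ?_ θ hθ ?_
    · rw [Finset.coe_singleton, mem_span_singleton]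
      rintro ⟨a, ha⟩
      apply hxb
      have ha0 : a ≠ 0 := by
        rintro rfl
        rw [zero_smul] at ha
        exact hb0 ha.symm
      rw [mem_span_singleton]
      exact ⟨a⁻¹, by rw [← ha, smul_smul, inv_mul_cancel₀ ha0, one_smul]⟩
    · rw [he, add_sub_cancel_right, Finset.coe_singleton]
      exact smul_mem _ _ (mem_span_singleton_self x)

/-- `y₁ = e₁ • (x + s • b)`, `y₂ = e₂ • (x - s • b)` is impossible -/
theorem u1_three {k : ℕ} (hk : 1 ≤ k) {S : Set V} (hU : Unif k S) {b x y₁ y₂ : V} (hb : b ∈ S)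
    (hb0 : b ≠ 0) (h1 : y₁ ∈ S) (h2 : y₂ ∈ S) (hxb : x ∉ span ℚ {b})
    {e₁ e₂ s : ℚ} (he₁ : e₁ = 1 ∨ e₁ = -1) (he₂ : e₂ = 1 ∨ e₂ = -1) (hs : s = 1 ∨ s = -1)
    (hy₁ : y₁ = e₁ • (x + s • b)) (hy₂ : y₂ = e₂ • (x - s • b)) : False := by
  have hbG : b ∉ span ℚ ((({y₂} : Finset V)) : Set V) := by
    rw [Finset.coe_singleton, mem_span_singleton]
    rintro ⟨a, ha⟩
    have ha0 : a ≠ 0 := by
      rintro rfl
      rw [zero_smul] at ha
      exact hb0 ha.symm
    have he0 : e₂ ≠ 0 := by rcases he₂ with h | h <;> rw [h] <;> norm_num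
    apply hxb
    rw [mem_span_singleton]
    refine ⟨(a * e₂)⁻¹ + s, ?_⟩
    have h3 : b = (a * e₂) • (x - s • b) := by rw [← smul_smul, ← hy₂, ha]
    have h4 : (a * e₂)⁻¹ • b = x - s • b := by
      conv_lhs => rw [h3]
      rw [smul_smul, inv_mul_cancel₀ (mul_ne_zero ha0 he0), one_smul]
    rw [add_smul, h4]
    abel
  have hl0 : 2 * e₁ * s ≠ 0 := by
    rcases he₁ with h | h <;> rcases hs with h' | h' <;> rw [h, h'] <;> norm_num
  have h5 := hU {y₂} (by simpa using h2) (by simpa using hk) b hb y₁ h1 hbG (2 * e₁ * s) hl0 (by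
    rw [Finset.coe_singleton, mem_span_singleton]
    refine ⟨e₁ * e₂, ?_⟩
    rw [hy₁, hy₂, smul_smul]
    have : e₁ * e₂ * e₂ = e₁ := by
      rcases he₂ with h | h <;> rw [h] <;> ring
    rw [this]
    module)
  rcases he₁ with h | h <;> rcases hs with h' | h' <;> rw [h, h'] at h5 <;> norm_num at h5

/-- Three different elements `x, y₁, y₂` of one class are impossible: by `u1_one`,
`y₁ = ±x ± b`, `y₂ = ±x ± b`, and `y₂` is parallel to `y₁` (excluded) or
`y₁ = e₁ • (x + s • b)`, `y₂ = e₂ • (x - s • b)` with signs `e₁, e₂, s`, so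
`y₁ - (2 * e₁ * s) • b = (e₁ * e₂) • y₂ ∈ span {y₂}`; `b ∉ span {y₂}` and `Unif` (`G = {y₂}`)
give `|2 * e₁ * s| = 1`. -/
theorem u1_two {k : ℕ} (hk : 1 ≤ k) {S : Set V} (hU : Unif k S) {E : Finset V}
    (hE : (E : Set V) ⊆ S) (hs : SimpleMod ⊥ E) {b : V} (hb : b ∈ S) (hb0 : b ≠ 0) {r : V}
    (hr : r ∈ E) (hrb : r ∉ span ℚ {b}) :
    (E.filter (fun x => ∃ l : ℚ, l ≠ 0 ∧ x - l • r ∈ span ℚ {b})).card ≤ 2 := by
  -- every other element of the class is `e • (r + s • b)` with signs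
  have key : ∀ x ∈ E, x ≠ r → (∃ l : ℚ, l ≠ 0 ∧ x - l • r ∈ span ℚ {b}) →
      ∃ e s : ℚ, (e = 1 ∨ e = -1) ∧ (s = 1 ∨ s = -1) ∧ x = e • (r + s • b) := by
    rintro x hx hne ⟨l, hl, hm⟩
    rw [mem_span_singleton] at hm
    obtain ⟨θ, hθ⟩ := hm
    have he : x = l • r + θ • b := by rw [hθ]; abel
    have hθ0 : θ ≠ 0 := by
      rintro rfl
      rw [zero_smul, add_zero] at he
      apply hs.2 r hr x hx hne.symm l
      rw [he, sub_self]
      exact zero_mem _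
    obtain ⟨h1, h2⟩ := u1_one hk hU hb hb0 (hE hr) (hE hx) hrb hl hθ0 he
    have h1' : l = 1 ∨ l = -1 := (abs_eq zero_le_one).1 h1
    have h2' : θ = 1 ∨ θ = -1 := (abs_eq zero_le_one).1 h2
    refine ⟨l, l * θ, h1', ?_, ?_⟩
    · rcases h1' with h | h <;> rcases h2' with h' | h' <;> rw [h, h'] <;> norm_num
    · rw [he, smul_add, smul_smul]
      have : l * (l * θ) = θ := by
        rcases h1' with h | h <;> rw [h] <;> ring
      rw [this]
  by_contra hcon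
  have hcon' : 2 < (E.filter (fun x => ∃ l : ℚ, l ≠ 0 ∧ x - l • r ∈ span ℚ {b})).card := by
    omega
  -- remove `r`: two different other elements
  set C := E.filter (fun x => ∃ l : ℚ, l ≠ 0 ∧ x - l • r ∈ span ℚ {b}) with hC
  have h2 : 1 < (C.erase r).card := by
    have := Finset.pred_card_le_card_erase (s := C) (a := r)
    omega
  obtain ⟨y₁, hy₁, y₂, hy₂, hne⟩ := Finset.one_lt_card.1 h2
  rw [Finset.mem_erase, hC, Finset.mem_filter] at hy₁ hy₂
  obtain ⟨e₁, s₁, he₁, hs₁, h₁⟩ := key y₁ hy₁.2.1 hy₁.1 hy₁.2.2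
  obtain ⟨e₂, s₂, he₂, hs₂, h₂⟩ := key y₂ hy₂.2.1 hy₂.1 hy₂.2.2
  by_cases hss : s₁ = s₂
  · subst hss
    apply hs.2 y₁ hy₁.2.1 y₂ hy₂.2.1 hne (e₂ * e₁)
    have : y₂ - (e₂ * e₁) • y₁ = 0 := by
      rw [h₁, h₂, smul_smul]
      have : e₂ * e₁ * e₁ = e₂ := by
        rcases he₁ with h | h <;> rw [h] <;> ring
      rw [this, sub_self]
    rw [this]
    exact zero_mem _
  · have hs2 : s₂ = - s₁ := by
      rcases hs₁ with h | h <;> rcases hs₂ with h' | h' <;> rw [h, h'] <;> norm_num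
      · exact hss (h.trans h'.symm)
      · exact hss (h.trans h'.symm)
    refine u1_three hk hU hb hb0 (hE hy₁.2.1) (hE hy₂.2.1) hrb he₁ he₂ hs₁ h₁ ?_
    rw [h₂, hs2, neg_smul, sub_eq_add_neg]

end Pool.Agent.Lib.H73H
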