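import Pool.Agent.Lib.H73H.U1

set_option autoImplicit false

namespace Pool.Agent.Lib.H73H

open Classical Module Submodule

variable {V : Type} [AddCommGroup V] [Module ℚ V]

theorem u2_claim {k : ℕ} {S : Set V} (hU : Unif k S) {b : V} (hb : b ∈ S) {H : Finset V}
    (hH : (H : Set V) ⊆ S) (hk : H.card + 2 ≤ k) {y y' : Fin 3 → V} (hy : ∀ i, y i ∈ S)
    (hy' : ∀ i, y' i ∈ S) {e l θ : Fin 3 → ℚ} (he : ∀ i, |e i| = 1) (hl : ∀ i, |l i| = 1)
    (hpart : ∀ i, y' i = l i • y i + θ i • b) {β : ℚ}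
    (hrel : ∑ i, e i • y i - β • b ∈ span ℚ (H : Set V))
    (hind : ∀ a₀ a₁ a₂ : ℚ, a₀ • b + a₁ • y 1 + a₂ • y 2 ∈ span ℚ (H : Set V) →
      a₀ = 0 ∧ a₁ = 0 ∧ a₂ = 0) (c : Finset (Fin 3)) :
    β + ∑ i ∈ c, e i * l i * θ i = 0 ∨ |β + ∑ i ∈ c, e i * l i * θ i| = 1 := by
  set η : ℚ := ∑ i ∈ c, e i * l i * θ i with hη
  by_cases h0 : β + η = 0
  · exact Or.inl h0
  right
  have hl2 : ∀ i, l i * l i = 1 := fun i => by
    have := hl i
    rw [← abs_mul_abs_self, this, one_mul]
  let z : Fin 3 → V := fun i => if i ∈ c then y' i else y i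
  have hzS : ∀ i, z i ∈ S := by
    intro i
    simp only [z]
    split_ifs
    · exact hy' i
    · exact hy i
  let s : Fin 3 → ℚ := fun i => if i ∈ c then e i * l i else e i
  have hs : ∀ i, |s i| = 1 := by
    intro i
    simp only [s]
    split_ifs
    · rw [abs_mul, he, hl, one_mul]
    · exact he i
  have hs0 : ∀ i, s i ≠ 0 := fun i h => by
    have := hs i
    rw [h, abs_zero] at this
    norm_num at this
  have hsz : ∀ i, s i • z i = e i • y i + (if i ∈ c then e i * l i * θ i else 0) • b := by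
    intro i
    simp only [s, z]
    split_ifs with hi
    · rw [hpart i, smul_add, smul_smul, smul_smul]
      have : e i * l i * l i = e i := by rw [mul_assoc, hl2, mul_one]
      rw [this]
    · rw [zero_smul, add_zero]
  have hsum : ∑ i, s i • z i = ∑ i, e i • y i + η • b := by
    rw [Finset.sum_congr rfl (fun i _ => hsz i), Finset.sum_add_distrib, ← Finset.sum_smul,
      Finset.sum_ite_mem, Finset.univ_inter]
  have hrel' : ∑ i, s i • z i - (β + η) • b ∈ span ℚ (H : Set V) := by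
    have : ∑ i, s i • z i - (β + η) • b = ∑ i, e i • y i - β • b := by
      rw [hsum, add_smul]; abel
    rw [this]; exact hrel
  let G : Finset V := insert (z 1) (insert (z 2) H)
  have hGS : (G : Set V) ⊆ S := by
    intro x hx
    simp only [G, Finset.coe_insert, Set.mem_insert_iff] at hx
    rcases hx with rfl | rfl | hx
    · exact hzS 1
    · exact hzS 2
    · exact hH hx
  have hGk : G.card ≤ k := by
    have h1 := Finset.card_insert_le (z 1) (insert (z 2) H)
    have h2 := Finset.card_insert_le (z 2) H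
    simp only [G]
    omega
  have hbG : b ∉ span ℚ (G : Set V) := by
    intro hbG
    simp only [G, Finset.coe_insert] at hbG
    rw [mem_span_insert] at hbG
    obtain ⟨a1, w, hw, hbw⟩ := hbG
    rw [mem_span_insert] at hw
    obtain ⟨a2, h, hh, hwh⟩ := hw
    let p : Fin 3 → ℚ := fun i => if i ∈ c then l i else 1
    let q : Fin 3 → ℚ := fun i => if i ∈ c then θ i else 0
    have hpq : ∀ i, z i = p i • y i + q i • b := by
      intro i
      simp only [z, p, q]
      split_ifs with hi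
      · exact hpart i
      · rw [one_smul, zero_smul, add_zero]
    have hp0 : ∀ i, p i ≠ 0 := by
      intro i
      simp only [p]
      split_ifs
      · intro h
        have := hl i
        rw [h, abs_zero] at this
        norm_num at this
      · exact one_ne_zero
    have h3 : (1 - a1 * q 1 - a2 * q 2) • b + (-(a1 * p 1)) • y 1 + (-(a2 * p 2)) • y 2 = h := by
      have h4 : h = b - a1 • z 1 - a2 • z 2 := by
        rw [hwh] at hbw
        rw [eq_sub_iff_add_eq, eq_sub_iff_add_eq]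
        conv_rhs => rw [hbw]
        abel
      rw [h4, hpq 1, hpq 2]
      module
    obtain ⟨c0, c1, c2⟩ := hind _ _ _ (h3 ▸ hh)
    have ha1 : a1 = 0 := by
      rcases mul_eq_zero.1 (neg_eq_zero.1 c1) with h | h
      · exact h
      · exact absurd h (hp0 1)
    have ha2 : a2 = 0 := by
      rcases mul_eq_zero.1 (neg_eq_zero.1 c2) with h | h
      · exact h
      · exact absurd h (hp0 2)
    rw [ha1, ha2] at c0
    norm_num at c0
  have hz0 : z 0 - ((s 0)⁻¹ * (β + η)) • b ∈ span ℚ (G : Set V) := by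
    have h5 : z 0 - ((s 0)⁻¹ * (β + η)) • b =
        (s 0)⁻¹ • (∑ i, s i • z i - (β + η) • b) - ((s 0)⁻¹ * s 1) • z 1 -
          ((s 0)⁻¹ * s 2) • z 2 := by
      rw [Fin.sum_univ_three, smul_sub, smul_add, smul_add, smul_smul, smul_smul, smul_smul,
        smul_smul, inv_mul_cancel₀ (hs0 0), one_smul]
      abel
    rw [h5]
    refine sub_mem (sub_mem (smul_mem _ _ ?_) (smul_mem _ _ ?_)) (smul_mem _ _ ?_)
    · refine span_mono ?_ hrel'
      intro x hx
      simp only [G, Finset.coe_insert]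
      right; right; exact hx
    · apply subset_span
      simp [G]
    · apply subset_span
      simp [G]
  have := hU G hGS hGk b hb (z 0) (hzS 0) hbG _ (mul_ne_zero (inv_ne_zero (hs0 0)) h0) hz0
  rw [abs_mul, abs_inv, hs 0, inv_one, one_mul] at this
  exact this

theorem u2_core {k : ℕ} {S : Set V} (hU : Unif k S) {b : V} (hb : b ∈ S) {H : Finset V}
    (hH : (H : Set V) ⊆ S) (hk : H.card + 2 ≤ k) {y y' : Fin 3 → V} (hy : ∀ i, y i ∈ S)
    (hy' : ∀ i, y' i ∈ S) {e l θ : Fin 3 → ℚ} (he : ∀ i, |e i| = 1) (hl : ∀ i, |l i| = 1)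
    (hθ : ∀ i, |θ i| = 1) (hpart : ∀ i, y' i = l i • y i + θ i • b) {β : ℚ}
    (hrel : ∑ i, e i • y i - β • b ∈ span ℚ (H : Set V))
    (hind : ∀ a₀ a₁ a₂ : ℚ, a₀ • b + a₁ • y 1 + a₂ • y 2 ∈ span ℚ (H : Set V) →
      a₀ = 0 ∧ a₁ = 0 ∧ a₂ = 0) :
    False := by
  have hcl := u2_claim hU hb hH hk hy hy' he hl hpart hrel hind
  let η : Fin 3 → ℚ := fun i => e i * l i * θ i
  have hη : ∀ i, η i = 1 ∨ η i = -1 := by
    intro i
    have : |η i| = 1 := by simp only [η]; rw [abs_mul, abs_mul, he, hl, hθ]; norm_num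
    rcases abs_eq (zero_le_one) |>.1 this with h | h
    · exact Or.inl h
    · exact Or.inr h
  have h1 := hcl (Finset.univ.filter (fun i => η i = 1))
  have h2 := hcl (Finset.univ.filter (fun i => ¬ η i = 1))
  have h3 : ∑ i ∈ Finset.univ.filter (fun i => η i = 1), e i * l i * θ i -
      ∑ i ∈ Finset.univ.filter (fun i => ¬ η i = 1), e i * l i * θ i = 3 := by
    have e1 : ∑ i ∈ Finset.univ.filter (fun i => η i = 1), e i * l i * θ i =
        ∑ i ∈ Finset.univ.filter (fun i => η i = 1), (1 : ℚ) :=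
      Finset.sum_congr rfl fun i hi => (Finset.mem_filter.1 hi).2
    have e2 : ∑ i ∈ Finset.univ.filter (fun i => ¬ η i = 1), e i * l i * θ i =
        ∑ i ∈ Finset.univ.filter (fun i => ¬ η i = 1), (-1 : ℚ) := by
      refine Finset.sum_congr rfl fun i hi => ?_
      have := (Finset.mem_filter.1 hi).2
      exact (hη i).resolve_left this
    rw [e1, e2, Finset.sum_neg_distrib, sub_neg_eq_add, Finset.sum_filter_add_sum_filter_not]
    simp
  have h4 : |β + ∑ i ∈ Finset.univ.filter (fun i => η i = 1), e i * l i * θ i| ≤ 1 := by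
    rcases h1 with h | h
    · rw [h, abs_zero]; exact zero_le_one
    · exact h.le
  have h5 : |β + ∑ i ∈ Finset.univ.filter (fun i => ¬ η i = 1), e i * l i * θ i| ≤ 1 := by
    rcases h2 with h | h
    · rw [h, abs_zero]; exact zero_le_one
    · exact h.le
  rw [abs_le] at h4 h5
  linarith [h4.1, h4.2, h5.1, h5.2]



theorem u2_abs {k : ℕ} {S : Set V} (hU : Unif k S) {b : V} (hb : b ∈ S)
    {K : Finset V} (hK : (K : Set V) ⊆ S) (hKk : K.card ≤ k)
    (hc : CircMod (span ℚ {b}) K) {κ : V → ℚ} (hκ : ∀ x ∈ K, κ x ≠ 0)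
    (hrel : ∑ x ∈ K, κ x • x ∈ span ℚ {b}) {x y : V} (hx : x ∈ K) (hy : y ∈ K)
    (hxy : x ≠ y) : |κ x| = |κ y| := by
  set K₂ : Finset V := (K.erase x).erase y with hK₂
  have hyK : y ∈ K.erase x := Finset.mem_erase.2 ⟨hxy.symm, hy⟩
  have hins : K.erase y = insert x K₂ := by
    rw [hK₂, Finset.erase_right_comm, Finset.insert_erase]
    exact Finset.mem_erase.2 ⟨hxy, hx⟩
  have hxK₂ : x ∉ K₂ := by simp [hK₂]
  let G : Finset V := insert b K₂
  have hGS : (G : Set V) ⊆ S := by
    intro z hz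
    simp only [G, Finset.coe_insert, Set.mem_insert_iff] at hz
    rcases hz with rfl | hz
    · exact hb
    · apply hK
      exact Finset.mem_of_mem_erase (Finset.mem_of_mem_erase hz)
  have hGk : G.card ≤ k := by
    have h1 := Finset.card_insert_le b K₂
    have h2 : K₂.card + 1 = (K.erase x).card := Finset.card_erase_add_one hyK
    have h3 : (K.erase x).card + 1 = K.card := Finset.card_erase_add_one hx
    simp only [G]
    omega
  have hxG : x ∉ span ℚ (G : Set V) := by
    intro hxG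
    simp only [G, Finset.coe_insert] at hxG
    rw [mem_span_insert] at hxG
    obtain ⟨a, w, hw, hxw⟩ := hxG
    rw [mem_span_finset] at hw
    obtain ⟨f, -, hf⟩ := hw
    have hi : IndMod (span ℚ {b}) (K.erase y) := hc.indMod_of_ssubset (Finset.erase_ssubset hy)
    have := hi (fun z => if z = x then 1 else - f z) (by
      rw [hins, Finset.sum_insert hxK₂]
      have h1 : ∑ z ∈ K₂, (if z = x then (1 : ℚ) else - f z) • z = - w := by
        rw [← hf, ← Finset.sum_neg_distrib]
        refine Finset.sum_congr rfl fun z hz => ?_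
        rw [if_neg, neg_smul]
        rintro rfl
        exact hxK₂ hz
      rw [h1, if_pos rfl, one_smul, mem_span_singleton]
      refine ⟨a, ?_⟩
      conv_rhs => rw [hxw]
      abel) x (Finset.mem_erase.2 ⟨hxy, hx⟩)
    simp at this
  have hl0 : - κ x / κ y ≠ 0 := div_ne_zero (neg_ne_zero.2 (hκ x hx)) (hκ y hy)
  have hyG : y - (- κ x / κ y) • x ∈ span ℚ (G : Set V) := by
    rw [mem_span_singleton] at hrel
    obtain ⟨β, hβ⟩ := hrel
    rw [← Finset.add_sum_erase K _ hx, ← Finset.add_sum_erase _ _ hyK, ← hK₂] at hβ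
    have h1 : y - (- κ x / κ y) • x =
        (κ y)⁻¹ • (β • b) - (κ y)⁻¹ • ∑ z ∈ K₂, κ z • z := by
      rw [hβ, smul_add, smul_add, smul_smul, smul_smul, inv_mul_cancel₀ (hκ y hy), one_smul]
      have : - κ x / κ y = - ((κ y)⁻¹ * κ x) := by rw [neg_div, div_eq_inv_mul]
      rw [this, neg_smul]
      abel
    rw [h1]
    refine sub_mem (smul_mem _ _ (smul_mem _ _ (subset_span ?_))) (smul_mem _ _ (sum_mem ?_))
    · simp [G]
    · intro z hz
      apply smul_mem
      apply subset_span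
      simp only [G, Finset.coe_insert]
      right; exact hz
  have := hU G hGS hGk x (hK hx) y (hK hy) hxG _ hl0 hyG
  rw [abs_div, abs_neg, div_eq_one_iff_eq (abs_ne_zero.2 (hκ y hy))] at this
  exact this

theorem u2 {k : ℕ} {S : Set V} (hU : Unif k S) {b : V} (hb : b ∈ S) (hb0 : b ≠ 0)
    {K : Finset V} (hK : (K : Set V) ⊆ S) (hKk : K.card ≤ k) (hs : SimpleMod (span ℚ {b}) K)
    (hc : CircMod (span ℚ {b}) K) (hd : ∀ r ∈ K, Doubled b S r) : False := by
  obtain ⟨hne, κ, hκ, hrel, -⟩ := id hc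
  have h3 : 2 < K.card := by
    by_contra hcon
    have h1 : 0 < K.card := hne.card_pos
    rcases (show K.card = 1 ∨ K.card = 2 by omega) with h | h
    · obtain ⟨x, rfl⟩ := Finset.card_eq_one.1 h
      rw [Finset.sum_singleton] at hrel
      have h2 := smul_mem _ (κ x)⁻¹ hrel
      rw [smul_smul, inv_mul_cancel₀ (hκ x (Finset.mem_singleton_self x)), one_smul] at h2
      exact hs.1 x (Finset.mem_singleton_self x) h2
    · obtain ⟨x, y, hxy, rfl⟩ := Finset.card_eq_two.1 h
      rw [Finset.sum_pair hxy] at hrel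
      have hx : x ∈ ({x, y} : Finset V) := by simp
      have hy : y ∈ ({x, y} : Finset V) := by simp
      have h2 := smul_mem _ (κ y)⁻¹ hrel
      rw [smul_add, smul_smul, smul_smul, inv_mul_cancel₀ (hκ y hy), one_smul] at h2
      apply hs.2 x hx y hy hxy (-((κ y)⁻¹ * κ x))
      have : y - (-((κ y)⁻¹ * κ x)) • x = ((κ y)⁻¹ * κ x) • x + y := by
        rw [neg_smul]; abel
      rw [this]; exact h2
  obtain ⟨y0, m0, y1, m1, y2, m2, n01, n02, n12⟩ := Finset.two_lt_card.1 h3
  set H : Finset V := ((K.erase y0).erase y1).erase y2 with hH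
  have m1' : y1 ∈ K.erase y0 := Finset.mem_erase.2 ⟨n01.symm, m1⟩
  have m2' : y2 ∈ (K.erase y0).erase y1 :=
    Finset.mem_erase.2 ⟨n12.symm, Finset.mem_erase.2 ⟨n02.symm, m2⟩⟩
  have hHK : H ⊆ K := (Finset.erase_subset _ _).trans
    ((Finset.erase_subset _ _).trans (Finset.erase_subset _ _))
  have hHS : (H : Set V) ⊆ S := fun z hz => hK (hHK hz)
  have hk1 : 1 ≤ k := by omega
  have hHk : H.card + 2 ≤ k := by
    have a1 := Finset.card_erase_add_one m2'
    have a2 := Finset.card_erase_add_one m1'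
    have a3 := Finset.card_erase_add_one m0
    rw [← hH] at a1
    omega
  have hsum : ∀ g : V → V, ∑ x ∈ K, g x = g y0 + (g y1 + (g y2 + ∑ x ∈ H, g x)) := by
    intro g
    rw [← Finset.add_sum_erase K _ m0, ← Finset.add_sum_erase _ _ m1',
      ← Finset.add_sum_erase _ _ m2']
  have hsum' : ∀ g : V → V, ∑ x ∈ K.erase y0, g x = g y1 + (g y2 + ∑ x ∈ H, g x) := by
    intro g
    rw [← Finset.add_sum_erase _ _ m1', ← Finset.add_sum_erase _ _ m2']
  have habs : ∀ x ∈ K, ∀ y ∈ K, |κ x| = |κ y| := by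
    intro x hx y hy
    by_cases h : x = y
    · rw [h]
    · exact u2_abs hU hb hK hKk hc hκ hrel hx hy h
  have hxb : ∀ x ∈ K, x ∉ span ℚ {b} := hs.1
  choose! p hpS l θ hl0 hθ0 hp using hd
  have hlθ : ∀ x ∈ K, |l x| = 1 ∧ |θ x| = 1 := fun x hx =>
    u1_one hk1 hU hb hb0 (hK hx) (hpS x hx) (hxb x hx) (hl0 x hx) (hθ0 x hx) (hp x hx)
  rw [mem_span_singleton] at hrel
  obtain ⟨β, hβ⟩ := hrel
  let y : Fin 3 → V := ![y0, y1, y2]
  have hyK : ∀ i, y i ∈ K := by
    intro i
    fin_cases i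
    · exact m0
    · exact m1
    · exact m2
  have hind : IndMod (span ℚ {b}) (K.erase y0) :=
    hc.indMod_of_ssubset (Finset.erase_ssubset m0)
  have hHn : ∀ z ∈ H, z ≠ y1 ∧ z ≠ y2 := by
    intro z hz
    rw [hH] at hz
    exact ⟨(Finset.mem_erase.1 (Finset.mem_of_mem_erase hz)).1, (Finset.mem_erase.1 hz).1⟩
  refine u2_core (y := y) (y' := fun i => p (y i)) (e := fun i => κ (y i) / κ y0)
    (l := fun i => l (y i)) (θ := fun i => θ (y i)) (β := β / κ y0) hU hb hHS hHk
    (fun i => hK (hyK i)) (fun i => hpS _ (hyK i)) ?_ (fun i => (hlθ _ (hyK i)).1)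
    (fun i => (hlθ _ (hyK i)).2) (fun i => hp _ (hyK i)) ?_ ?_
  · intro i
    rw [abs_div, habs _ (hyK i) y0 m0]
    exact div_self (abs_ne_zero.2 (hκ y0 m0))
  · have h1 : ∑ i, (κ (y i) / κ y0) • y i - (β / κ y0) • b =
        - ((κ y0)⁻¹ • ∑ x ∈ H, κ x • x) := by
      rw [Fin.sum_univ_three]
      have h2 : (β / κ y0) • b = (κ y0)⁻¹ • (β • b) := by
        rw [smul_smul, div_eq_inv_mul]
      rw [h2, hβ, hsum]
      have e0 : y 0 = y0 := rfl
      have e1 : y 1 = y1 := rfl
      have e2 : y 2 = y2 := rfl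
      rw [e0, e1, e2]
      simp only [div_eq_inv_mul, smul_add, smul_smul]
      abel
    rw [h1]
    refine neg_mem (smul_mem _ _ (sum_mem fun z hz => smul_mem _ _ (subset_span hz)))
  · intro a₀ a₁ a₂ hmem
    have e1 : y 1 = y1 := rfl
    have e2 : y 2 = y2 := rfl
    rw [e1, e2, mem_span_finset] at hmem
    obtain ⟨f, -, hf⟩ := hmem
    have hz := hind (fun z => if z = y1 then a₁ else if z = y2 then a₂ else - f z) (by
      rw [hsum']
      have h1 : ∑ x ∈ H, (if x = y1 then a₁ else if x = y2 then a₂ else - f x) • x =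
          - ∑ x ∈ H, f x • x := by
        rw [← Finset.sum_neg_distrib]
        refine Finset.sum_congr rfl fun z hz => ?_
        rw [if_neg (hHn z hz).1, if_neg (hHn z hz).2, neg_smul]
      rw [h1, hf, if_pos rfl, if_neg n12.symm, if_pos rfl, mem_span_singleton]
      refine ⟨-a₀, ?_⟩
      rw [neg_smul]
      abel)
    have z1 := hz y1 m1'
    have z2 := hz y2 (Finset.mem_erase.2 ⟨n02.symm, m2⟩)
    simp only [if_true] at z1
    rw [if_neg n12.symm, if_pos rfl] at z2
    have z3 : ∀ z ∈ H, f z = 0 := by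
      intro z hzH
      have := hz z (Finset.mem_of_mem_erase (Finset.mem_of_mem_erase hzH))
      rw [if_neg (hHn z hzH).1, if_neg (hHn z hzH).2] at this
      exact neg_eq_zero.1 this
    have z4 : ∑ x ∈ H, f x • x = 0 := Finset.sum_eq_zero fun z hz => by
      rw [z3 z hz, zero_smul]
    rw [z4, z1, z2, zero_smul, zero_smul, add_zero, add_zero] at hf
    rcases smul_eq_zero.1 hf.symm with h | h
    · exact ⟨h, z1, z2⟩
    · exact absurd h hb0

end Pool.Agent.Lib.H73H
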