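import Pool.Agent.Lib.H73H.B2

set_option autoImplicit false

namespace Pool.Agent.Lib.H73H

open Classical Module Submodule

variable {V : Type} [AddCommGroup V] [Module ℚ V]

/-! X1: contraction of an alternating form. -/

theorem x1_same {n : ℕ} (ω : V [⋀^Fin (n + 1)]→ₗ[ℚ] ℚ) (b : V) (v : Fin n → V) (j : Fin n) :
    ω (Fin.cons b (Function.update v j b) : Fin (n + 1) → V) = 0 := by
  apply ω.map_eq_zero_of_eq _ _ (Fin.succ_ne_zero j).symm
  rw [Fin.cons_zero, Fin.cons_succ, Function.update_self]

/-- changing the entries by multiples of `b` -/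
theorem x1_change {n : ℕ} (ω : V [⋀^Fin (n + 1)]→ₗ[ℚ] ℚ) (b : V) (v w : Fin n → V)
    (h : ∀ i, w i - v i ∈ span ℚ {b}) :
    ω (Fin.cons b w : Fin (n + 1) → V) = ω (Fin.cons b v : Fin (n + 1) → V) := by
  have key : ∀ A : Finset (Fin n), ω (Fin.cons b (fun i => if i ∈ A then w i else v i) : Fin (n + 1) → V) =
      ω (Fin.cons b v : Fin (n + 1) → V) := by
    intro A
    induction A using Finset.induction_on with
    | empty =>
      simp only [Finset.notMem_empty, if_false]
    | insert j A hj ih =>
      obtain ⟨t, ht⟩ := Submodule.mem_span_singleton.mp (h j)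
      obtain ⟨f, hf⟩ : ∃ f : Fin n → V, f = fun i => if i ∈ A then w i else v i := ⟨_, rfl⟩
      have h1 : (fun i => if i ∈ insert j A then w i else v i) = Function.update f j (v j + t • b) := by
        funext i
        by_cases hi : i = j
        · rw [hi, Function.update_self, if_pos (Finset.mem_insert_self _ _), ht]
          abel
        · rw [Function.update_of_ne hi, hf]
          simp only [Finset.mem_insert, hi, false_or]
      have h2 : Function.update f j (v j) = f := by
        have h3 : v j = f j := by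
          rw [hf]
          simp only [if_neg hj]
        rw [h3, Function.update_eq_self]
      have h4 : ω (Fin.cons b (Function.update f j (v j + t • b)) : Fin (n + 1) → V) =
          (ω.curryLeft b) (Function.update f j (v j + t • b)) := rfl
      have h5 : (ω.curryLeft b) (Function.update f j (v j)) = ω (Fin.cons b f : Fin (n + 1) → V) := by
        rw [h2]
        rfl
      have h6 : (ω.curryLeft b) (Function.update f j b) = 0 := x1_same ω b f j
      rw [h1, h4, AlternatingMap.map_update_add, AlternatingMap.map_update_smul, h6, smul_zero, add_zero, h5, hf]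
      exact ih
  have h1 := key Finset.univ
  simp only [Finset.mem_univ, if_true] at h1
  exact h1

/-- a nonzero form does not vanish on some tuple starting with a given nonzero vector -/
theorem x1_ne {n : ℕ} [Module.Finite ℚ V] (hn : finrank ℚ V = n + 1)
    {ω : V [⋀^Fin (n + 1)]→ₗ[ℚ] ℚ} (hω : ω ≠ 0) {b : V} (hb : b ≠ 0) :
    ∃ v : Fin n → V, ω (Fin.cons b v : Fin (n + 1) → V) ≠ 0 := by
  obtain ⟨e, -⟩ : ∃ e : Basis (Fin (n + 1)) ℚ V, e = e := ⟨finBasisOfFinrankEq ℚ V hn, rfl⟩
  have h1 := cramer hω e.linearIndependent e.span_eq b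
  have h2 : ∃ i, ω (Function.update e i b) ≠ 0 := by
    by_contra hno
    push Not at hno
    apply hb
    rw [h1]
    apply Finset.sum_eq_zero
    intro i _
    rw [hno, zero_div, zero_smul]
  obtain ⟨i, hi⟩ := h2
  by_cases hi0 : i = 0
  · refine ⟨fun j => e j.succ, ?_⟩
    rw [hi0] at hi
    have h3 : Function.update e 0 b = (Fin.cons b (fun j => e j.succ) : Fin (n + 1) → V) := by
      funext j
      refine Fin.cases ?_ (fun j => ?_) j
      · rw [Function.update_self, Fin.cons_zero]
      · rw [Function.update_of_ne (Fin.succ_ne_zero j), Fin.cons_succ]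
    rw [← h3]
    exact hi
  · refine ⟨fun j => (Function.update e i b ∘ Equiv.swap 0 i) j.succ, ?_⟩
    have h3 : (Fin.cons b (fun j => (Function.update e i b ∘ Equiv.swap 0 i) j.succ) : Fin (n + 1) → V) =
        Function.update e i b ∘ Equiv.swap 0 i := by
      funext j
      refine Fin.cases ?_ (fun j => ?_) j
      · rw [Fin.cons_zero, Function.comp_apply, Equiv.swap_apply_left, Function.update_self]
      · rw [Fin.cons_succ]
    rw [h3, AlternatingMap.map_swap _ _ (Ne.symm hi0)]
    exact neg_ne_zero.mpr hi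

/-- Choose a linear section `s` of `π = (span ℚ {b}).mkQ` (`exists_rightInverse_of_surjective`
as `π` is surjective), and `ω' = (ω.curryLeft b).compLinearMap s`, so
`ω' w = ω (Matrix.vecCons b (s ∘ w))`. For `w = π ∘ v` the vectors `s (π (v i))` and `v i` differ
by multiples of `b`, and `b` is the first argument, so the values agree (change the entries one
after the other, or use that `ω.curryLeft b` vanishes when an argument is `b`).
`ω' ≠ 0` if `ω ≠ 0`, `b ≠ 0`: a basis of the quotient `(π (v i))_i` lifts to a basis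
`b, v 1, .., v n` of `V`, and a nonzero form does not vanish on a basis (or: if `ω' = 0`, then
`ω (cons b v) = 0` for all `v`; extend `b` to a basis of `V` indexed by `Fin (n + 1)`;
`finrank ℚ V = n + 1`). -/
theorem contr_form {n : ℕ} [Module.Finite ℚ V] (hn : finrank ℚ V = n + 1)
    {ω : V [⋀^Fin (n + 1)]→ₗ[ℚ] ℚ} (hω : ω ≠ 0) {b : V} (hb : b ≠ 0) :
    ∃ ω' : (V ⧸ span ℚ {b}) [⋀^Fin n]→ₗ[ℚ] ℚ, ω' ≠ 0 ∧
      ∀ v : Fin n → V, ω' (fun i => (span ℚ {b}).mkQ (v i)) = ω (Fin.cons b v) := by
  obtain ⟨s, hs⟩ := (span ℚ {b}).mkQ.exists_rightInverse_of_surjective (Submodule.range_mkQ _)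
  have hs' : ∀ y, (span ℚ {b}).mkQ (s y) = y := fun y => LinearMap.congr_fun hs y
  have key : ∀ v : Fin n → V, ((ω.curryLeft b).compLinearMap s) (fun i => (span ℚ {b}).mkQ (v i)) =
      ω (Fin.cons b v : Fin (n + 1) → V) := by
    intro v
    apply x1_change ω b v (fun i => s ((span ℚ {b}).mkQ (v i)))
    intro i
    apply (Submodule.Quotient.eq _).mp
    exact hs' _
  refine ⟨(ω.curryLeft b).compLinearMap s, ?_, key⟩
  intro h0
  obtain ⟨v, hv⟩ := x1_ne hn hω hb
  apply hv
  rw [← key, h0]
  rfl

end Pool.Agent.Lib.H73H
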